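import Pool.Statements.S00315

set_option autoImplicit false
open Pool Pool.MP_959e05_ag

namespace Pool.Agent.S00315

open Finset

/-- Combinatorial part: if `k ^ 2 ≤ n * m` there are `k`-element subsets `A`, `B` of the cyclic group of
order `n` such that every element has at most `m` representations `a + b`. -/
theorem comb (n k m : ℕ) [NeZero n] (hk : k ≤ n) (hkm : k * k ≤ n * m) :
    ∃ A B : Finset (Fin n), A.card = k ∧ B.card = k ∧
      ∀ c : Fin n, (B.filter (fun b => c - b ∈ A)).card ≤ m := by
  have hn : 0 < n := Nat.pos_of_ne_zero (NeZero.ne n)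
  have hlt : ∀ j : Fin k, j.val * n / k < n := by
    intro j
    have hk0 : 0 < k := lt_of_le_of_lt (Nat.zero_le _) j.isLt
    rw [Nat.div_lt_iff_lt_mul hk0]
    have := j.isLt
    nlinarith
  let f : Fin k → Fin n := fun j => ⟨j.val * n / k, hlt j⟩
  have hmono : ∀ j1 j2 : Fin k, j1 < j2 → (f j1).val < (f j2).val := by
    intro j1 j2 h
    have hk0 : 0 < k := lt_of_le_of_lt (Nat.zero_le _) j1.isLt
    have h' : j1.val + 1 ≤ j2.val := h
    show j1.val * n / k < j2.val * n / k
    have h1 : (j1.val * n + k) / k = j1.val * n / k + 1 := Nat.add_div_right _ hk0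
    have h2 : (j1.val * n + k) / k ≤ j2.val * n / k := by
      apply Nat.div_le_div_right
      nlinarith
    omega
  have hinj : Function.Injective f := by
    intro j1 j2 h
    rcases lt_trichotomy j1 j2 with h1 | h1 | h1
    · have := hmono _ _ h1
      rw [h] at this
      exact absurd this (lt_irrefl _)
    · exact h1
    · have := hmono _ _ h1
      rw [h] at this
      exact absurd this (lt_irrefl _)
  refine ⟨univ.filter (fun a : Fin n => a.val < k), univ.map ⟨f, hinj⟩, ?_, ?_, ?_⟩
  · have : (univ.filter (fun a : Fin n => a.val < k)) = (univ : Finset (Fin k)).map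
        ⟨Fin.castLE hk, Fin.castLE_injective hk⟩ := by
      ext a
      simp only [mem_filter, mem_univ, true_and, mem_map, Function.Embedding.coeFn_mk]
      constructor
      · intro h
        exact ⟨⟨a.val, h⟩, by ext; simp⟩
      · rintro ⟨b, rfl⟩
        simp
    rw [this, card_map, card_univ, Fintype.card_fin]
  · rw [card_map, card_univ, Fintype.card_fin]
  · intro c
    rcases Nat.eq_zero_or_pos k with hk0 | hk0
    · subst hk0
      simp
    -- the shifted index
    let g : Fin k → ℕ := fun j => if (f j).val ≤ c.val then j.val + k else j.val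
    have hginj : Function.Injective g := by
      intro j1 j2 h
      have h1 := j1.isLt
      have h2 := j2.isLt
      have h3 : (if (f j1).val ≤ c.val then j1.val + k else j1.val)
        = (if (f j2).val ≤ c.val then j2.val + k else j2.val) := h
      ext
      split_ifs at h3 <;> omega
    set x : ℕ := ((c.val + n + 1 - k) * k + (n - 1)) / n with hx
    have hxn : (c.val + n + 1 - k) * k ≤ x * n := by
      have h1 := Nat.div_add_mod ((c.val + n + 1 - k) * k + (n - 1)) n
      have h2 := Nat.mod_lt ((c.val + n + 1 - k) * k + (n - 1)) hn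
      rw [← hx] at h1
      have h3 : x * n = n * x := mul_comm _ _
      omega
    have hmem : ∀ j : Fin k, (c - f j).val < k → g j ∈ Finset.Ico x (x + m) := by
      intro j hj
      -- the floor of `g j * n / k`
      have hgn : c.val + n < g j * n / k + k ∧ g j * n / k ≤ c.val + n := by
        have hval : (c - f j).val = (n - (f j).val + c.val) % n := by
          rw [Fin.sub_def]
        have hfj : (f j).val = j.val * n / k := rfl
        have hflt := (f j).isLt
        have hclt := c.isLt
        by_cases hle : (f j).val ≤ c.val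
        · have hg : g j = j.val + k := if_pos hle
          have h1 : (c - f j).val = c.val - (f j).val := by
            rw [hval]
            have : n - (f j).val + c.val = n + (c.val - (f j).val) := by omega
            rw [this, Nat.add_mod_left, Nat.mod_eq_of_lt (by omega)]
          have h2 : g j * n / k = (f j).val + n := by
            rw [hg, add_mul, Nat.add_mul_div_left _ _ hk0]
          rw [h2]
          omega
        · have hg : g j = j.val := if_neg hle
          have h1 : (c - f j).val = n + c.val - (f j).val := by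
            rw [hval]
            have : n - (f j).val + c.val = n + c.val - (f j).val := by omega
            rw [this, Nat.mod_eq_of_lt (by omega)]
          have h2 : g j * n / k = (f j).val := by
            rw [hg]
          rw [h2]
          omega
      obtain ⟨hg1, hg2⟩ := hgn
      rw [Finset.mem_Ico]
      have e1 : (c.val + n + 1 - k) * k ≤ g j * n := by
        have h1 : c.val + n + 1 - k ≤ g j * n / k := by omega
        calc (c.val + n + 1 - k) * k ≤ (g j * n / k) * k := Nat.mul_le_mul_right _ h1
          _ ≤ g j * n := Nat.div_mul_le_self _ _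
      have e2 : g j * n < (c.val + n + 1) * k := by
        have h1 : g j * n / k < c.val + n + 1 := by omega
        rwa [Nat.div_lt_iff_lt_mul hk0] at h1
      constructor
      · rw [hx]
        apply Nat.le_of_lt_succ
        rw [Nat.div_lt_iff_lt_mul hn]
        have : (g j).succ * n = g j * n + n := by rw [Nat.succ_mul]
        omega
      · have h4 : (c.val + n + 1) * k = (c.val + n + 1 - k) * k + k * k := by
          rw [← add_mul]
          congr 1
          omega
        have h5 : g j * n < (x + m) * n := by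
          rw [add_mul]
          have : m * n = n * m := mul_comm _ _
          omega
        exact lt_of_mul_lt_mul_right h5 (Nat.zero_le _)
    have hcard : (Finset.filter (fun b => c - b ∈ univ.filter (fun a : Fin n => a.val < k))
        (univ.map ⟨f, hinj⟩)).card ≤ (Finset.Ico x (x + m)).card := by
      have hsub : (Finset.filter (fun b => c - b ∈ univ.filter (fun a : Fin n => a.val < k))
        (univ.map ⟨f, hinj⟩)) = (univ.filter (fun j : Fin k => (c - f j).val < k)).map ⟨f, hinj⟩ := by
        ext b
        simp only [mem_filter, mem_univ, true_and, mem_map, Function.Embedding.coeFn_mk]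
        constructor
        · rintro ⟨⟨j, rfl⟩, h⟩
          exact ⟨j, h, rfl⟩
        · rintro ⟨j, h, rfl⟩
          exact ⟨⟨j, rfl⟩, h⟩
      rw [hsub, card_map]
      apply Finset.card_le_card_of_injOn g
      · intro j hj
        simp only [coe_filter, mem_univ, true_and, Set.mem_ofPred_eq] at hj
        exact hmem j hj
      · exact hginj.injOn
    rw [Nat.card_Ico] at hcard
    omega


/-- A polynomial `∑ f i X ^ i` over `Fin n` that is zero has all coefficients zero. -/
theorem coeff_zero_of_sum {n : ℕ} (f : Fin n → ℂ)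
    (h : (∑ i : Fin n, Polynomial.C (f i) * Polynomial.X ^ (i : ℕ) : Polynomial ℂ) = 0) (t : Fin n) :
    f t = 0 := by
  have h1 := congrArg (fun p => Polynomial.coeff p (t : ℕ)) h
  simp only [Polynomial.finsetSum_coeff, Polynomial.coeff_C_mul_X_pow, Polynomial.coeff_zero] at h1
  rw [Finset.sum_eq_single t] at h1
  · simpa using h1
  · intro b _ hb
    rw [if_neg]
    intro h2
    exact hb (Fin.ext h2.symm)
  · intro h2
    exact absurd (mem_univ t) h2

/-- The character sums. -/
theorem chi_add_left {n : ℕ} [NeZero n] {ζ : ℂ} (hζ : ζ ^ n = 1) (a b i : Fin n) :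
    ζ ^ ((a + b : Fin n).val * i.val) = ζ ^ (a.val * i.val) * ζ ^ (b.val * i.val) := by
  rw [Fin.val_add, pow_mul, ← pow_eq_pow_mod _ hζ, ← pow_add, ← pow_mul, add_mul]

theorem chi_add_right {n : ℕ} [NeZero n] {ζ : ℂ} (hζ : ζ ^ n = 1) (a i j : Fin n) :
    ζ ^ (a.val * (i + j : Fin n).val) = ζ ^ (a.val * i.val) * ζ ^ (a.val * j.val) := by
  rw [mul_comm, chi_add_left hζ, mul_comm i.val, mul_comm j.val]

/-- Linear algebra part: a matrix supported on the circulant pattern and whose two-dimensional Fourier
transform is supported on `A × B` vanishes. -/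
theorem key (n l m : ℕ) [NeZero n] (hlm : l + m ≤ n) (ζ : ℂ) (hζ : IsPrimitiveRoot ζ n)
    (A B : Finset (Fin n)) (hAB : ∀ c : Fin n, (B.filter (fun b => c - b ∈ A)).card ≤ m)
    (N : Fin n → Fin n → ℂ)
    (hsupp : ∀ i j : Fin n, ¬ ((j - i : Fin n) : ℕ) < l → N i j = 0)
    (hA : ∀ a : Fin n, a ∉ A → ∀ j, ∑ i, N i j * ζ ^ (a.val * i.val) = 0)
    (hB : ∀ b : Fin n, b ∉ B → ∀ i, ∑ j, N i j * ζ ^ (b.val * j.val) = 0) :
    ∀ i j, N i j = 0 := by
  have hζn : ζ ^ n = 1 := hζ.pow_eq_one
  have hvinj : Function.Injective (fun b : Fin n => ζ ^ b.val) := by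
    intro b1 b2 h
    exact Fin.ext (hζ.pow_inj b1.isLt b2.isLt h)
  -- the double transform
  have hhat : ∀ a b : Fin n, ¬ (b ∈ B ∧ a ∈ A) →
      ∑ i, ∑ j, N i j * ζ ^ (a.val * i.val) * ζ ^ (b.val * j.val) = 0 := by
    intro a b hab
    by_cases ha : a ∈ A
    · have hb : b ∉ B := fun hb => hab ⟨hb, ha⟩
      apply Finset.sum_eq_zero
      intro i _
      have := hB b hb i
      calc ∑ j, N i j * ζ ^ (a.val * i.val) * ζ ^ (b.val * j.val)
          = ζ ^ (a.val * i.val) * ∑ j, N i j * ζ ^ (b.val * j.val) := by
            rw [Finset.mul_sum]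
            apply Finset.sum_congr rfl
            intro j _
            ring
        _ = 0 := by rw [this, mul_zero]
    · rw [Finset.sum_comm]
      apply Finset.sum_eq_zero
      intro j _
      rw [← Finset.sum_mul, hA a ha j, zero_mul]
  -- the twisted diagonals
  let F : Fin n → Fin n → ℂ := fun c t => ∑ i, N i (i + t) * ζ ^ (c.val * i.val)
  have hFsupp : ∀ c t : Fin n, ¬ t.val < l → F c t = 0 := by
    intro c t ht
    apply Finset.sum_eq_zero
    intro i _
    rw [hsupp i (i + t), zero_mul]
    rwa [add_sub_cancel_left]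
  have heval : ∀ c b : Fin n,
      (∑ t : Fin n, Polynomial.C (F c t) * Polynomial.X ^ (t : ℕ) : Polynomial ℂ).eval (ζ ^ b.val)
        = ∑ i, ∑ j, N i j * ζ ^ ((c - b : Fin n).val * i.val) * ζ ^ (b.val * j.val) := by
    intro c b
    rw [Polynomial.eval_finsetSum]
    simp only [Polynomial.eval_mul, Polynomial.eval_C, Polynomial.eval_pow, Polynomial.eval_X]
    have h1 : ∀ i : Fin n, ∑ j, N i j * ζ ^ ((c - b : Fin n).val * i.val) * ζ ^ (b.val * j.val)
        = ∑ t, N i (i + t) * ζ ^ ((c - b : Fin n).val * i.val) * ζ ^ (b.val * (i + t : Fin n).val) := by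
      intro i
      exact (Equiv.sum_comp (Equiv.addLeft i)
        (fun j => N i j * ζ ^ ((c - b : Fin n).val * i.val) * ζ ^ (b.val * j.val))).symm
    simp only [h1]
    rw [Finset.sum_comm]
    apply Finset.sum_congr rfl
    intro t _
    rw [Finset.sum_mul]
    apply Finset.sum_congr rfl
    intro i _
    rw [chi_add_right hζn]
    have h2 : ζ ^ (c.val * i.val) = ζ ^ ((c - b : Fin n).val * i.val) * ζ ^ (b.val * i.val) := by
      rw [← chi_add_left hζn, sub_add_cancel]
    rw [h2, ← pow_mul]
    ring
  have hF0 : ∀ c t : Fin n, F c t = 0 := by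
    intro c
    apply coeff_zero_of_sum
    refine Polynomial.eq_zero_of_degree_lt_of_eval_index_eq_zero (v := fun b : Fin n => ζ ^ b.val)
      (univ.filter (fun b : Fin n => ¬ (b ∈ B ∧ c - b ∈ A))) hvinj.injOn ?_ ?_
    · -- degree bound
      have hcard : l ≤ (univ.filter (fun b : Fin n => ¬ (b ∈ B ∧ c - b ∈ A))).card := by
        have h1 := Finset.card_filter_add_card_filter_not (s := (univ : Finset (Fin n)))
          (fun b : Fin n => b ∈ B ∧ c - b ∈ A)
        have h2 : (univ.filter (fun b : Fin n => b ∈ B ∧ c - b ∈ A)) = B.filter (fun b => c - b ∈ A) := by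
          ext b
          simp
        rw [h2, card_univ, Fintype.card_fin] at h1
        have h3 := hAB c
        omega
      have hdeg : (∑ t : Fin n, Polynomial.C (F c t) * Polynomial.X ^ (t : ℕ) : Polynomial ℂ).degree < (l : ℕ) := by
        rw [Polynomial.degree_lt_iff_coeff_zero]
        intro k hk
        rw [Polynomial.finsetSum_coeff]
        apply Finset.sum_eq_zero
        intro t _
        rw [Polynomial.coeff_C_mul_X_pow]
        split_ifs with h
        · apply hFsupp
          omega
        · rfl
      exact lt_of_lt_of_le hdeg (by exact_mod_cast hcard)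
    · intro b hb
      rw [heval]
      apply hhat
      exact (Finset.mem_filter.1 hb).2
  -- conclude
  have hdiag : ∀ t i : Fin n, N i (i + t) = 0 := by
    intro t
    apply coeff_zero_of_sum (fun i => N i (i + t))
    refine Polynomial.eq_zero_of_degree_lt_of_eval_index_eq_zero (v := fun c : Fin n => ζ ^ c.val)
      (univ : Finset (Fin n)) hvinj.injOn ?_ ?_
    · rw [card_univ, Fintype.card_fin]
      exact Polynomial.degree_sum_fin_lt _
    · intro c _
      rw [Polynomial.eval_finsetSum]
      simp only [Polynomial.eval_mul, Polynomial.eval_C, Polynomial.eval_pow, Polynomial.eval_X, ← pow_mul]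
      exact hF0 c t
  intro i j
  have := hdiag (j - i) i
  rwa [add_sub_cancel] at this

/-- The observed positions. -/
abbrev Obs (n l : ℕ) : Type := {p : Fin n × Fin n // ((p.2 - p.1 : Fin n) : ℕ) < l}

/-- The parametrisation of observed parts of products `U V`. -/
def phi (n l r : ℕ) (p : (Fin n → Fin r → ℂ) × (Fin r → Fin n → ℂ)) (e : Obs n l) : ℂ :=
  ∑ s, p.1 e.1.1 s * p.2 s e.1.2

theorem phi_bilinear (n l r : ℕ) : IsBoundedBilinearMap ℂ (phi n l r) where
  add_left := by
    intro U U' V
    funext e
    simp [phi, add_mul, Finset.sum_add_distrib]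
  smul_left := by
    intro c U V
    funext e
    simp [phi, Finset.mul_sum, mul_assoc]
  add_right := by
    intro U V V'
    funext e
    simp [phi, mul_add, Finset.sum_add_distrib]
  smul_right := by
    intro c U V
    funext e
    simp only [phi, Pi.smul_apply, smul_eq_mul, Finset.mul_sum]
    apply Finset.sum_congr rfl
    intro s _
    ring
  bound := by
    refine ⟨(r : ℝ) + 1, by positivity, ?_⟩
    intro U V
    have hUV : 0 ≤ ‖U‖ * ‖V‖ := by positivity
    rw [pi_norm_le_iff_of_nonneg (by positivity)]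
    intro e
    calc ‖phi n l r (U, V) e‖ ≤ ∑ s : Fin r, ‖U e.1.1 s * V s e.1.2‖ := norm_sum_le _ _
      _ ≤ ∑ s : Fin r, ‖U‖ * ‖V‖ := by
          apply Finset.sum_le_sum
          intro s _
          rw [norm_mul]
          have h1 : ‖U e.1.1 s‖ ≤ ‖U‖ := (norm_le_pi_norm (U e.1.1) s).trans (norm_le_pi_norm U e.1.1)
          have h2 : ‖V s e.1.2‖ ≤ ‖V‖ := (norm_le_pi_norm (V s) e.1.2).trans (norm_le_pi_norm V s)
          exact mul_le_mul h1 h2 (norm_nonneg _) (norm_nonneg _)
      _ = r * (‖U‖ * ‖V‖) := by simp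
      _ ≤ (r + 1) * ‖U‖ * ‖V‖ := by nlinarith

/-- Surjectivity of the derivative of the parametrisation at a suitable point. -/
theorem surj (n l r : ℕ) [NeZero n] (hl : l ≤ n) (hr : r ≤ n) (h : n * l ≤ r * (2 * n - r)) :
    ∃ p : (Fin n → Fin r → ℂ) × (Fin r → Fin n → ℂ),
      ((phi_bilinear n l r).deriv p).range = ⊤ := by
  classical
  have hn : n ≠ 0 := NeZero.ne n
  have hkm : (n - r) * (n - r) ≤ n * (n - l) := by
    obtain ⟨k, rfl⟩ := Nat.exists_eq_add_of_le hr
    obtain ⟨m, hm⟩ := Nat.exists_eq_add_of_le hl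
    have h1 : r + k - r = k := by omega
    have h2 : r + k - l = m := by omega
    have h3 : 2 * (r + k) - r = r + 2 * k := by omega
    rw [h1, h2]
    rw [h3] at h
    have h4 : (r + k) * (r + k) = (r + k) * l + (r + k) * m := by
      rw [← mul_add, ← hm]
    nlinarith
  obtain ⟨A, B, hAc, hBc, hAB⟩ := comb n (n - r) (n - l) (Nat.sub_le _ _) hkm
  have hζ := Complex.isPrimitiveRoot_exp n hn
  set ζ : ℂ := Complex.exp (2 * Real.pi * Complex.I / n) with hζdef
  have hAc' : Fintype.card {a : Fin n // a ∉ A} = r := by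
    rw [Fintype.card_subtype_compl, Fintype.card_fin, Fintype.card_coe, hAc]
    omega
  have hBc' : Fintype.card {b : Fin n // b ∉ B} = r := by
    rw [Fintype.card_subtype_compl, Fintype.card_fin, Fintype.card_coe, hBc]
    omega
  let eA := Fintype.equivFinOfCardEq hAc'
  let eB := Fintype.equivFinOfCardEq hBc'
  let U : Fin n → Fin r → ℂ := fun i s => ζ ^ ((eA.symm s).1.val * i.val)
  let V : Fin r → Fin n → ℂ := fun s j => ζ ^ ((eB.symm s).1.val * j.val)
  refine ⟨(U, V), ?_⟩
  by_contra hne
  obtain ⟨f, hf0, hf⟩ := Submodule.exists_le_ker_of_lt_top _ (lt_top_iff_ne_top.2 hne)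
  have hfz : ∀ q, f ((phi_bilinear n l r).deriv (U, V) q) = 0 := by
    intro q
    have : (phi_bilinear n l r).deriv (U, V) q ∈ ((phi_bilinear n l r).deriv (U, V)).range := ⟨q, rfl⟩
    exact LinearMap.mem_ker.1 (hf this)
  let N : Fin n → Fin n → ℂ := fun i j =>
    if hij : ((j - i : Fin n) : ℕ) < l then f (Pi.single (⟨(i, j), hij⟩ : Obs n l) 1) else 0
  have hNsupp : ∀ i j : Fin n, ¬ ((j - i : Fin n) : ℕ) < l → N i j = 0 := by
    intro i j hij
    exact dif_neg hij
  have hfN : ∀ w : Fin n → Fin n → ℂ, f (fun e : Obs n l => w e.1.1 e.1.2) = ∑ i, ∑ j, w i j * N i j := by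
    intro w
    have h1 : (fun e : Obs n l => w e.1.1 e.1.2)
        = ∑ e : Obs n l, w e.1.1 e.1.2 • (Pi.single e (1 : ℂ) : Obs n l → ℂ) := by
      funext e
      rw [Finset.sum_apply, Finset.sum_eq_single e]
      · simp
      · intro b _ hb
        simp [hb.symm]
      · intro h
        exact absurd (mem_univ _) h
    rw [h1, map_sum]
    have h2 : ∀ e : Obs n l, f (w e.1.1 e.1.2 • (Pi.single e (1 : ℂ) : Obs n l → ℂ))
        = w e.1.1 e.1.2 * N e.1.1 e.1.2 := by
      intro e
      have h3 : N e.1.1 e.1.2 = f (Pi.single (⟨(e.1.1, e.1.2), e.2⟩ : Obs n l) 1) := dif_pos e.2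
      rw [map_smul, smul_eq_mul, h3]
    simp only [h2]
    rw [← Finset.sum_product' (univ : Finset (Fin n)) (univ : Finset (Fin n)) (fun i j => w i j * N i j)]
    rw [Finset.univ_product_univ]
    rw [← Finset.sum_subtype (p := fun p : Fin n × Fin n => ((p.2 - p.1 : Fin n) : ℕ) < l)
      (univ.filter (fun p : Fin n × Fin n => ((p.2 - p.1 : Fin n) : ℕ) < l)) (by simp)
      (fun p : Fin n × Fin n => w p.1 p.2 * N p.1 p.2)]
    apply Finset.sum_subset (Finset.filter_subset _ _)
    intro p _ hp
    rw [hNsupp p.1 p.2 (fun hlt => hp (Finset.mem_filter.2 ⟨mem_univ _, hlt⟩)), mul_zero]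
  -- orthogonality relations
  have horth : ∀ (dU : Fin n → Fin r → ℂ) (dV : Fin r → Fin n → ℂ),
      ∑ i, ∑ j, (∑ s, (U i s * dV s j + dU i s * V s j)) * N i j = 0 := by
    intro dU dV
    rw [← hfN (fun i j => ∑ s, (U i s * dV s j + dU i s * V s j))]
    have h1 := hfz (dU, dV)
    rw [IsBoundedBilinearMap.deriv_apply] at h1
    rw [← h1]
    congr 1
    funext e
    simp [phi, Finset.sum_add_distrib]
  have hA : ∀ a : Fin n, a ∉ A → ∀ j, ∑ i, N i j * ζ ^ (a.val * i.val) = 0 := by
    intro a ha j
    have h1 := horth 0 (fun s j' => if s = eA ⟨a, ha⟩ ∧ j' = j then 1 else 0)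
    have h2 : ∀ i j' : Fin n, (∑ s, (U i s * (if s = eA ⟨a, ha⟩ ∧ j' = j then 1 else 0)
        + (0 : Fin n → Fin r → ℂ) i s * V s j')) = if j' = j then ζ ^ (a.val * i.val) else 0 := by
      intro i j'
      rw [Finset.sum_eq_single (eA ⟨a, ha⟩)]
      · have h3 : U i (eA ⟨a, ha⟩) = ζ ^ (a.val * i.val) := by
          show ζ ^ ((eA.symm (eA ⟨a, ha⟩)).1.val * i.val) = _
          rw [Equiv.symm_apply_apply]
        rw [h3]
        by_cases hj : j' = j <;> simp [hj]
      · intro b _ hb
        simp [hb]
      · intro hne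
        exact absurd (mem_univ _) hne
    simp only [h2] at h1
    rw [← h1]
    apply Finset.sum_congr rfl
    intro i _
    rw [Finset.sum_eq_single j]
    · simp [mul_comm]
    · intro b _ hb
      simp [hb]
    · intro hne
      exact absurd (mem_univ _) hne
  have hB : ∀ b : Fin n, b ∉ B → ∀ i, ∑ j, N i j * ζ ^ (b.val * j.val) = 0 := by
    intro b hb i
    have h1 := horth (fun i' s => if i' = i ∧ s = eB ⟨b, hb⟩ then 1 else 0) 0
    have h2 : ∀ i' j : Fin n, (∑ s, (U i' s * (0 : Fin r → Fin n → ℂ) s j
        + (if i' = i ∧ s = eB ⟨b, hb⟩ then 1 else 0) * V s j)) = if i' = i then ζ ^ (b.val * j.val) else 0 := by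
      intro i' j
      rw [Finset.sum_eq_single (eB ⟨b, hb⟩)]
      · have h3 : V (eB ⟨b, hb⟩) j = ζ ^ (b.val * j.val) := by
          show ζ ^ ((eB.symm (eB ⟨b, hb⟩)).1.val * j.val) = _
          rw [Equiv.symm_apply_apply]
        rw [h3]
        by_cases hi : i' = i <;> simp [hi]
      · intro b' _ hb'
        simp [hb']
      · intro hne
        exact absurd (mem_univ _) hne
    simp only [h2] at h1
    rw [Finset.sum_eq_single i] at h1
    · rw [← h1]
      apply Finset.sum_congr rfl
      intro j _
      simp [mul_comm]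
    · intro i' _ hi'
      simp [hi']
    · intro hne
      exact absurd (mem_univ _) hne
  have hN0 := key n l (n - l) (by omega) ζ hζ A B hAB N hNsupp hA hB
  apply hf0
  apply LinearMap.pi_ext'
  intro e
  ext
  have h3 : N e.1.1 e.1.2 = f (Pi.single (⟨(e.1.1, e.1.2), e.2⟩ : Obs n l) 1) := dif_pos e.2
  rw [hN0] at h3
  simpa using h3.symm

/-- For the circulant pattern where entry (i,j) of an n×n matrix is observed iff j−i mod n < l: whenever r ≤ n and r(2n−r) ≥ nl, the observed entries of complex rank-≤r matrices are Zariski dense. -/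
theorem result :
    ∀ n l r : ℕ, 1 ≤ n → l ≤ n → r ≤ n → n * l ≤ r * (2 * n - r) →
      ∀ P : MvPolynomial {p : Fin n × Fin n // ((p.2 - p.1 : Fin n) : ℕ) < l} ℂ,
        (∀ M : Matrix (Fin n) (Fin n) ℂ, M.rank ≤ r →
          MvPolynomial.eval (fun e => M e.1.1 e.1.2) P = 0) → P = 0 := by
  intro n l r hn hl hr h P hP
  have : NeZero n := ⟨by omega⟩
  obtain ⟨p, hp⟩ := surj n l r hl hr h
  have hmap := (phi_bilinear n l r).hasStrictFDerivAt p |>.map_nhds_eq_of_surj hp
  have hrange : Set.range (phi n l r) ∈ nhds (phi n l r p) := by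
    rw [← hmap]
    exact Filter.range_mem_map
  obtain ⟨ε, hε, hball⟩ := Metric.mem_nhds_iff.1 hrange
  apply MvPolynomial.funext_set (fun e : Obs n l => Metric.ball (phi n l r p e) ε)
  · intro e
    exact infinite_of_mem_nhds _ (Metric.ball_mem_nhds _ hε)
  · intro x hx
    rw [← ball_pi _ hε] at hx
    obtain ⟨q, hq⟩ := hball hx
    rw [map_zero, ← hq]
    refine hP (Matrix.of (fun i s => q.1 i s) * Matrix.of (fun s j => q.2 s j)) ?_
    refine (Matrix.rank_mul_le_left _ _).trans ?_
    exact (Matrix.rank_le_width _)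

end Pool.Agent.S00315
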