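import Pool.Statements.S00986
import Pool.Agent.H5.CF.FIN
import Pool.Agent.H5.CF.ST
import Pool.Agent.H5.CF.Iface
import Pool.Agent.H5.CF.M6
import Pool.Agent.H5.CF.M7a
import Pool.Agent.H5.CF.M8
import Pool.Agent.H5.CF.SEL
import Pool.Agent.H95.CF.M1
import Pool.Agent.H90.CF.M2
import Pool.Agent.H90.CF.M2a
import Pool.Agent.H90.CF.M3
import Pool.Agent.H42.CF.M4
import Pool.Agent.H87.CF.M9
import Pool.Agent.H87.CF.M5e
import Pool.Agent.H87.CF.M5l
import Pool.Agent.H15.CF.M5ab
import Pool.Agent.H15.CF.M7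
import Pool.Agent.H15.CF.M7bc

set_option autoImplicit false
open Pool Pool.MP_268cdb_al

namespace Pool.Agent.S00986

/-- The negation of the preceding statement: For all groups G and H, if each has a finite monoid generating set whose words not equal to the identity form a context-free language, then the free product of G and H also has such a generating set. -/
theorem result :
    ¬ (∀ (G H : Type) [Group G] [Group H],
      (∃ (n : ℕ) (f : Fin n → G), Submonoid.closure (Set.range f) = ⊤ ∧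
        Language.IsContextFree
          (setOf (fun w : List (Fin n) => (w.map f).prod ≠ 1) : Language (Fin n))) →
      (∃ (n : ℕ) (f : Fin n → H), Submonoid.closure (Set.range f) = ⊤ ∧
        Language.IsContextFree
          (setOf (fun w : List (Fin n) => (w.map f).prod ≠ 1) : Language (Fin n))) →
      (∃ (n : ℕ) (f : Fin n → Monoid.Coprod G H), Submonoid.closure (Set.range f) = ⊤ ∧
        Language.IsContextFree
          (setOf (fun w : List (Fin n) => (w.map f).prod ≠ 1) : Language (Fin n)))) := by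
  intro h
  have hM4 : Pool.Agent.H5.CF.TargetM4 :=
    Pool.Agent.H42.CF.M4_of Pool.Agent.H5.CF.M2a_holds Pool.Agent.H42.CF.M4a_holds
      Pool.Agent.H42.CF.M4b_holds
  have hFIN : Pool.Agent.H5.CF.TargetFIN :=
    Pool.Agent.H5.CF.FIN_of
      (Pool.Agent.H5.CF.ST_of Pool.Agent.H95.CF.M1_holds Pool.Agent.H5.CF.M2_holds
        Pool.Agent.H5.CF.M3_holds)
      (Pool.Agent.H5.CF.IA_of Pool.Agent.H5.CF.M6_holds
        (Pool.Agent.H15.CF.m7 Pool.Agent.H5.CF.M7a_holds Pool.Agent.H15.CF.m7b Pool.Agent.H15.CF.m7c)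
        Pool.Agent.H5.CF.SEL_holds)
      (Pool.Agent.H5.CF.IB_of Pool.Agent.H5.CF.M6_holds Pool.Agent.H5.CF.M8_holds)
      Pool.Agent.H87.CF.M9_holds
      (Pool.Agent.H15.CF.m5a Pool.Agent.H87.CF.M5e_holds Pool.Agent.H87.CF.M5l_holds)
      (Pool.Agent.H15.CF.m5b Pool.Agent.H87.CF.M5e_holds Pool.Agent.H87.CF.M5l_holds)
      (Pool.Agent.H15.CF.m5c Pool.Agent.H87.CF.M5e_holds Pool.Agent.H87.CF.M5l_holds)
  exact hFIN (h Pool.Agent.H5.CF.L Pool.Agent.H5.CF.L hM4 hM4)

end Pool.Agent.S00986
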