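import Pool.Statements.S01333
import Pool.Agent.H9.Final

set_option autoImplicit false
open Pool Pool.MP_43f46b_al

namespace Pool.Agent.S01333

/-- For every prime p, every finitely generated pro-p group whose numbers dim I^n/I^(n+1) (I the augmentation ideal of its completed F_p-group algebra) grow exponentially contains two elements generating a closed free pro-p subgroup of rank 2. -/
theorem result :
  ∀ (p : ℕ), p.Prime →
  ∀ (G : Type) [Group G] [TopologicalSpace G] [IsTopologicalGroup G] [CompactSpace G]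
    [T2Space G] [TotallyDisconnectedSpace G],
    (∀ N : Subgroup G, N.Normal → IsOpen (N : Set G) → ∃ k : ℕ, N.index = p ^ k) →
    (∃ s : Finset G, Dense ((Subgroup.closure (s : Set G) : Subgroup G) : Set G)) →
    (∃ r : ℝ, 1 < r ∧ ∀ᶠ n : ℕ in Filter.atTop,
      ∃ (N : Subgroup G) (hN : N.Normal), IsOpen (N : Set G) ∧
        r ^ n + ((Module.finrank (ZMod p)
          ↥((Submodule.span (ZMod p) (Set.range fun g : G ⧸ N =>
              (MonoidAlgebra.single g (1 : ZMod p) - 1 : MonoidAlgebra (ZMod p) (G ⧸ N)))) ^ (n + 1)) : ℕ) : ℝ)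
        ≤ ((Module.finrank (ZMod p)
          ↥((Submodule.span (ZMod p) (Set.range fun g : G ⧸ N =>
              (MonoidAlgebra.single g (1 : ZMod p) - 1 : MonoidAlgebra (ZMod p) (G ⧸ N)))) ^ n) : ℕ) : ℝ)) →
    ∃ x y : G, ∀ (P : Type) [Group P] [Finite P], IsPGroup p P → ∀ a b : P,
      ∃ f : ↥((Subgroup.closure ({x, y} : Set G)).topologicalClosure) →* P,
        IsOpen ((f.ker : Set ↥((Subgroup.closure ({x, y} : Set G)).topologicalClosure))) ∧
        (∀ h : ↥((Subgroup.closure ({x, y} : Set G)).topologicalClosure), (h : G) = x → f h = a) ∧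
        (∀ h : ↥((Subgroup.closure ({x, y} : Set G)).topologicalClosure), (h : G) = y → f h = b) := by
  intro p hp G _ _ _ _ _ _ _ hgen hgrow
  have hfact : Fact p.Prime := ⟨hp⟩
  obtain ⟨s, hs⟩ := hgen
  obtain ⟨r, hr, hgr⟩ := hgrow
  let x : Fin s.card → G := fun i => ((s.equivFin.symm i : s) : G)
  have hrange : Set.range x = (s : Set G) := by
    ext g
    constructor
    · rintro ⟨i, rfl⟩
      exact (s.equivFin.symm i).2
    · intro hg
      exact ⟨s.equivFin ⟨g, hg⟩, by simp [x]⟩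
  have hx : Dense ((Subgroup.closure (Set.range x) : Subgroup G) : Set G) := by
    rw [hrange]; exact hs
  have hJ := Pool.Agent.H9.isFilt_JJ (k := ZMod p) (G := G)
  have hopen := Pool.Agent.H9.Dsub_open (k := ZMod p) x hx
  have hgrowth : ∀ᶠ n in Filter.atTop, r ^ n ≤
      (Pool.Agent.H9.cnt {U | Pool.Agent.H9.wd (Pool.Agent.H9.vv (ZMod p) x) U ∉
        Pool.Agent.H9.Gt (Pool.Agent.H9.JJ (ZMod p) G) (Pool.Agent.H9.vv (ZMod p) x) U} n : ℝ) := by
    filter_upwards [hgr, Filter.eventually_ge_atTop 1] with n hn hn1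
    obtain ⟨N, hN, hNo, h⟩ := hn
    have h1 := Pool.Agent.H9.finrank_le (k := ZMod p) x hx ⟨N, hN, hNo⟩ hn1
    have h2 : ((Module.finrank (ZMod p)
        ↥((Submodule.span (ZMod p) (Set.range fun g : G ⧸ N =>
          (MonoidAlgebra.single g (1 : ZMod p) - 1 : MonoidAlgebra (ZMod p) (G ⧸ N)))) ^ n) : ℕ) : ℝ)
        ≤ ((Module.finrank (ZMod p)
        ↥((Submodule.span (ZMod p) (Set.range fun g : G ⧸ N =>
          (MonoidAlgebra.single g (1 : ZMod p) - 1 :
            MonoidAlgebra (ZMod p) (G ⧸ N)))) ^ (n + 1)) : ℕ) : ℝ) +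
        (Pool.Agent.H9.cnt {U | Pool.Agent.H9.wd (Pool.Agent.H9.vv (ZMod p) x) U ∉
          Pool.Agent.H9.Gt (Pool.Agent.H9.JJ (ZMod p) G) (Pool.Agent.H9.vv (ZMod p) x) U} n : ℝ) := by
      exact_mod_cast h1
    linarith
  obtain ⟨M, hM, z, hz, hfree⟩ := Pool.Agent.H9.main_abs hJ (MonoidAlgebra.of (ZMod p) G)
    (v := Pool.Agent.H9.vv (ZMod p) x) (Pool.Agent.H9.vv_mem x) (x := x) (fun _ => rfl) hopen hr
    hgrowth
  exact ⟨z.1, z.2, fun P _ _ hP a b =>
    Pool.Agent.H9.final_hom hJ _ hopen hM z hz hfree P hP a b⟩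

end Pool.Agent.S01333
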