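import Pool.Statements.S01736

set_option autoImplicit false
open Pool Pool.MP_65d788_al

namespace Pool.Agent.S01736

/-! The counterexample: `G = GL₆(23)`, `H` = the group of monomial matrices whose nonzero entries are
11th roots of unity and whose permutation is a power of a 5-cycle. -/

theorem prime23 : Nat.Prime 23 := by norm_num

instance : Fact (Nat.Prime 23) := ⟨prime23⟩

/-- The 5-cycle on `{0, ..., 5}` fixing `5`. -/
def σ : Equiv.Perm (Fin 6) :=
  ⟨![1, 2, 3, 4, 0, 5], ![4, 0, 1, 2, 3, 5], by decide, by decide⟩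

/-- Monomial matrix. -/
def M (τ : Equiv.Perm (Fin 6)) (d : Fin 6 → ZMod 23) : Matrix (Fin 6) (Fin 6) (ZMod 23) :=
  fun i j => if j = τ i then d i else 0

theorem M_apply (τ : Equiv.Perm (Fin 6)) (d : Fin 6 → ZMod 23) (i j : Fin 6) :
    M τ d i j = if j = τ i then d i else 0 := rfl

theorem M_mul (τ ρ : Equiv.Perm (Fin 6)) (d e : Fin 6 → ZMod 23) :
    M τ d * M ρ e = M (ρ * τ) (fun i => d i * e (τ i)) := by
  ext i j
  rw [Matrix.mul_apply, Finset.sum_eq_single (τ i)]
  · by_cases h : j = ρ (τ i) <;> simp [M_apply, Equiv.Perm.mul_apply, h]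
  · intro b _ hb
    simp only [M_apply, if_neg hb, zero_mul]
  · intro h
    exact absurd (Finset.mem_univ _) h

theorem M_one : M 1 1 = 1 := by
  ext i j
  simp only [M_apply, Matrix.one_apply, Equiv.Perm.one_apply, Pi.one_apply]
  congr 1
  exact propext eq_comm

theorem mul_M_one (A : Matrix (Fin 6) (Fin 6) (ZMod 23)) (d : Fin 6 → ZMod 23) (i j : Fin 6) :
    (A * M 1 d) i j = A i j * d j := by
  rw [Matrix.mul_apply, Finset.sum_eq_single j]
  · simp [M_apply]
  · intro b _ hb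
    simp [M_apply, Ne.symm hb]
  · intro h
    exact absurd (Finset.mem_univ _) h

theorem M_one_mul (A : Matrix (Fin 6) (Fin 6) (ZMod 23)) (d : Fin 6 → ZMod 23) (i j : Fin 6) :
    (M 1 d * A) i j = d i * A i j := by
  rw [Matrix.mul_apply, Finset.sum_eq_single i]
  · simp [M_apply]
  · intro b _ hb
    simp [M_apply, hb]
  · intro h
    exact absurd (Finset.mem_univ _) h

theorem M_eq {τ ρ : Equiv.Perm (Fin 6)} {d e : Fin 6 → ZMod 23} (hd : ∀ i, d i ≠ 0)
    (h : M τ d = M ρ e) : τ = ρ ∧ d = e := by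
  have h1 : ∀ i, τ i = ρ i := by
    intro i
    by_contra hne
    have := congrFun (congrFun h i) (τ i)
    simp only [M_apply, if_true, if_neg hne] at this
    exact hd i this
  have h2 : τ = ρ := Equiv.ext h1
  refine ⟨h2, ?_⟩
  funext i
  have := congrFun (congrFun h i) (τ i)
  simpa [M_apply, h2] using this

theorem ne_zero_of_pow {a : ZMod 23} (h : a ^ 11 = 1) : a ≠ 0 := by
  rintro rfl
  rw [zero_pow (by norm_num)] at h
  exact zero_ne_one h

/-- The ambient group. -/
abbrev GG := Matrix.GeneralLinearGroup (Fin 6) (ZMod 23)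

/-- In a finite group a subset closed under products that contains one is closed under inverses. -/
theorem inv_mem_of_closed (P : GG → Prop) (h1 : P 1) (hm : ∀ a b, P a → P b → P (a * b)) (a : GG)
    (ha : P a) : P a⁻¹ := by
  have hp : ∀ n : ℕ, P (a ^ n) := by
    intro n
    induction n with
    | zero => simpa using h1
    | succ n ih => rw [pow_succ]; exact hm _ _ ih ha
  have hz : a⁻¹ ∈ Submonoid.powers a :=
    mem_powers_iff_mem_zpowers.2 (Subgroup.inv_mem _ (Subgroup.mem_zpowers a))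
  obtain ⟨n, hn⟩ := hz
  have hn' : a ^ n = a⁻¹ := hn
  rw [← hn']
  exact hp n

/-- The Hall subgroup. -/
def H : Subgroup GG where
  carrier := {m | ∃ k : ℕ, ∃ d : Fin 6 → ZMod 23, (∀ i, d i ^ 11 = 1) ∧ m.val = M (σ ^ k) d}
  mul_mem' := by
    rintro a b ⟨k, d, hd, ha⟩ ⟨l, e, he, hb⟩
    refine ⟨l + k, fun i => d i * e ((σ ^ k) i), fun i => ?_, ?_⟩
    · rw [mul_pow, hd, he, one_mul]
    · rw [Units.val_mul, ha, hb, M_mul, pow_add]
  one_mem' := ⟨0, 1, fun i => by simp, by rw [Units.val_one, pow_zero, M_one]⟩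
  inv_mem' := by
    intro a ha
    refine inv_mem_of_closed
      (fun m => ∃ k : ℕ, ∃ d : Fin 6 → ZMod 23, (∀ i, d i ^ 11 = 1) ∧ m.val = M (σ ^ k) d)
      ⟨0, 1, fun i => by simp, by rw [Units.val_one, pow_zero, M_one]⟩ ?_ a ha
    rintro a b ⟨k, d, hd, ha⟩ ⟨l, e, he, hb⟩
    refine ⟨l + k, fun i => d i * e ((σ ^ k) i), fun i => ?_, ?_⟩
    · rw [mul_pow, hd, he, one_mul]
    · rw [Units.val_mul, ha, hb, M_mul, pow_add]

theorem mem_H {m : GG} : m ∈ H ↔
    ∃ k : ℕ, ∃ d : Fin 6 → ZMod 23, (∀ i, d i ^ 11 = 1) ∧ m.val = M (σ ^ k) d := Iff.rfl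

/-- The diagonal part. -/
def T : Subgroup GG where
  carrier := {m | ∃ d : Fin 6 → ZMod 23, (∀ i, d i ^ 11 = 1) ∧ m.val = M 1 d}
  mul_mem' := by
    rintro a b ⟨d, hd, ha⟩ ⟨e, he, hb⟩
    refine ⟨fun i => d i * e ((1 : Equiv.Perm (Fin 6)) i), fun i => ?_, ?_⟩
    · rw [mul_pow, hd, he, one_mul]
    · rw [Units.val_mul, ha, hb, M_mul, one_mul]
  one_mem' := ⟨1, fun i => by simp, by rw [Units.val_one, M_one]⟩
  inv_mem' := by
    intro a ha
    refine inv_mem_of_closed
      (fun m => ∃ d : Fin 6 → ZMod 23, (∀ i, d i ^ 11 = 1) ∧ m.val = M 1 d)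
      ⟨1, fun i => by simp, by rw [Units.val_one, M_one]⟩ ?_ a ha
    rintro a b ⟨d, hd, ha⟩ ⟨e, he, hb⟩
    refine ⟨fun i => d i * e ((1 : Equiv.Perm (Fin 6)) i), fun i => ?_, ?_⟩
    · rw [mul_pow, hd, he, one_mul]
    · rw [Units.val_mul, ha, hb, M_mul, one_mul]

theorem mem_T {m : GG} : m ∈ T ↔ ∃ d : Fin 6 → ZMod 23, (∀ i, d i ^ 11 = 1) ∧ m.val = M 1 d :=
  Iff.rfl

theorem T_le_H : T ≤ H := by
  rintro m ⟨d, hd, hm⟩
  exact ⟨0, d, hd, by rw [pow_zero]; exact hm⟩

/-- An 11th root of unity. -/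
abbrev Mu := {x : ZMod 23 // x ^ 11 = 1}

theorem card_Mu : Nat.card Mu = 11 := by
  rw [Nat.card_eq_fintype_card]
  decide +kernel

theorem sigma_pow_five : σ ^ 5 = 1 := by decide +kernel

theorem sigma_pow_mod (k : ℕ) : σ ^ k = σ ^ (k % 5) := by
  conv_lhs => rw [← Nat.div_add_mod k 5, pow_add, pow_mul, sigma_pow_five, one_pow, one_mul]

theorem sigma_inj : ∀ k l : Fin 5, σ ^ k.val = σ ^ l.val → k = l := by decide +kernel

/-- A monomial matrix with 11th roots of unity as a group element. -/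
noncomputable def mkG (τ : Equiv.Perm (Fin 6)) (d : Fin 6 → ZMod 23) (hd : ∀ i, d i ^ 11 = 1) : GG :=
  ⟨M τ d, M τ⁻¹ (fun i => (d (τ⁻¹ i))⁻¹), by
      rw [M_mul, ← M_one]
      congr 1
      · simp
      · funext i
        have := ne_zero_of_pow (hd i)
        simp [this], by
      rw [M_mul, ← M_one]
      congr 1
      · simp
      · funext i
        exact inv_mul_cancel₀ (ne_zero_of_pow (hd (τ⁻¹ i)))⟩

theorem mkG_val (τ : Equiv.Perm (Fin 6)) (d : Fin 6 → ZMod 23) (hd : ∀ i, d i ^ 11 = 1) :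
    (mkG τ d hd).val = M τ d := rfl

theorem card_H : Nat.card H = 5 * 11 ^ 6 := by
  have hbij : Function.Bijective (fun x : Fin 5 × (Fin 6 → Mu) =>
      (⟨mkG (σ ^ x.1.val) (fun i => (x.2 i).1) (fun i => (x.2 i).2),
        ⟨x.1.val, fun i => (x.2 i).1, fun i => (x.2 i).2, rfl⟩⟩ : H)) := by
    constructor
    · rintro ⟨k, d⟩ ⟨l, e⟩ h
      have h1 : M (σ ^ k.val) (fun i => (d i).1) = M (σ ^ l.val) (fun i => (e i).1) :=
        congrArg (fun x : H => x.1.val) h
      obtain ⟨h2, h3⟩ := M_eq (fun i => ne_zero_of_pow (d i).2) h1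
      have h4 := sigma_inj _ _ h2
      subst h4
      have : d = e := by
        funext i
        exact Subtype.ext (congrFun h3 i)
      rw [this]
    · rintro ⟨m, k, d, hd, hm⟩
      refine ⟨(⟨k % 5, Nat.mod_lt _ (by norm_num)⟩, fun i => ⟨d i, hd i⟩), ?_⟩
      apply Subtype.ext
      apply Units.ext
      rw [hm, mkG_val, sigma_pow_mod k]
  have := Nat.card_eq_of_bijective _ hbij
  rw [← this, Nat.card_prod, Nat.card_fun, card_Mu]
  simp

theorem card_T : Nat.card T = 11 ^ 6 := by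
  have hbij : Function.Bijective (fun x : Fin 6 → Mu =>
      (⟨mkG 1 (fun i => (x i).1) (fun i => (x i).2),
        ⟨fun i => (x i).1, fun i => (x i).2, rfl⟩⟩ : T)) := by
    constructor
    · intro d e h
      have h1 : M 1 (fun i => (d i).1) = M 1 (fun i => (e i).1) :=
        congrArg (fun x : T => x.1.val) h
      obtain ⟨-, h3⟩ := M_eq (fun i => ne_zero_of_pow (d i).2) h1
      funext i
      exact Subtype.ext (congrFun h3 i)
    · rintro ⟨m, d, hd, hm⟩
      refine ⟨fun i => ⟨d i, hd i⟩, ?_⟩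
      apply Subtype.ext
      apply Units.ext
      rw [hm, mkG_val]
  have := Nat.card_eq_of_bijective _ hbij
  rw [← this, Nat.card_fun, card_Mu]
  simp

theorem card_GG : Nat.card GG = ∏ i : Fin 6, (23 ^ 6 - 23 ^ (i : ℕ)) := by
  rw [Matrix.card_GL_field, ZMod.card]

theorem coprime_index : Nat.Coprime (Nat.card H) H.index := by
  have h1 := H.index_mul_card
  rw [card_GG, card_H] at h1
  have h2 : H.index = 1134257757952297203169683414426021156028416 := by
    apply Nat.eq_of_mul_eq_mul_right (show 0 < 5 * 11 ^ 6 by norm_num)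
    rw [h1]
    simp only [Fin.prod_univ_six]
    norm_num
  rw [card_H, h2]
  norm_num

theorem fact11 : (Nat.card H).factorization 11 = 6 := by
  rw [card_H, Nat.factorization_mul (by norm_num) (by norm_num), Nat.factorization_pow]
  simp only [Finsupp.add_apply, Finsupp.smul_apply]
  rw [Nat.Prime.factorization_self (by norm_num : Nat.Prime 11), Nat.factorization_eq_zero_of_not_dvd (by norm_num)]
  norm_num

theorem fact5 : (Nat.card H).factorization 5 = 1 := by
  rw [card_H, Nat.factorization_mul (by norm_num) (by norm_num), Nat.factorization_pow]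
  simp only [Finsupp.add_apply, Finsupp.smul_apply]
  rw [Nat.Prime.factorization_self (by norm_num : Nat.Prime 5),
    Nat.factorization_eq_zero_of_not_dvd (p := 5) (n := 11) (by norm_num)]
  norm_num

theorem T_normal : (T.subgroupOf H).Normal := by
  constructor
  rintro ⟨t, htH⟩ ht ⟨h, hh⟩
  rw [Subgroup.mem_subgroupOf] at ht ⊢
  obtain ⟨e, he, hte⟩ := ht
  obtain ⟨k, d, hd, hm⟩ := hh
  simp only at hte
  refine ⟨fun i => e ((σ ^ k) i), fun i => he _, ?_⟩
  have h1 : (h * t).val = M 1 (fun i => e ((σ ^ k) i)) * h.val := by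
    rw [Units.val_mul, hte, hm, M_mul, M_mul, one_mul, mul_one]
    congr 1
    funext i
    rw [Equiv.Perm.one_apply, mul_comm]
  change (h * t * h⁻¹).val = _
  rw [Units.val_mul, h1, mul_assoc, ← Units.val_mul, mul_inv_cancel, Units.val_one, mul_one]

theorem tower : ∃ (n : ℕ) (N : ℕ → Subgroup H), N 0 = ⊥ ∧ N n = ⊤ ∧
        (∀ i, i < n → N i ≤ N (i + 1) ∧ (N (i + 1)).Normal ∧
          ∃ p : ℕ, p.Prime ∧
            Nat.card (N (i + 1)) = Nat.card (N i) * p ^ (Nat.card H).factorization p) := by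
  refine ⟨2, fun i => if i = 0 then ⊥ else if i = 1 then T.subgroupOf H else ⊤, ?_, ?_, ?_⟩
  · simp
  · simp
  · have hcT : Nat.card (T.subgroupOf H) = 11 ^ 6 := by
      rw [← card_T]
      exact Nat.card_congr (Subgroup.subgroupOfEquivOfLe T_le_H).toEquiv
    intro i hi
    interval_cases i
    · simp only [zero_add, if_true, one_ne_zero, if_false]
      refine ⟨bot_le, T_normal, 11, by norm_num, ?_⟩
      rw [hcT, fact11, Subgroup.card_bot, one_mul]
    · simp only [one_ne_zero, if_false, if_true, show (1 + 1 : ℕ) ≠ 0 by norm_num,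
        show (1 + 1 : ℕ) ≠ 1 by norm_num]
      refine ⟨le_top, inferInstance, 5, by norm_num, ?_⟩
      rw [Subgroup.card_top, hcT, fact5, card_H]
      norm_num

/-- The 5-cycle as a group element. -/
noncomputable def y : GG := mkG σ 1 (fun _ => by simp)

/-- `diag(1,1,1,1,1,2)`, of order 11. -/
noncomputable def d0 : GG := mkG 1 ![1, 1, 1, 1, 1, 2] (by decide +kernel)

theorem y_mem : y ∈ H := ⟨1, 1, fun _ => by simp, by rw [pow_one]; rfl⟩

theorem d0_mem : d0 ∈ H := ⟨0, ![1, 1, 1, 1, 1, 2], by decide +kernel, by rw [pow_zero]; rfl⟩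

/-- The matrix of the conjugating element: an involution commuting with `y`. -/
def gm : Matrix (Fin 6) (Fin 6) (ZMod 23) :=
  !![10, 9, 9, 9, 9, 1; 9, 10, 9, 9, 9, 1; 9, 9, 10, 9, 9, 1; 9, 9, 9, 10, 9, 1;
     9, 9, 9, 9, 10, 1; 14, 14, 14, 14, 14, 0]

theorem gm_sq : gm * gm = 1 := by decide +kernel

/-- The conjugating element. -/
def g : GG := ⟨gm, gm, gm_sq, gm_sq⟩

theorem g_y : g * y = y * g := by
  apply Units.ext
  change gm * M σ 1 = M σ 1 * gm
  decide +kernel

/-- The conjugate of `d0`. -/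
def d1m : Matrix (Fin 6) (Fin 6) (ZMod 23) :=
  !![15, 14, 14, 14, 14, 0; 14, 15, 14, 14, 14, 0; 14, 14, 15, 14, 14, 0; 14, 14, 14, 15, 14, 0;
     14, 14, 14, 14, 15, 0; 0, 0, 0, 0, 0, 1]

theorem conj_d0 : (g * d0 * g⁻¹).val = d1m := by
  change gm * M 1 ![1, 1, 1, 1, 1, 2] * gm = d1m
  decide +kernel

theorem M_pow (τ : Equiv.Perm (Fin 6)) (d : Fin 6 → ZMod 23) (hd : ∀ i, d i ≠ 0) (n : ℕ) :
    ∃ e : Fin 6 → ZMod 23, (∀ i, e i ≠ 0) ∧ (M τ d) ^ n = M (τ ^ n) e := by
  induction n with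
  | zero => exact ⟨1, fun i => one_ne_zero, by rw [pow_zero, pow_zero, M_one]⟩
  | succ n ih =>
    obtain ⟨e, he, hM⟩ := ih
    refine ⟨fun i => e i * d ((τ ^ n) i), fun i => mul_ne_zero (he i) (hd _), ?_⟩
    rw [pow_succ, hM, M_mul, ← pow_succ']

theorem perm_of_pow_eleven {τ : Equiv.Perm (Fin 6)} {d : Fin 6 → ZMod 23} (hd : ∀ i, d i ≠ 0)
    (h : (M τ d) ^ 11 = 1) : τ ^ 11 = 1 := by
  obtain ⟨e, he, hM⟩ := M_pow τ d hd 11
  rw [h, ← M_one] at hM
  exact (M_eq (fun i => one_ne_zero) hM).1.symm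

theorem sigma_pow_eleven (k : ℕ) (h : (σ ^ k) ^ 11 = 1) : σ ^ k = 1 := by
  have h5 : (σ ^ k) ^ 5 = 1 := by rw [← pow_mul, mul_comm, pow_mul, sigma_pow_five, one_pow]
  have h11 : (σ ^ k) ^ 11 = (σ ^ k) ^ (5 * 2) * σ ^ k := pow_succ _ 10
  rw [h11, pow_mul, h5, one_pow, one_mul] at h
  exact h

theorem z_inv : ∀ (k : Fin 5) (i : Fin 6),
    (![1, 1, 1, 1, 1, 2] : Fin 6 → ZMod 23) ((σ ^ k.val) i) =
      (![1, 1, 1, 1, 1, 2] : Fin 6 → ZMod 23) i := by
  decide +kernel

theorem H_le : H ≤ Subgroup.centralizer {d0} := by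
  rintro m ⟨k, d, hd, hm⟩
  rw [Subgroup.mem_centralizer_singleton_iff]
  apply Units.ext
  rw [Units.val_mul, Units.val_mul, hm]
  change M (σ ^ k) d * M 1 ![1, 1, 1, 1, 1, 2] = M 1 ![1, 1, 1, 1, 1, 2] * M (σ ^ k) d
  rw [M_mul, M_mul, one_mul, mul_one]
  congr 1
  funext i
  rw [Equiv.Perm.one_apply, mul_comm]
  congr 1
  have := z_inv ⟨k % 5, Nat.mod_lt _ (by norm_num)⟩ i
  rw [sigma_pow_mod k]
  exact this

theorem sigma_gen : ∀ l : Fin 5, l ≠ 0 → ∃ n : Fin 5, (σ ^ l.val) ^ n.val = σ := by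
  decide +kernel

theorem d0_pow : d0 ^ 11 = 1 := by
  apply Units.ext
  rw [Units.val_pow_eq_pow_val]
  change (M 1 ![1, 1, 1, 1, 1, 2]) ^ 11 = 1
  have h : ∀ n : ℕ, (M 1 ![1, 1, 1, 1, 1, 2]) ^ n =
      M 1 (fun i => (![1, 1, 1, 1, 1, 2] : Fin 6 → ZMod 23) i ^ n) := by
    intro n
    induction n with
    | zero =>
      rw [pow_zero, ← M_one]
      congr 1
    | succ n ih =>
      rw [pow_succ, ih, M_mul, one_mul]
      congr 1
  rw [h, ← M_one]
  congr 1
  decide +kernel

theorem result :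
    ¬ (∀ (G : Type) [Group G] [Finite G] (H : Subgroup G),
      Nat.Coprime (Nat.card H) H.index →
      (∃ (n : ℕ) (N : ℕ → Subgroup H), N 0 = ⊥ ∧ N n = ⊤ ∧
        (∀ i, i < n → N i ≤ N (i + 1) ∧ (N (i + 1)).Normal ∧
          ∃ p : ℕ, p.Prime ∧
            Nat.card (N (i + 1)) = Nat.card (N i) * p ^ (Nat.card H).factorization p)) →
      ∀ K : Subgroup G, K ≤ H → ∀ g : G,
        ∃ x ∈ H ⊔ K.map (MulAut.conj g).toMonoidHom,
          K.map (MulAut.conj (x * g)).toMonoidHom ≤ H) := by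
  intro h
  obtain ⟨x, hx, hK⟩ := h GG H coprime_index tower (Subgroup.closure {d0, y})
    ((Subgroup.closure_le _).2 (by
      rintro a (rfl | rfl)
      · exact d0_mem
      · exact y_mem)) g
  have hgy : g * y * g⁻¹ = y := by rw [g_y, mul_inv_cancel_right]
  -- everything commutes with `d0`
  have hcent : H ⊔ (Subgroup.closure {d0, y}).map (MulAut.conj g).toMonoidHom ≤
      Subgroup.centralizer {d0} := by
    refine sup_le H_le ?_
    rw [Subgroup.map_le_iff_le_comap, Subgroup.closure_le]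
    rintro a (rfl | rfl)
    · change g * d0 * g⁻¹ ∈ Subgroup.centralizer {d0}
      rw [Subgroup.mem_centralizer_singleton_iff]
      apply Units.ext
      rw [Units.val_mul (g * d0 * g⁻¹) d0, Units.val_mul d0 (g * d0 * g⁻¹), conj_d0]
      change d1m * M 1 ![1, 1, 1, 1, 1, 2] = M 1 ![1, 1, 1, 1, 1, 2] * d1m
      decide +kernel
    · change g * y * g⁻¹ ∈ Subgroup.centralizer {d0}
      rw [hgy]
      exact H_le y_mem
  have hxc := hcent hx
  rw [Subgroup.mem_centralizer_singleton_iff] at hxc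
  -- the two conjugates
  have h1 : x * (g * d0 * g⁻¹) * x⁻¹ ∈ H := by
    have : (MulAut.conj (x * g)) d0 ∈ H :=
      hK ⟨d0, Subgroup.subset_closure (by simp), rfl⟩
    rw [MulAut.conj_apply] at this
    have e : x * g * d0 * (x * g)⁻¹ = x * (g * d0 * g⁻¹) * x⁻¹ := by group
    rwa [e] at this
  have h2 : x * y * x⁻¹ ∈ H := by
    have : (MulAut.conj (x * g)) y ∈ H :=
      hK ⟨y, Subgroup.subset_closure (by simp), rfl⟩
    rw [MulAut.conj_apply] at this
    have e : x * g * y * (x * g)⁻¹ = x * (g * y * g⁻¹) * x⁻¹ := by group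
    rwa [e, hgy] at this
  obtain ⟨k, d, hd, hkd⟩ := h1
  obtain ⟨l, e, he, hle⟩ := h2
  have hd0 : ∀ i, d i ≠ 0 := fun i => ne_zero_of_pow (hd i)
  have he0 : ∀ i, e i ≠ 0 := fun i => ne_zero_of_pow (he i)
  -- the first is diagonal
  have hk1 : σ ^ k = 1 := by
    apply sigma_pow_eleven
    apply perm_of_pow_eleven hd0
    rw [← hkd, ← Units.val_pow_eq_pow_val]
    have : (x * (g * d0 * g⁻¹) * x⁻¹) ^ 11 = 1 := by
      rw [conj_pow, conj_pow, d0_pow]
      group
    rw [this, Units.val_one]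
  rw [hk1] at hkd
  -- the second is not
  have hl1 : σ ^ l ≠ 1 := by
    intro hl1
    rw [hl1] at hle
    have hp : ∀ n : ℕ, (M 1 e) ^ n = M 1 (fun i => e i ^ n) := by
      intro n
      induction n with
      | zero =>
        rw [pow_zero, ← M_one]
        congr 1
      | succ n ih =>
        rw [pow_succ, ih, M_mul, one_mul]
        congr 1
    have h11 : (x * y * x⁻¹) ^ 11 = 1 := by
      apply Units.ext
      rw [Units.val_pow_eq_pow_val, hle, hp, Units.val_one, ← M_one]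
      congr 1
      funext i
      exact he i
    rw [conj_pow] at h11
    have hy11 : y ^ 11 = 1 := by
      have := congrArg (fun u => x⁻¹ * u * x) h11
      simpa [mul_assoc] using this
    have : σ ^ 11 = 1 := by
      apply perm_of_pow_eleven (d := 1) (fun i => one_ne_zero)
      have := congrArg Units.val hy11
      rw [Units.val_pow_eq_pow_val, Units.val_one] at this
      exact this
    revert this
    decide +kernel
  -- commuting
  have hcomm : (x * (g * d0 * g⁻¹) * x⁻¹) * (x * y * x⁻¹) =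
      (x * y * x⁻¹) * (x * (g * d0 * g⁻¹) * x⁻¹) := by
    have hdy : (g * d0 * g⁻¹) * y = y * (g * d0 * g⁻¹) := by
      have h3 : d0 * y = y * d0 := by
        have := H_le y_mem
        rw [Subgroup.mem_centralizer_singleton_iff] at this
        exact this.symm
      calc (g * d0 * g⁻¹) * y = (g * d0 * g⁻¹) * (g * y * g⁻¹) := by rw [hgy]
        _ = g * (d0 * y) * g⁻¹ := by group
        _ = g * (y * d0) * g⁻¹ := by rw [h3]
        _ = (g * y * g⁻¹) * (g * d0 * g⁻¹) := by group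
        _ = y * (g * d0 * g⁻¹) := by rw [hgy]
    calc (x * (g * d0 * g⁻¹) * x⁻¹) * (x * y * x⁻¹) = x * ((g * d0 * g⁻¹) * y) * x⁻¹ := by group
      _ = x * (y * (g * d0 * g⁻¹)) * x⁻¹ := by rw [hdy]
      _ = _ := by group
  have hinv : ∀ i, d i = d ((σ ^ l) i) := by
    have h3 := congrArg Units.val hcomm
    rw [Units.val_mul (x * (g * d0 * g⁻¹) * x⁻¹) (x * y * x⁻¹),
      Units.val_mul (x * y * x⁻¹) (x * (g * d0 * g⁻¹) * x⁻¹), hkd, hle, M_mul, M_mul,
      one_mul, mul_one] at h3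
    have h4 := (M_eq (fun i => mul_ne_zero (hd0 i) (he0 _)) h3).2
    intro i
    have h5 := congrFun h4 i
    simp only [Equiv.Perm.one_apply] at h5
    rw [mul_comm (e i)] at h5
    exact mul_right_cancel₀ (he0 i) h5
  have hinvσ : ∀ i, d i = d (σ i) := by
    have hl0 : (⟨l % 5, Nat.mod_lt _ (by norm_num)⟩ : Fin 5) ≠ 0 := by
      intro h0
      apply hl1
      rw [sigma_pow_mod]
      have : l % 5 = 0 := congrArg Fin.val h0
      rw [this, pow_zero]
    obtain ⟨n, hn⟩ := sigma_gen _ hl0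
    simp only at hn
    rw [← sigma_pow_mod] at hn
    have hpow : ∀ m : ℕ, ∀ i, d i = d (((σ ^ l) ^ m) i) := by
      intro m
      induction m with
      | zero => intro i; simp
      | succ m ih =>
        intro i
        rw [pow_succ, Equiv.Perm.mul_apply, ← ih, ← hinv]
    intro i
    rw [← hn]
    exact hpow _ i
  have hd01 : d 0 = d 1 := hinvσ 0
  have hd12 : d 1 = d 2 := hinvσ 1
  have hd23 : d 2 = d 3 := hinvσ 2
  have hd34 : d 3 = d 4 := hinvσ 3
  have hblock : ∀ i j : Fin 6, (![1, 1, 1, 1, 1, 2] : Fin 6 → ZMod 23) i =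
      (![1, 1, 1, 1, 1, 2] : Fin 6 → ZMod 23) j → d i = d j := by
    intro i j hij
    fin_cases i <;> fin_cases j <;> first
      | rfl
      | (exfalso; revert hij; decide +kernel)
      | simp [hd01, hd12, hd23, hd34]
  -- `x` is block diagonal
  have hX : ∀ i j : Fin 6, x.val i j * (![1, 1, 1, 1, 1, 2] : Fin 6 → ZMod 23) j =
      (![1, 1, 1, 1, 1, 2] : Fin 6 → ZMod 23) i * x.val i j := by
    intro i j
    have h3 := congrArg Units.val hxc
    rw [Units.val_mul, Units.val_mul] at h3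
    have h4 := congrFun (congrFun h3 i) j
    change (x.val * M 1 ![1, 1, 1, 1, 1, 2]) i j = (M 1 ![1, 1, 1, 1, 1, 2] * x.val) i j at h4
    rw [mul_M_one, M_one_mul] at h4
    exact h4
  have hXd : M 1 d * x.val = x.val * M 1 d := by
    ext i j
    rw [mul_M_one, M_one_mul]
    by_cases hz : x.val i j = 0
    · rw [hz, zero_mul, mul_zero]
    · have hzz : (![1, 1, 1, 1, 1, 2] : Fin 6 → ZMod 23) i =
        (![1, 1, 1, 1, 1, 2] : Fin 6 → ZMod 23) j := by
        have := hX i j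
        rw [mul_comm] at this
        exact (mul_right_cancel₀ hz this).symm
      rw [hblock i j hzz, mul_comm]
  have hfin : d1m = M 1 d := by
    have h3 : x * (g * d0 * g⁻¹) * x⁻¹ * x = x * (g * d0 * g⁻¹) := by group
    have h4 := congrArg Units.val h3
    rw [Units.val_mul (x * (g * d0 * g⁻¹) * x⁻¹) x, Units.val_mul x (g * d0 * g⁻¹), hkd,
      conj_d0, hXd] at h4
    have h5 := congrArg (fun A => (x⁻¹).val * A) h4
    simp only [← mul_assoc, ← Units.val_mul, inv_mul_cancel, Units.val_one, one_mul] at h5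
    exact h5.symm
  have h01 := congrFun (congrFun hfin 0) 1
  have hd1 : M 1 d 0 1 = 0 := by
    simp [M_apply]
  rw [hd1] at h01
  revert h01
  decide +kernel

end Pool.Agent.S01736
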