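import Pool.Statements.S02024
import Pool.Agent.H7.TF.All

set_option autoImplicit false
open Pointwise
open Pool Pool.MP_7a929c_al

namespace Pool.Agent.S02024

/-- The negation of the preceding statement: If a group G equals AB, AC and BC for subgroups A, B, C, each having a finite-index solvable subgroup whose subgroups are all finitely generated (almost polycyclic), then G itself is almost polycyclic. -/
theorem result :
    ¬ (∀ (G : Type) [Group G] (A B C : Subgroup G),
      (A : Set G) * (B : Set G) = Set.univ →
      (A : Set G) * (C : Set G) = Set.univ →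
      (B : Set G) * (C : Set G) = Set.univ →
      (∃ H : Subgroup A, H.index ≠ 0 ∧ IsSolvable H ∧ ∀ K : Subgroup H, K.FG) →
      (∃ H : Subgroup B, H.index ≠ 0 ∧ IsSolvable H ∧ ∀ K : Subgroup H, K.FG) →
      (∃ H : Subgroup C, H.index ≠ 0 ∧ IsSolvable H ∧ ∀ K : Subgroup H, K.FG) →
      (∃ H : Subgroup G, H.index ≠ 0 ∧ IsSolvable H ∧ ∀ K : Subgroup H, K.FG)) := by
  exact Pool.Agent.H7.TF.final Pool.Agent.H7.TF.master

end Pool.Agent.S02024
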