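import Pool.Statements.S02161
import Pool.Agent.H36.S2.T8

set_option autoImplicit false
open Pool Pool.MP_85c4d1_al

namespace Pool.Agent.S02161

/-- If G = AB where A and B are Chernikov (a finite-index abelian subgroup with the minimal condition) and each has an abelian subgroup of index at most 2, then G is soluble. -/
theorem result :
    ∀ (G : Type) [Group G] (A B : Subgroup G),
      (∀ g : G, ∃ a ∈ A, ∃ b ∈ B, g = a * b) →
      (∃ H : Subgroup G, H ≤ A ∧ (∀ x ∈ H, ∀ y ∈ H, x * y = y * x) ∧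
        (H.subgroupOf A).index ≠ 0 ∧ WellFoundedLT (Subgroup ↥H)) →
      (∃ H : Subgroup G, H ≤ B ∧ (∀ x ∈ H, ∀ y ∈ H, x * y = y * x) ∧
        (H.subgroupOf B).index ≠ 0 ∧ WellFoundedLT (Subgroup ↥H)) →
      (∃ K : Subgroup G, K ≤ A ∧ (∀ x ∈ K, ∀ y ∈ K, x * y = y * x) ∧
        (K.subgroupOf A).index ≠ 0 ∧ (K.subgroupOf A).index ≤ 2) →
      (∃ K : Subgroup G, K ≤ B ∧ (∀ x ∈ K, ∀ y ∈ K, x * y = y * x) ∧
        (K.subgroupOf B).index ≠ 0 ∧ (K.subgroupOf B).index ≤ 2) →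
      IsSolvable G := by
  intro G _ A B hfac hA hB hA2 hB2
  exact (H68.CK.solvable_all H36.S2.t8 G A B hfac hA hB hA2 hB2).1

end Pool.Agent.S02161
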