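import Pool.Statements.S02188
import Pool.Agent.H11.MarkovClosure

set_option autoImplicit false
open Cardinal
open Pool Pool.MP_8859ef_al

namespace Pool.Agent.S02188

/-- The negation of the preceding statement: For every group G of cardinality at most 2^continuum and every countable family of subsets of G, some Hausdorff group topology on G gives each set in the family the same closure as the Markov topology (intersection of all Hausdorff group topologies). -/
theorem result :
    ¬ (∀ (G : Type) [Group G], Cardinal.mk G ≤ 2 ^ Cardinal.continuum →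
      ∀ (E : Set (Set G)), E.Countable →
        ∃ t : TopologicalSpace G, @IsTopologicalGroup G t _ ∧ @T2Space G t ∧
          ∀ e ∈ E, @closure G t e =
            @closure G (sSup {s : TopologicalSpace G | @IsTopologicalGroup G s _ ∧ @T2Space G s}) e) := by
  intro hall
  have hcard : Cardinal.mk Pool.Agent.H11.Markov.H ≤ 2 ^ Cardinal.continuum :=
    (Pool.Agent.H11.Markov.H.mk_H_le.trans Cardinal.aleph_one_le_continuum).trans
      (Cardinal.cantor _).le
  obtain ⟨t, ht, h2, hcl⟩ := hall Pool.Agent.H11.Markov.H hcard
    {Set.range Pool.Agent.H11.Markov.H.ea, Set.range Pool.Agent.H11.Markov.H.eb}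
    ((Set.countable_singleton _).insert _)
  have hmono : ∀ (s : TopologicalSpace Pool.Agent.H11.Markov.H),
      @IsTopologicalGroup Pool.Agent.H11.Markov.H s _ → @T2Space Pool.Agent.H11.Markov.H s →
      ∀ e : Set Pool.Agent.H11.Markov.H, @closure Pool.Agent.H11.Markov.H s e ⊆
        @closure Pool.Agent.H11.Markov.H
          (sSup {s : TopologicalSpace Pool.Agent.H11.Markov.H |
            @IsTopologicalGroup Pool.Agent.H11.Markov.H s _ ∧
              @T2Space Pool.Agent.H11.Markov.H s}) e := by
    intro s hs1 hs2 e
    refine @closure_minimal _ s _ _ (@subset_closure _ (sSup _) e) ?_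
    exact IsClosed.mono (@isClosed_closure _ (sSup _) e) (le_sSup ⟨hs1, hs2⟩)
  refine Pool.Agent.H11.Markov.H.not_both t ht h2 ?_ ?_
  · rw [hcl _ (Set.mem_insert _ _)]
    exact hmono _ Pool.Agent.H11.Markov.H.isTopologicalGroup_T1
      Pool.Agent.H11.Markov.H.t2Space_T1 _ Pool.Agent.H11.Markov.H.one_mem_closure_T1
  · rw [hcl _ (Set.mem_insert_of_mem _ (Set.mem_singleton _))]
    exact hmono _ Pool.Agent.H11.Markov.H.isTopologicalGroup_T2
      Pool.Agent.H11.Markov.H.t2Space_T2 _ Pool.Agent.H11.Markov.H.one_mem_closure_T2

end Pool.Agent.S02188
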