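-- Proof of the frozen statement S02549.
import Pool.Statements.S02549
import Pool.Agent.H6.NonPrim

set_option autoImplicit false
open Pool Pool.MP_a23033_al

namespace Pool.Agent.S02549

open Pool.Agent.H6 Pool.Agent.H6.Aff

/-- The element `wh` is not primitive modulo the law subgroup. -/
theorem not_primitive :
    ¬ ∃ (a b : Fin 2 → FreeGroup (Fin 2)) (i : Fin 2),
            (∀ j : Fin 2, (FreeGroup.lift b (a j))⁻¹ * FreeGroup.of j ∈ lawSubgroup QQ) ∧
            (∀ j : Fin 2, (FreeGroup.lift a (b j))⁻¹ * FreeGroup.of j ∈ lawSubgroup QQ) ∧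
            (a i)⁻¹ * wh ∈ lawSubgroup QQ := by
  rintro ⟨a, b, i, -, hab, hi⟩
  obtain ⟨u0, r01, r02, h0⟩ := lin_struct XU YU (a 0)
  obtain ⟨u1, r11, r12, h1⟩ := lin_struct XU YU (a 1)
  obtain ⟨v0, k01, k02, hk0⟩ := lin_struct u0 u1 (b 0)
  obtain ⟨v1, k11, k12, hk1⟩ := lin_struct u0 u1 (b 1)
  have hmem : ∀ e1 e2 : TT, ∀ n : Fin 2,
      ((![⟨XU, e1⟩, ⟨YU, e2⟩] : Fin 2 → Aff TT) n).u ∈ QQ := by
    intro e1 e2 n
    fin_cases n
    · exact XU_mem
    · exact YU_mem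
  have hfun : ∀ e1 e2 : TT,
      (fun j => FreeGroup.lift (![⟨XU, e1⟩, ⟨YU, e2⟩] : Fin 2 → Aff TT) (a j)) =
        ![⟨u0, r01 * e1 + r02 * e2⟩, ⟨u1, r11 * e1 + r12 * e2⟩] := by
    intro e1 e2
    funext j
    fin_cases j
    · exact h0 e1 e2
    · exact h1 e1 e2
  have hE : ∀ e1 e2 : TT,
      e1 = k01 * (r01 * e1 + r02 * e2) + k02 * (r11 * e1 + r12 * e2) ∧
      e2 = k11 * (r01 * e1 + r02 * e2) + k12 * (r11 * e1 + r12 * e2) := by
    intro e1 e2
    constructor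
    · have := hab 0 (![⟨XU, e1⟩, ⟨YU, e2⟩] : Fin 2 → Aff TT) (hmem e1 e2)
      rw [map_mul, map_inv, FreeGroup.lift_apply_of, inv_mul_eq_one, lift_lift, hfun, hk0] at this
      have h2 := congrArg Aff.v this
      exact h2.symm
    · have := hab 1 (![⟨XU, e1⟩, ⟨YU, e2⟩] : Fin 2 → Aff TT) (hmem e1 e2)
      rw [map_mul, map_inv, FreeGroup.lift_apply_of, inv_mul_eq_one, lift_lift, hfun, hk1] at this
      have h2 := congrArg Aff.v this
      exact h2.symm
  have hwh : ∀ e1 e2 : TT, (FreeGroup.lift (![⟨XU, e1⟩, ⟨YU, e2⟩] : Fin 2 → Aff TT) wh).v =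
      rbar (XU : TT) YU e1 e2 := by
    intro e1 e2
    rw [anti_wh (FreeGroup.lift _) XU YU e1 e2 (by simp [wx]) (by simp [wy]) XY_anti]
    rfl
  have hrow : ∀ e1 e2 : TT,
      (FreeGroup.lift (![⟨XU, e1⟩, ⟨YU, e2⟩] : Fin 2 → Aff TT) (a i)).v =
      rbar (XU : TT) YU e1 e2 := by
    intro e1 e2
    have := hi (![⟨XU, e1⟩, ⟨YU, e2⟩] : Fin 2 → Aff TT) (hmem e1 e2)
    rw [map_mul, map_inv, inv_mul_eq_one] at this
    rw [this, hwh]
  fin_cases i
  · have hr : ∀ e1 e2 : TT, r01 * e1 + r02 * e2 = rbar (XU : TT) YU e1 e2 := by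
      intro e1 e2
      rw [← hrow e1 e2]
      change _ = (FreeGroup.lift (![⟨XU, e1⟩, ⟨YU, e2⟩] : Fin 2 → Aff TT) (a 0)).v
      rw [h0 e1 e2]
    refine core k01 k11 k02 k12 r11 r12 ?_
    intro e1 e2
    obtain ⟨h3, h4⟩ := hE e1 e2
    rw [hr] at h3 h4
    exact ⟨h3, h4⟩
  · have hr : ∀ e1 e2 : TT, r11 * e1 + r12 * e2 = rbar (XU : TT) YU e1 e2 := by
      intro e1 e2
      rw [← hrow e1 e2]
      change _ = (FreeGroup.lift (![⟨XU, e1⟩, ⟨YU, e2⟩] : Fin 2 → Aff TT) (a 1)).v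
      rw [h1 e1 e2]
    refine core k02 k12 k01 k11 r01 r02 ?_
    intro e1 e2
    obtain ⟨h3, h4⟩ := hE e1 e2
    rw [hr, add_comm] at h3 h4
    exact ⟨h3, h4⟩

/-- There is a variety of groups (given by laws), a rank r, and an element h of the relatively free group of rank r that is not primitive, together with an injective endomorphism of that group sending h to a primitive element. -/
theorem result :
    ∃ (W : Set (FreeGroup ℕ)) (r : ℕ) (V : Subgroup (FreeGroup (Fin r))),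
      V = Subgroup.closure
        {x : FreeGroup (Fin r) | ∃ (f : ℕ → FreeGroup (Fin r)) (w : FreeGroup ℕ),
          w ∈ W ∧ FreeGroup.lift f w = x} ∧
      ∃ (h : FreeGroup (Fin r)) (g : Fin r → FreeGroup (Fin r)),
        (¬ ∃ (a b : Fin r → FreeGroup (Fin r)) (i : Fin r),
            (∀ j : Fin r, (FreeGroup.lift b (a j))⁻¹ * FreeGroup.of j ∈ V) ∧
            (∀ j : Fin r, (FreeGroup.lift a (b j))⁻¹ * FreeGroup.of j ∈ V) ∧
            (a i)⁻¹ * h ∈ V) ∧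
        (∀ w : FreeGroup (Fin r), FreeGroup.lift g w ∈ V → w ∈ V) ∧
        (∃ (a b : Fin r → FreeGroup (Fin r)) (i : Fin r),
            (∀ j : Fin r, (FreeGroup.lift b (a j))⁻¹ * FreeGroup.of j ∈ V) ∧
            (∀ j : Fin r, (FreeGroup.lift a (b j))⁻¹ * FreeGroup.of j ∈ V) ∧
            (a i)⁻¹ * FreeGroup.lift g h ∈ V) := by
  refine ⟨lawSet QQ, 2, lawSubgroup QQ, lawSubgroup_eq_closure QQ, wh, gal, not_primitive,
    gal_injective QQ QQ_pm QQ_del seven_zero, ?_⟩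
  refine ⟨FreeGroup.of, FreeGroup.of, 0, ?_, ?_, gal_wh QQ QQ_pm seven_zero⟩
  · intro j
    rw [FreeGroup.lift_apply_of, inv_mul_cancel]
    exact Subgroup.one_mem _
  · intro j
    rw [FreeGroup.lift_apply_of, inv_mul_cancel]
    exact Subgroup.one_mem _

end Pool.Agent.S02549
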