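import Pool.Statements.S02854
import Pool.Agent.H6.MS.Final
import Pool.Agent.H36.MS.REDD
import Pool.Agent.H78.MS.REDB
import Pool.Agent.H6.MS.Extract

set_option autoImplicit false
open Filter Topology
open Pool Pool.MP_b95bd9_al

namespace Pool.Agent.S02854

/-- The negation of the preceding statement: Every finitely generated metabelian group G is permutation stable: any maps G to Sym(n_k) that are asymptotically multiplicative in normalized Hamming distance are pointwise close to actual homomorphisms G to Sym(n_k). -/
theorem result :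
    ¬ (∀ (G : Type) [Group G], Group.FG G → derivedSeries G 2 = ⊥ →
      ∀ (n : ℕ → ℕ) (f : ∀ k : ℕ, G → Equiv.Perm (Fin (n k))),
        (∀ g h : G, Tendsto
          (fun k : ℕ => ((Finset.univ.filter
            (fun i : Fin (n k) => f k (g * h) i ≠ (f k g * f k h) i)).card : ℝ) / (n k : ℝ))
          atTop (𝓝 0)) →
        ∃ φ : ∀ k : ℕ, G →* Equiv.Perm (Fin (n k)),
          ∀ g : G, Tendsto
            (fun k : ℕ => ((Finset.univ.filter
              (fun i : Fin (n k) => f k g i ≠ φ k g i)).card : ℝ) / (n k : ℝ))
            atTop (𝓝 0)) := by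
  intro H
  refine Pool.Agent.H6.MS.contra ?_
  intro p hp n V f hf W ε hε
  exact Pool.Agent.H36.MS.periodic_approx_of
    (fun n p _ V f hf g h => Pool.Agent.H6.MS.sig_tendsto V f hf g h)
    (fun n p _ V f L _ τ W ε hε hbad => Pool.Agent.H6.MS.extract V f τ W ε hε hbad)
    H p n V f hf W ε hε

end Pool.Agent.S02854
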