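import Pool.Statements.S03186

set_option autoImplicit false
open Pool Pool.MP_d5772f_al

namespace Pool.Agent.S03186

/-- The group of order two. -/
abbrev C2 := Multiplicative (ZMod 2)

theorem C2_mul_self (c : C2) : c * c = 1 := by
  revert c
  decide

/-- The base-and-top reduction: if some coset `g S` of a Sylow 2-subgroup `S` of `X` has no element of
odd order, then the regular wreath product of the group of order two with `X` answers the question
in the negative. -/
theorem wreath_reduction (X : Type) [Group X] [Finite X] (S : Sylow 2 X) (g : X)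
    (hg : ∀ s ∈ (S : Subgroup X), ¬ Odd (orderOf (g * s))) :
    ¬ (∀ (G : Type) [Group G] [Finite G] (T : Sylow 2 G) (t : G),
      t ∈ (T : Subgroup G) →
      (∀ x ∈ (T : Subgroup G), x * t = t * x) →
      orderOf t = 2 →
      ∀ g : G, ∃ c ∈ Subgroup.centralizer ({t} : Set G), Odd (orderOf (g * c))) := by
  classical
  intro h
  have hfin : Finite (RegularWreathProduct C2 X) := by
    have hinj : Function.Injective
        (fun x : RegularWreathProduct C2 X => (x.left, x.right)) := by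
      intro a b hab
      simp only [Prod.mk.injEq] at hab
      exact RegularWreathProduct.ext hab.1 hab.2
    exact Finite.of_injective _ hinj
  obtain ⟨π, hπ⟩ : ∃ π : RegularWreathProduct C2 X →* X, ∀ x, π x = x.right :=
    ⟨RegularWreathProduct.rightHom, fun _ => rfl⟩
  have hker : IsPGroup 2 π.ker := by
    intro x
    refine ⟨1, ?_⟩
    obtain ⟨x, hx⟩ := x
    have hx' : x.right = 1 := by rw [← hπ]; exact hx
    apply Subtype.ext
    change x ^ (2 ^ 1) = 1
    rw [pow_one, pow_two]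
    apply RegularWreathProduct.ext
    · funext y
      simp only [RegularWreathProduct.mul_left, Pi.mul_apply, hx', inv_one, one_mul,
        RegularWreathProduct.one_left, Pi.one_apply]
      exact C2_mul_self _
    · simp [hx']
  have hrange : (S : Subgroup X) ≤ π.range := by
    intro x _
    exact ⟨RegularWreathProduct.inl x, hπ _⟩
  obtain ⟨T, hT⟩ : ∃ T : Sylow 2 (RegularWreathProduct C2 X),
      ∀ x, x ∈ (T : Subgroup (RegularWreathProduct C2 X)) ↔ x.right ∈ (S : Subgroup X) := by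
    refine ⟨S.comapOfKerIsPGroup π hker hrange, fun x => ?_⟩
    rw [Sylow.coe_comapOfKerIsPGroup, Subgroup.mem_comap, hπ]
  obtain ⟨χ, hχ1, hχ0⟩ : ∃ χ : X → C2, (∀ x ∈ (S : Subgroup X), χ x ≠ 1) ∧
      (∀ x, x ∉ (S : Subgroup X) → χ x = 1) ∧ True := by
    refine ⟨fun x => if x ∈ (S : Subgroup X) then Multiplicative.ofAdd (1 : ZMod 2) else 1,
      ?_, ?_, trivial⟩
    · intro x hx
      simp only [if_pos hx]
      decide
    · intro x hx
      simp only [if_neg hx]
  obtain ⟨hχ0, -⟩ := hχ0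
  have hC2 : ∀ a b : C2, a ≠ 1 → b ≠ 1 → a = b := by decide
  have hχ : ∀ s ∈ (S : Subgroup X), ∀ x, χ (s⁻¹ * x) = χ x := by
    intro s hs x
    have hiff : s⁻¹ * x ∈ (S : Subgroup X) ↔ x ∈ (S : Subgroup X) :=
      (S : Subgroup X).mul_mem_cancel_left ((S : Subgroup X).inv_mem hs)
    by_cases hx : x ∈ (S : Subgroup X)
    · exact hC2 _ _ (hχ1 _ (hiff.2 hx)) (hχ1 _ hx)
    · rw [hχ0 _ hx, hχ0 _ (fun hh => hx (hiff.1 hh))]
  obtain ⟨t, htl, htr⟩ : ∃ t : RegularWreathProduct C2 X, t.left = χ ∧ t.right = 1 :=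
    ⟨⟨χ, 1⟩, rfl, rfl⟩
  have ht2 : orderOf t = 2 := by
    apply orderOf_eq_prime
    · rw [pow_two]
      apply RegularWreathProduct.ext
      · funext y
        simp only [RegularWreathProduct.mul_left, Pi.mul_apply, htr, inv_one, one_mul,
          RegularWreathProduct.one_left, Pi.one_apply]
        exact C2_mul_self _
      · simp [htr]
    · intro h1
      have h2 : t.left 1 = 1 := by rw [h1]; rfl
      rw [htl] at h2
      exact hχ1 1 (S : Subgroup X).one_mem h2
  obtain ⟨c, hc, hodd⟩ := h (RegularWreathProduct C2 X) T t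
    ((hT t).2 (by rw [htr]; exact (S : Subgroup X).one_mem)) (by
    intro x hx
    rw [hT] at hx
    apply RegularWreathProduct.ext
    · funext y
      simp only [RegularWreathProduct.mul_left, Pi.mul_apply, htl, htr, inv_one, one_mul]
      rw [hχ _ hx, mul_comm]
    · simp [htr]) ht2 (RegularWreathProduct.inl g)
  rw [Subgroup.mem_centralizer_singleton_iff] at hc
  have hcS : c.right ∈ (S : Subgroup X) := by
    have h1 := congrArg (fun x : RegularWreathProduct C2 X => x.left c.right) hc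
    simp only [RegularWreathProduct.mul_left, Pi.mul_apply, htl, htr, inv_one, one_mul,
      inv_mul_cancel] at h1
    have h2 : χ 1 = χ c.right := by
      have h3 : c.left c.right * χ 1 = c.left c.right * χ c.right := by
        rw [mul_comm (c.left c.right) (χ c.right)]
        exact h1
      exact mul_left_cancel h3
    by_contra hcon
    rw [hχ0 _ hcon] at h2
    exact hχ1 1 (S : Subgroup X).one_mem h2
  apply hg c.right hcS
  have hdvd : orderOf (π (RegularWreathProduct.inl g * c)) ∣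
      orderOf (RegularWreathProduct.inl g * c) := orderOf_map_dvd π _
  rw [hπ] at hdvd
  exact Odd.of_dvd_nat hodd hdvd

/-! ### The group `GL₂(37)` -/

theorem prime37 : Nat.Prime 37 := by norm_num

instance : Fact (Nat.Prime 37) := ⟨prime37⟩

/-- Monomial matrices with entries fourth roots of unity. -/
def Mono (m : Matrix (Fin 2) (Fin 2) (ZMod 37)) : Prop :=
  (m 0 1 = 0 ∧ m 1 0 = 0 ∧ (m 0 0) ^ 4 = 1 ∧ (m 1 1) ^ 4 = 1) ∨
    (m 0 0 = 0 ∧ m 1 1 = 0 ∧ (m 0 1) ^ 4 = 1 ∧ (m 1 0) ^ 4 = 1)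

theorem Mono.mul {m n : Matrix (Fin 2) (Fin 2) (ZMod 37)} (hm : Mono m) (hn : Mono n) :
    Mono (m * n) := by
  unfold Mono at *
  simp only [Matrix.mul_apply, Fin.sum_univ_two]
  rcases hm with ⟨h1, h2, h3, h4⟩ | ⟨h1, h2, h3, h4⟩ <;>
    rcases hn with ⟨k1, k2, k3, k4⟩ | ⟨k1, k2, k3, k4⟩ <;>
    simp only [h1, h2, k1, k2, mul_zero, zero_mul, add_zero, zero_add, mul_pow, h3, h4, k3, k4,
      mul_one, and_self, true_or, or_true]

theorem Mono.one : Mono 1 := by
  left
  simp

theorem Mono.pow {m : Matrix (Fin 2) (Fin 2) (ZMod 37)} (hm : Mono m) (k : ℕ) :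
    Mono (m ^ k) := by
  induction k with
  | zero => simpa using Mono.one
  | succ k ih => rw [pow_succ]; exact ih.mul hm

theorem Mono.sq_diag {m : Matrix (Fin 2) (Fin 2) (ZMod 37)} (hm : Mono m) :
    ∃ a b : ZMod 37, a ^ 4 = 1 ∧ b ^ 4 = 1 ∧ m ^ 2 = Matrix.diagonal ![a, b] := by
  rw [pow_two]
  rcases hm with ⟨h1, h2, h3, h4⟩ | ⟨h1, h2, h3, h4⟩
  · refine ⟨m 0 0 * m 0 0, m 1 1 * m 1 1, ?_, ?_, ?_⟩
    · rw [mul_pow, h3, one_mul]
    · rw [mul_pow, h4, one_mul]
    · ext i j
      fin_cases i <;> fin_cases j <;> simp [Matrix.mul_apply, Fin.sum_univ_two, h1, h2]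
  · refine ⟨m 0 1 * m 1 0, m 1 0 * m 0 1, ?_, ?_, ?_⟩
    · rw [mul_pow, h3, h4, one_mul]
    · rw [mul_pow, h3, h4, one_mul]
    · ext i j
      fin_cases i <;> fin_cases j <;> simp [Matrix.mul_apply, Fin.sum_univ_two, h1, h2]

theorem Mono.pow_eight {m : Matrix (Fin 2) (Fin 2) (ZMod 37)} (hm : Mono m) : m ^ 8 = 1 := by
  obtain ⟨a, b, ha, hb, h⟩ := hm.sq_diag
  have : m ^ 8 = (m ^ 2) ^ 4 := by rw [← pow_mul]
  rw [this, h, Matrix.diagonal_pow]
  ext i j
  fin_cases i <;> fin_cases j <;> simp [ha, hb]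

/-- The explicit Sylow 2-subgroup of `GL₂(37)`. -/
def T0 : Subgroup (Matrix.GeneralLinearGroup (Fin 2) (ZMod 37)) where
  carrier := {m | Mono m.val}
  mul_mem' := by
    intro a b ha hb
    exact Mono.mul ha hb
  one_mem' := Mono.one
  inv_mem' := by
    intro a ha
    have h8 : a ^ 8 = 1 := by
      apply Units.ext
      simpa using Mono.pow_eight ha
    have : a⁻¹ = a ^ 7 := by
      rw [inv_eq_iff_mul_eq_one, ← pow_succ']
      exact h8
    rw [this]
    exact Mono.pow ha 7

theorem mem_T0 {m : Matrix.GeneralLinearGroup (Fin 2) (ZMod 37)} : m ∈ T0 ↔ Mono m.val :=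
  Iff.rfl

theorem T0_isPGroup : IsPGroup 2 T0 := by
  intro x
  refine ⟨3, ?_⟩
  apply Subtype.ext
  apply Units.ext
  exact Mono.pow_eight x.2

/-- Thirty-two explicit elements. -/
def mat (i : Fin 4 × Fin 4 × Bool) : Matrix (Fin 2) (Fin 2) (ZMod 37) :=
  if i.2.2 then !![6 ^ i.1.val, 0; 0, 6 ^ i.2.1.val] else !![0, 6 ^ i.1.val; 6 ^ i.2.1.val, 0]

theorem mat_injective : Function.Injective mat := by
  have h : ∀ i j : Fin 4 × Fin 4 × Bool, mat i 0 0 = mat j 0 0 → mat i 0 1 = mat j 0 1 →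
    mat i 1 0 = mat j 1 0 → mat i 1 1 = mat j 1 1 → i = j := by
    decide +kernel
  intro i j hij
  exact h i j (by rw [hij]) (by rw [hij]) (by rw [hij]) (by rw [hij])

theorem mat_mono : ∀ i, Mono (mat i) := by
  unfold Mono
  decide +kernel

theorem card_T0_ge : 32 ≤ Nat.card T0 := by
  have h : ∀ i, ∃ x : T0, x.1.1 = mat i := by
    intro i
    have hm := mat_mono i
    have h8 := hm.pow_eight
    refine ⟨⟨⟨mat i, (mat i) ^ 7, ?_, ?_⟩, hm⟩, rfl⟩
    · rw [← pow_succ']; exact h8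
    · rw [← pow_succ]; exact h8
  choose f hf using h
  have hinj : Function.Injective f := by
    intro i j hij
    apply mat_injective
    rw [← hf, ← hf, hij]
  have := Nat.card_le_card_of_injective f hinj
  simpa using this

theorem card_GL : Nat.card (Matrix.GeneralLinearGroup (Fin 2) (ZMod 37)) = 1822176 := by
  rw [Matrix.card_GL_field]
  simp [Fin.prod_univ_two, ZMod.card]

theorem T0_index : ¬ 2 ∣ T0.index := by
  intro h
  obtain ⟨k, hk⟩ := (IsPGroup.iff_card (p := 2)).1 T0_isPGroup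
  have h1 := T0.index_mul_card
  rw [card_GL] at h1
  have h2 := card_T0_ge
  rw [hk] at h1 h2
  have h5 : 5 ≤ k := by
    by_contra hcon
    have : k ≤ 4 := by omega
    have := Nat.pow_le_pow_right (n := 2) (by norm_num) this
    omega
  have h3 : 2 ^ 5 ∣ 2 ^ k := pow_dvd_pow 2 h5
  have h4 : 2 * 2 ^ 5 ∣ T0.index * 2 ^ k := Nat.mul_dvd_mul h h3
  rw [h1] at h4
  norm_num at h4

theorem num_diag : ∀ a b : ZMod 37, a ^ 4 = 1 → b ^ 4 = 1 → ∀ e : ZMod 37, e ^ 9 = 1 →
    e * e = a * b → ∀ z : ZMod 37, z * z ≠ 27 * a + 14 * b + 2 * e := by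
  decide +kernel

theorem num_anti : ∀ a b : ZMod 37, a ^ 4 = 1 → b ^ 4 = 1 → ∀ e : ZMod 37, e ^ 9 = 1 →
    e * e = - (a * b) → ∀ z : ZMod 37, z * z ≠ 21 * b + 25 * a + 2 * e := by
  decide +kernel

/-- The coset representative. -/
def g0 : Matrix.GeneralLinearGroup (Fin 2) (ZMod 37) :=
  ⟨!![27, 21; 25, 14], !![14, 16; 12, 27], by decide +kernel, by decide +kernel⟩

/-- An element of odd order of `GL₂(37)` has the trace of a square whose determinant is a
ninth root of unity. -/
theorem odd_order_square (x : Matrix.GeneralLinearGroup (Fin 2) (ZMod 37))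
    (hx : Odd (orderOf x)) :
    ∃ e z : ZMod 37, e ^ 9 = 1 ∧ e * e = x.1 0 0 * x.1 1 1 - x.1 0 1 * x.1 1 0 ∧
      z * z = x.1 0 0 + x.1 1 1 + 2 * e := by
  obtain ⟨k, hk⟩ := hx
  have hxk : x ^ (2 * k + 1) = 1 := by rw [← hk]; exact pow_orderOf_eq_one x
  obtain ⟨y, hy⟩ : ∃ y, y = x ^ (k + 1) := ⟨_, rfl⟩
  have hyy : x = y * y := by
    rw [hy, ← pow_add, show k + 1 + (k + 1) = (2 * k + 1) + 1 by ring, pow_succ, hxk, one_mul]
  have hyn : y ^ (2 * k + 1) = 1 := by
    rw [hy, ← pow_mul, mul_comm, pow_mul, hxk, one_pow]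
  have hdetn : (y.1.det) ^ (2 * k + 1) = 1 := by
    rw [← Matrix.det_pow, ← Units.val_pow_eq_pow_val, hyn]
    simp
  have hdet0 : y.1.det ≠ 0 := by
    intro h0
    rw [h0, zero_pow (by omega)] at hdetn
    exact zero_ne_one hdetn
  have hdet36 : (y.1.det) ^ 36 = 1 := ZMod.pow_card_sub_one_eq_one hdet0
  have hgcd : (y.1.det) ^ (Nat.gcd (2 * k + 1) 36) = 1 := pow_gcd_eq_one.2 ⟨hdetn, hdet36⟩
  have hg9 : Nat.gcd (2 * k + 1) 36 ∣ 9 := by
    have hcop : Nat.Coprime (2 * k + 1) 4 := by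
      have : Nat.Coprime (2 * k + 1) 2 := by
        rw [Nat.coprime_two_right]
        exact ⟨k, rfl⟩
      exact Nat.Coprime.pow_right 2 this
    have : Nat.gcd (2 * k + 1) (4 * 9) = Nat.gcd (2 * k + 1) 9 :=
      Nat.Coprime.gcd_mul_left_cancel_right 9 hcop.symm
    rw [show (36 : ℕ) = 4 * 9 by norm_num, this]
    exact Nat.gcd_dvd_right _ _
  refine ⟨y.1.det, y.1 0 0 + y.1 1 1, ?_, ?_, ?_⟩
  · obtain ⟨c, hc⟩ := hg9
    rw [hc, pow_mul, hgcd, one_pow]
  · rw [← Matrix.det_fin_two, ← Matrix.det_mul, ← Units.val_mul, ← hyy]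
  · rw [hyy, Units.val_mul, Matrix.det_fin_two]
    simp only [Matrix.mul_apply, Fin.sum_univ_two]
    ring

theorem coset_even : ∀ s ∈ T0, ¬ Odd (orderOf (g0 * s)) := by
  intro s hs hodd
  obtain ⟨e, z, he, hee, hz⟩ := odd_order_square _ hodd
  rw [Units.val_mul] at hee hz
  simp only [g0, Matrix.mul_apply, Fin.sum_univ_two, Matrix.of_apply, Matrix.cons_val', Matrix.cons_val_zero,
    Matrix.cons_val_one, Matrix.cons_val_fin_one] at hee hz
  rcases hs with ⟨h1, h2, h3, h4⟩ | ⟨h1, h2, h3, h4⟩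
  · rw [h1, h2] at hee hz
    refine num_diag _ _ h3 h4 e he ?_ z ?_
    · rw [hee]
      have h148 : (148 : ZMod 37) = 0 := by decide
      linear_combination (-(s.1 0 0 * s.1 1 1)) * h148
    · rw [hz]; ring
  · rw [h1, h2] at hee hz
    refine num_anti _ _ h3 h4 e he ?_ z ?_
    · rw [hee]
      have h148 : (148 : ZMod 37) = 0 := by decide
      linear_combination (s.1 0 1 * s.1 1 0) * h148
    · rw [hz]; ring

/-- The negation of the preceding statement: For every finite group G, Sylow 2-subgroup T and involution t central in T, every left coset g·C_G(t) of the centralizer of t contains an element of odd order. -/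
theorem result :
    ¬ (∀ (G : Type) [Group G] [Finite G] (T : Sylow 2 G) (t : G),
      t ∈ (T : Subgroup G) →
      (∀ x ∈ (T : Subgroup G), x * t = t * x) →
      orderOf t = 2 →
      ∀ g : G, ∃ c ∈ Subgroup.centralizer ({t} : Set G), Odd (orderOf (g * c))) :=
  wreath_reduction _ (T0_isPGroup.toSylow T0_index) g0 coset_even

end Pool.Agent.S03186
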