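import Pool.Statements.S03323
import Pool.Agent.H5.SBC.Main

set_option autoImplicit false
open Pool Pool.MP_e14618_al

namespace Pool.Agent.S03323

/-- For a finite-dimensional algebra over an algebraically closed field: if infinitely many pairwise non-isomorphic bricks share one dimension, then some weight in K0(proj A) has infinitely many pairwise non-isomorphic stable modules of one common dimension. -/
theorem result :
    ∀ (K : Type) [Field K] [IsAlgClosed K] (A : Type) [Ring A] [Algebra K A]
      [FiniteDimensional K A],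
      (∃ d : ℕ, ∃ f : ℕ → (A →ₐ[K] Module.End K (Fin d → K)),
        (∀ i j : ℕ, i ≠ j →
          ¬ ∃ g : (Fin d → K) ≃ₗ[K] (Fin d → K), ∀ (a : A) (v : Fin d → K),
            g (f i a v) = f j a (g v)) ∧
        ∀ i : ℕ, ∀ φ : Module.End K (Fin d → K), (∀ a : A, φ * f i a = f i a * φ) →
          ∃ c : K, φ = algebraMap K (Module.End K (Fin d → K)) c) →
      ∃ (m : ℕ) (e : Fin m → A) (c : Fin m → ℤ), (∀ j, IsIdempotentElem (e j)) ∧
        ∃ d : ℕ, ∃ f : ℕ → (A →ₐ[K] Module.End K (Fin d → K)),
          (∀ i j : ℕ, i ≠ j →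
            ¬ ∃ g : (Fin d → K) ≃ₗ[K] (Fin d → K), ∀ (a : A) (v : Fin d → K),
              g (f i a v) = f j a (g v)) ∧
          ∀ i : ℕ,
            (∑ j : Fin m, c j *
              ((Module.finrank K ((⊤ : Submodule K (Fin d → K)).map (f i (e j))) : ℕ) : ℤ)) = 0 ∧
            ∀ W : Submodule K (Fin d → K), (∀ (a : A), ∀ v ∈ W, f i a v ∈ W) →
              W ≠ ⊥ → W ≠ ⊤ →
              (∑ j : Fin m, c j *
                ((Module.finrank K (W.map (f i (e j))) : ℕ) : ℤ)) < 0 := by
  intro K _ _ A _ _ _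
  exact SBC.sbc_CNV K A (SBC.all_THB K A) (SBC.all_FFF K A) (SBC.all_BRK K A) (SBC.all_IDM K A)

end Pool.Agent.S03323
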