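import Pool.Statements.S04052
import Pool.Agent.H93.RobinI

set_option autoImplicit false
open Pool Pool.MP_223851_an

namespace Pool.Agent.S04052

/-- The negation of the preceding statement: For every bounded convex open set in R^n, with Robin eigenvalues defined by min-max over C^1 functions (boundary term via (n-1)-Hausdorff measure), the gap between the second and first eigenvalue strictly increases in the Robin parameter for positive parameters. -/
theorem result :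
    ¬ (∀ (n : ℕ), 1 ≤ n →
    ∀ (Ω : Set (EuclideanSpace ℝ (Fin n))),
      IsOpen Ω → Convex ℝ Ω → Bornology.IsBounded Ω → Ω.Nonempty →
    ∀ (lam : ℝ → ℕ → ℝ),
      (∀ (α : ℝ) (k : ℕ), lam α k =
        sInf {r : ℝ | ∃ V : Submodule ℝ (EuclideanSpace ℝ (Fin n) → ℝ),
          Module.finrank ℝ V = k ∧
          (∀ v ∈ V, ContDiff ℝ 1 v) ∧
          (∀ v ∈ V, v ≠ 0 → 0 < ∫ x in Ω, v x ^ 2) ∧
          r = sSup {q : ℝ | ∃ v ∈ V, v ≠ 0 ∧
            q = ((∫ x in Ω, ‖fderiv ℝ v x‖ ^ 2) +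
                  α * ∫ x in frontier Ω, v x ^ 2
                    ∂(MeasureTheory.Measure.hausdorffMeasure ((n : ℝ) - 1))) /
                (∫ x in Ω, v x ^ 2)}}) →
      StrictMonoOn (fun α : ℝ => lam α 2 - lam α 1) (Set.Ioi (0 : ℝ))) := by
  intro H
  have hA : Pool.Agent.H93.Robin.Adm (1 / 1000) (1 / 10 ^ 5) (1 / 10 ^ 7) (1 / 10 ^ 22) := by
    constructor <;> norm_num
  have hcH : 0 < ((Pool.Agent.H93.Robin.cH : NNReal) : ℝ) := Pool.Agent.H93.Robin.cH_pos
  have H3 := H 3 (by norm_num)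
    (Pool.Agent.H93.Robin.Om (1 / 1000) (1 / 10 ^ 5) (1 / 10 ^ 7) (1 / 10 ^ 22))
    Pool.Agent.H93.Robin.isOpen_Om (Pool.Agent.H93.Robin.convex_Om hA)
    (Pool.Agent.H93.Robin.isBounded_Om hA) (Pool.Agent.H93.Robin.nonempty_Om hA)
    (fun α k => sInf (Pool.Agent.H93.Robin.Sset (1 / 1000) (1 / 10 ^ 5) (1 / 10 ^ 7)
      (1 / 10 ^ 22) α k)) (fun α k => by
        have h2 : ((3 : ℕ) : ℝ) - 1 = 2 := by norm_num
        rw [h2]
        rfl)
  set cc : ℝ := ((Pool.Agent.H93.Robin.cH : NNReal) : ℝ) with hcc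
  set β : ℝ := 1 / 10 ^ 22 * (6 * 10 ^ 10) / cc with hβd
  have hβ0 : 0 < β := by positivity
  have hβ : β * cc = 1 / 10 ^ 22 * (6 * 10 ^ 10) := by
    rw [hβd]; field_simp
  -- upper bound for the second eigenvalue at β
  have hU : sInf (Pool.Agent.H93.Robin.Sset (1 / 1000) (1 / 10 ^ 5) (1 / 10 ^ 7)
      (1 / 10 ^ 22) β 2) ≤ 2 * (6 * 10 ^ 10) + 12000 / 2 + (-77 / 100) := by
    refine csInf_le_of_le (Pool.Agent.H93.Robin.Sset_bddBelow hβ0.le 2)
      (Pool.Agent.H93.Robin.V2_mem hA β) ?_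
    apply Real.sSup_le
    · rintro q ⟨v, hv, hv0, rfl⟩
      have hN := Pool.Agent.H93.Robin.V2_pos hA hv hv0
      obtain ⟨x, y, rfl⟩ := Pool.Agent.H93.Robin.mem_V2.1 hv
      rw [div_le_iff₀ hN]
      exact Pool.Agent.H93.Robin.test_upper (a := 6 * 10 ^ 10) (A := 12000) (B := 6)
        (U' := -77 / 100) (β := β) hA (by norm_num) (by norm_num) (by norm_num) (by norm_num)
        (by norm_num) hβ0.le hβ (by norm_num) (by norm_num) x y
    · norm_num
  -- lower bound for the first eigenvalue at β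
  have hL : 2 * (6 * 10 ^ 10) + 12000 / 2 - 261 / 100 ≤
      sInf (Pool.Agent.H93.Robin.Sset (1 / 1000) (1 / 10 ^ 5) (1 / 10 ^ 7)
      (1 / 10 ^ 22) β 1) := by
    apply le_csInf ⟨_, Pool.Agent.H93.Robin.V1_mem hA β⟩
    apply Pool.Agent.H93.Robin.Sset_one_lower hA
    intro v hv
    exact Pool.Agent.H93.Robin.robin_L (η := 1 / 1000) (a := 6 * 10 ^ 10) (A := 12000) (B := 6)
      (D' := 998 / 1000) (Dq := 2 * 10 ^ 9) (err := 1 / 500) (θ := 12000 / 2 - 26 / 10)
      hA hv (by norm_num) (by norm_num) (by norm_num) (by norm_num) (by norm_num) (by norm_num)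
      (by norm_num) (by norm_num) (by norm_num) (by norm_num) (by norm_num) (by norm_num)
      (by norm_num) (by norm_num) (by norm_num) hβ0.le hβ
  -- choose a small α
  set C : ℝ := Pool.Agent.H93.Robin.Bf (1 / 1000) (1 / 10 ^ 5) (1 / 10 ^ 7) (1 / 10 ^ 22)
      Pool.Agent.H93.Robin.one3 / Pool.Agent.H93.Robin.Nf (1 / 1000) (1 / 10 ^ 5) (1 / 10 ^ 7)
      (1 / 10 ^ 22) Pool.Agent.H93.Robin.one3 with hC
  have hC0 : 0 ≤ C := div_nonneg (Pool.Agent.H93.Robin.Bf_nonneg _)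
    (Pool.Agent.H93.Robin.Nf_nonneg _)
  set α : ℝ := min (β / 2) (1 / 10 / (C + 1)) with hα
  have hα0 : 0 < α := by
    rw [hα]
    exact lt_min (by positivity) (by positivity)
  have hαβ : α < β := lt_of_le_of_lt (min_le_left _ _) (by linarith)
  have hαC : α * C ≤ 1 / 10 := by
    have h1 : α ≤ 1 / 10 / (C + 1) := min_le_right _ _
    have h2 : α * (C + 1) ≤ 1 / 10 := by
      rwa [le_div_iff₀ (by positivity)] at h1
    nlinarith
  have hM : 199 / 100 ≤ sInf (Pool.Agent.H93.Robin.Sset (1 / 1000) (1 / 10 ^ 5) (1 / 10 ^ 7)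
      (1 / 10 ^ 22) α 2) := by
    apply le_csInf ⟨_, Pool.Agent.H93.Robin.V2_mem hA α⟩
    apply Pool.Agent.H93.Robin.Sset_two_lower hα0.le hA
    intro v hv hl
    exact Pool.Agent.H93.Robin.robin_M (η := 1 / 1000) hA hv (by norm_num) (by norm_num)
      (by norm_num) (by norm_num) (by norm_num) (by norm_num) (by norm_num) (by norm_num) hl
  have hS := Pool.Agent.H93.Robin.lam_one_small hA hα0.le
  rw [← hC] at hS
  have hlt := H3 (Set.mem_Ioi.2 hα0) (Set.mem_Ioi.2 hβ0) hαβ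
  dsimp only at hlt
  linarith

end Pool.Agent.S04052
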