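import Pool.Statements.S04847
import Pool.Agent.H92.BN.MK

set_option autoImplicit false
open Pool Pool.MP_61b8df_an

namespace Pool.Agent.S04847

/-- Every smooth bounded connected domain in R^3 has a number other than Druet's λ* (written as the sup of λ>0 with Brezis–Nirenberg constant S_λ=S_0) that is a limit of parameters with solutions of −Δu=λu+∣u∣^4u, u=0 on boundary, blowing up with bounded energy. -/
theorem result :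
  ∀ Ω : Set (EuclideanSpace ℝ (Fin 3)),
    IsOpen Ω → Bornology.IsBounded Ω → IsConnected Ω →
    (∃ ρ : EuclideanSpace ℝ (Fin 3) → ℝ, ContDiff ℝ ((⊤ : ℕ∞) : WithTop ℕ∞) ρ ∧
        Ω = {x | ρ x < 0} ∧ ∀ x, ρ x = 0 → fderiv ℝ ρ x ≠ 0) →
    ∃ lbar : ℝ,
      lbar ≠ sSup {l : ℝ | 0 < l ∧
          ∀ φ : EuclideanSpace ℝ (Fin 3) → ℝ, ContDiff ℝ ((⊤ : ℕ∞) : WithTop ℕ∞) φ →
            HasCompactSupport φ → tsupport φ ⊆ Ω → φ ≠ 0 →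
            sInf {q : ℝ | ∃ ψ : EuclideanSpace ℝ (Fin 3) → ℝ,
                ContDiff ℝ ((⊤ : ℕ∞) : WithTop ℕ∞) ψ ∧ HasCompactSupport ψ ∧
                tsupport ψ ⊆ Ω ∧ ψ ≠ 0 ∧
                q = (∫ x, ‖fderiv ℝ ψ x‖ ^ 2) / (∫ x, ψ x ^ 6) ^ ((1 : ℝ) / 3)}
              ≤ ((∫ x, ‖fderiv ℝ φ x‖ ^ 2) - l * (∫ x, φ x ^ 2)) /
                  (∫ x, φ x ^ 6) ^ ((1 : ℝ) / 3)} ∧
      ∃ lam : ℕ → ℝ, ∃ u : ℕ → EuclideanSpace ℝ (Fin 3) → ℝ,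
        (∀ n, 0 < lam n) ∧
        Filter.Tendsto lam Filter.atTop (nhds lbar) ∧
        (∀ n, ContDiff ℝ ((⊤ : ℕ∞) : WithTop ℕ∞) (u n)) ∧
        (∀ n, ∀ x ∈ frontier Ω, u n x = 0) ∧
        (∀ n, ∀ x ∈ Ω,
          -(∑ i : Fin 3, fderiv ℝ (fun y => fderiv ℝ (u n) y (EuclideanSpace.single i 1)) x
              (EuclideanSpace.single i 1))
            = lam n * u n x + |u n x| ^ 4 * u n x) ∧
        (∀ M : ℝ, ∃ N : ℕ, ∀ n ≥ N, ∃ x ∈ Ω, M < |u n x|) ∧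
        ∃ C : ℝ, ∀ n,
          |(1 / 2) * (∫ x in Ω, ‖fderiv ℝ (u n) x‖ ^ 2)
            - lam n / 2 * (∫ x in Ω, u n x ^ 2)
            - (1 / 6) * (∫ x in Ω, u n x ^ 6)| ≤ C :=
  Pool.Agent.H92.BN.final Pool.Agent.H92.BN.asmReg Pool.Agent.H92.BN.asmEig
    Pool.Agent.H92.BN.asmSeq Pool.Agent.H92.BN.asmSob

end Pool.Agent.S04847
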