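import Pool.Statements.S05034
import Pool.Agent.H28.VM.Core
import Pool.Agent.H28.VM.TestB3
import Pool.Agent.H15.VM.Decay
import Pool.Agent.H15.VM.Fin
import Pool.Agent.H24.VM.Test
import Pool.Agent.H27.VM.HP
import Pool.Agent.H27.VM.Line
import Pool.Agent.H30.VM.Sine
import Pool.Agent.H30.VM.Pair
import Pool.Agent.H35.VM.Strip
import Pool.Agent.H36.VM.Red
import Pool.Agent.H53.VM.NT
import Pool.Agent.H56.VM.ROT
import Pool.Agent.H74.VM.TestA
import Pool.Agent.H75.VM.Pack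
import Pool.Agent.H80.VM.Geo

set_option autoImplicit false
open MeasureTheory
open Pool Pool.MP_71a28e_an

namespace Pool.Agent.S05034

/-- The negation of the preceding statement: For all l,T>0 there is a finite-energy Dirichlet wave solution on the square (0,2l)², given by sine-mode coefficients with finite energy, whose continuous representative on [0,T]×(0,l)² is strictly positive there. -/
theorem result :
    ¬ (∀ l : ℝ, 0 < l → ∀ T : ℝ, 0 < T →
      ∃ a b : ℕ → ℕ → ℝ, ∃ F : ℝ → ℝ × ℝ → ℝ,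
        Summable (fun p : ℕ × ℕ =>
          (((p.1 : ℝ) + 1) ^ 2 + ((p.2 : ℝ) + 1) ^ 2) * (a p.1 p.2 ^ 2 + b p.1 p.2 ^ 2)) ∧
        (∀ t : ℝ,
          MemLp (F t) 2 (volume.restrict (Set.Ioo (0 : ℝ) (2 * l) ×ˢ Set.Ioo (0 : ℝ) (2 * l))) ∧
          ∀ m n : ℕ,
            ∫ x in Set.Ioo (0 : ℝ) (2 * l) ×ˢ Set.Ioo (0 : ℝ) (2 * l),
                F t x * Real.sin (((m : ℝ) + 1) * Real.pi * x.1 / (2 * l))
                  * Real.sin (((n : ℝ) + 1) * Real.pi * x.2 / (2 * l))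
              = l ^ 2 *
                (a m n * Real.cos (Real.pi / (2 * l)
                    * Real.sqrt (((m : ℝ) + 1) ^ 2 + ((n : ℝ) + 1) ^ 2) * t)
                  + b m n * Real.sin (Real.pi / (2 * l)
                    * Real.sqrt (((m : ℝ) + 1) ^ 2 + ((n : ℝ) + 1) ^ 2) * t))) ∧
        ContinuousOn (fun p : ℝ × (ℝ × ℝ) => F p.1 p.2)
          (Set.Icc (0 : ℝ) T ×ˢ (Set.Ioo (0 : ℝ) l ×ˢ Set.Ioo (0 : ℝ) l)) ∧
        ∀ t ∈ Set.Icc (0 : ℝ) T, ∀ x ∈ Set.Ioo (0 : ℝ) l ×ˢ Set.Ioo (0 : ℝ) l, 0 < F t x) := by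
  have hHP := Pool.Agent.H27.VM.hp (Pool.Agent.H27.VM.line Pool.Agent.H56.VM.rot
    Pool.Agent.H15.VM.decay) Pool.Agent.H15.VM.decay
  have htest := Pool.Agent.H24.VM.test Pool.Agent.H74.VM.testA
    (Pool.Agent.H28.VM.testB Pool.Agent.H28.VM.packet hHP)
  have hNT := Pool.Agent.H53.VM.NT htest Pool.Agent.H80.VM.geoA Pool.Agent.H80.VM.geoC
  have hcore := Pool.Agent.H28.VM.core hNT Pool.Agent.H35.VM.strip (Pool.Agent.H15.VM.fin hHP)
  have hred := Pool.Agent.H36.VM.red (Pool.Agent.H30.VM.pair Pool.Agent.H30.VM.sine)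
  exact Pool.Agent.H28.VM.final_of hcore hred

end Pool.Agent.S05034
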