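import Pool.Statements.S05135
import Pool.Agent.H89.Vanish
import Pool.Agent.H89.FT
import Pool.Agent.H89.FTInj
import Pool.Agent.H89.Pos
import Pool.Agent.H89.Rank

set_option autoImplicit false
open MeasureTheory
open Pool Pool.MP_7c460f_an

namespace Pool.Agent.S05135

/-- For bounded open connected D in R^3, nonzero f in L^2(D), and transversal polynomial zero sets in C^3 with smooth positive rapidly decaying densities, the operator h ↦ ∫ h(u1)F(u1+u2)dm1 has infinite-dimensional range. -/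
theorem result :
  ∀ (D : Set (Fin 3 → ℝ)), IsOpen D → IsConnected D → Bornology.IsBounded D →
  ∀ (f : (Fin 3 → ℝ) → ℂ), MemLp f 2 (volume.restrict D) →
  ¬ (f =ᵐ[volume.restrict D] 0) →
  ∀ (F : EuclideanSpace ℂ (Fin 3) → ℂ),
  (∀ z, F z = ∫ x in D, f x * Complex.exp (Complex.I * ∑ i, WithLp.ofLp z i * (x i : ℂ))) →
  ∀ (L₁ L₂ : MvPolynomial (Fin 3) ℂ), 1 ≤ L₁.totalDegree → 1 ≤ L₂.totalDegree →
  ∀ (V₁ V₂ : Set (EuclideanSpace ℂ (Fin 3))),
  V₁ = {z | MvPolynomial.eval (WithLp.ofLp z) L₁ = 0} →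
  V₂ = {z | MvPolynomial.eval (WithLp.ofLp z) L₂ = 0} →
  ∀ (ρ₁ ρ₂ : EuclideanSpace ℂ (Fin 3) → ℝ),
  ContDiff ℝ ((⊤ : ℕ∞) : WithTop ℕ∞) ρ₁ → ContDiff ℝ ((⊤ : ℕ∞) : WithTop ℕ∞) ρ₂ →
  (∀ z, 0 < ρ₁ z) → (∀ z, 0 < ρ₂ z) →
  (∀ N : ℕ, ∃ C : ℝ, ∀ z, ρ₁ z * (1 + ‖z‖) ^ N ≤ C) →
  (∀ N : ℕ, ∃ C : ℝ, ∀ z, ρ₂ z * (1 + ‖z‖) ^ N ≤ C) →
  ∀ (m₁ m₂ : Measure (EuclideanSpace ℂ (Fin 3))),
  m₁ = ((Measure.hausdorffMeasure (4 : ℝ)).restrict V₁).withDensity (fun z => ENNReal.ofReal (ρ₁ z)) →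
  m₂ = ((Measure.hausdorffMeasure (4 : ℝ)).restrict V₂).withDensity (fun z => ENNReal.ofReal (ρ₂ z)) →
  (∀ x : Fin 3 → ℝ, MemLp (fun z : EuclideanSpace ℂ (Fin 3) =>
      Complex.exp (Complex.I * ∑ i, WithLp.ofLp z i * (x i : ℂ))) 2 m₁) →
  (∀ x : Fin 3 → ℝ, MemLp (fun z : EuclideanSpace ℂ (Fin 3) =>
      Complex.exp (Complex.I * ∑ i, WithLp.ofLp z i * (x i : ℂ))) 2 m₂) →
  (∀ h : EuclideanSpace ℂ (Fin 3) → ℂ, MemLp h 2 m₁ →
      (∀ᵐ u₂ ∂m₂, Integrable (fun u₁ => h u₁ * F (u₁ + u₂)) m₁) ∧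
      MemLp (fun u₂ => ∫ u₁, h u₁ * F (u₁ + u₂) ∂m₁) 2 m₂) →
  (∃ p₁ ∈ V₁, ∃ p₂ ∈ V₂, ∃ Q₁ Q₂ : MvPolynomial (Fin 3) ℂ,
      ∃ U₁ U₂ : Set (EuclideanSpace ℂ (Fin 3)),
      IsOpen U₁ ∧ IsOpen U₂ ∧ p₁ ∈ U₁ ∧ p₂ ∈ U₂ ∧
      V₁ ∩ U₁ = {z | MvPolynomial.eval (WithLp.ofLp z) Q₁ = 0} ∩ U₁ ∧
      V₂ ∩ U₂ = {z | MvPolynomial.eval (WithLp.ofLp z) Q₂ = 0} ∩ U₂ ∧
      LinearIndependent ℂ
        ![fun i : Fin 3 => MvPolynomial.eval (WithLp.ofLp p₁) (MvPolynomial.pderiv i Q₁),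
          fun i : Fin 3 => MvPolynomial.eval (WithLp.ofLp p₂) (MvPolynomial.pderiv i Q₂)]) →
  ∀ (n : ℕ) (g : Fin n → EuclideanSpace ℂ (Fin 3) → ℂ),
  ∃ h : EuclideanSpace ℂ (Fin 3) → ℂ, MemLp h 2 m₁ ∧
    ∀ c : Fin n → ℂ,
      ¬ ((fun u₂ => ∫ u₁, h u₁ * F (u₁ + u₂) ∂m₁) =ᵐ[m₂] fun u₂ => ∑ k, c k * g k u₂) := by
  intro D hDo hDc hDb f hf hfne F hFdef L₁ L₂ hL₁ hL₂ V₁ V₂ hV₁ hV₂ ρ₁ ρ₂ hρ₁s hρ₂s hρ₁ hρ₂
    hρ₁d hρ₂d m₁ m₂ hm₁ hm₂ hi₁ hi₂ hii htrans n g
  by_contra hcon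
  push Not at hcon
  have hD : MeasurableSet D := hDo.measurableSet
  obtain ⟨R, hR⟩ : ∃ R : ℝ, ∀ x ∈ D, ‖x‖ ≤ R := by
    obtain ⟨R, hR⟩ := hDb.subset_closedBall 0
    exact ⟨R, fun x hx => by simpa using hR hx⟩
  have hfin_D : IsFiniteMeasure (volume.restrict D) :=
    ⟨by rw [Measure.restrict_apply_univ]; exact hDb.measure_lt_top⟩
  have hfi : Integrable f (volume.restrict D) := hf.integrable (by norm_num)
  have hnice : H89.Nice (H89.FL (volume.restrict D) f) := H89.FL_nice_aux hD hfi hR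
  have hFG : ∀ z, F z = H89.FL (volume.restrict D) f (WithLp.ofLp z) := hFdef
  have hFc : Continuous F := by
    have : F = H89.FL (volume.restrict D) f ∘ WithLp.ofLp := funext hFG
    rw [this]
    exact hnice.cont.comp (by fun_prop)
  have hL₁0 : L₁ ≠ 0 := by
    rintro rfl; simp at hL₁
  have hL₂0 : L₂ ≠ 0 := by
    rintro rfl; simp at hL₂
  -- finiteness and positivity of the measures
  have hfinm₁ : IsFiniteMeasure m₁ := by
    have h0 := hi₁ 0
    have h1 : (fun z : EuclideanSpace ℂ (Fin 3) =>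
        Complex.exp (Complex.I * ∑ i, WithLp.ofLp z i * (((0 : Fin 3 → ℝ) i : ℝ) : ℂ))) =
        fun _ => (1 : ℂ) := by
      funext z; simp
    rw [h1] at h0
    rw [memLp_const_iff (by norm_num) (by norm_num)] at h0
    rcases h0 with h0 | h0
    · exact absurd h0 one_ne_zero
    · exact ⟨h0⟩
  have hpos : ∀ (L : MvPolynomial (Fin 3) ℂ), L ≠ 0 → ∀ (V : Set (EuclideanSpace ℂ (Fin 3))),
      V = {z | MvPolynomial.eval (WithLp.ofLp z) L = 0} →
      ∀ (ρ : EuclideanSpace ℂ (Fin 3) → ℝ), Continuous ρ → (∀ z, 0 < ρ z) →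
      ∀ (m : Measure (EuclideanSpace ℂ (Fin 3))),
      m = ((Measure.hausdorffMeasure (4 : ℝ)).restrict V).withDensity
        (fun z => ENNReal.ofReal (ρ z)) →
      ∀ u ∈ V, ∀ r > 0, 0 < m (Metric.ball u r) := by
    intro L hL V hV ρ hρc hρ m hm u hu r hr
    rw [pos_iff_ne_zero]
    intro h0
    rw [hm, withDensity_apply_eq_zero (by fun_prop)] at h0
    have h1 : {x | ENNReal.ofReal (ρ x) ≠ 0} ∩ Metric.ball u r = Metric.ball u r := by
      apply Set.inter_eq_right.mpr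
      intro x _
      have h2 : ENNReal.ofReal (ρ x) ≠ 0 := (ENNReal.ofReal_pos.mpr (hρ x)).ne'
      exact h2
    rw [h1, Measure.restrict_apply Metric.isOpen_ball.measurableSet, Set.inter_comm] at h0
    have hu' : MvPolynomial.eval (WithLp.ofLp u) L = 0 := by rw [hV] at hu; exact hu
    have h3 := H89.hausdorff_pos hL hu' hr
    rw [← hV, h0] at h3
    exact lt_irrefl _ h3
  have hpos₁ := hpos L₁ hL₁0 V₁ hV₁ ρ₁ hρ₁s.continuous hρ₁ m₁ hm₁
  have hpos₂ := hpos L₂ hL₂0 V₂ hV₂ ρ₂ hρ₂s.continuous hρ₂ m₂ hm₂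
  have hdet := H89.det_zero_of_finite_rank hFc hpos₁ hpos₂ (n := n) (g := g) (fun h hh => hcon h hh)
  -- vanishing on the sum set
  have hvan : ∀ a b : EuclideanSpace ℂ (Fin 3), a ∈ V₁ → b ∈ V₂ →
      H89.FL (volume.restrict D) f (WithLp.ofLp a + WithLp.ofLp b) = 0 := by
    intro a b ha hb
    have hN := hnice.translate (WithLp.ofLp a + WithLp.ofLp b)
    set q : MvPolynomial (Fin 3) ℂ :=
      MvPolynomial.aeval (fun i => MvPolynomial.C (WithLp.ofLp b i) - MvPolynomial.X i) L₂ with hq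
    have hqe : ∀ z : Fin 3 → ℂ, MvPolynomial.eval z q =
        MvPolynomial.eval (WithLp.ofLp b - z) L₂ := by
      intro z
      have h : ((MvPolynomial.eval z : MvPolynomial (Fin 3) ℂ →+* ℂ).comp
          ((MvPolynomial.aeval (fun i => (MvPolynomial.C (WithLp.ofLp b i) - MvPolynomial.X i :
            MvPolynomial (Fin 3) ℂ)) :
            MvPolynomial (Fin 3) ℂ →ₐ[ℂ] MvPolynomial (Fin 3) ℂ) : MvPolynomial (Fin 3) ℂ →+* _)) =
          MvPolynomial.eval (WithLp.ofLp b - z) := by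
        apply MvPolynomial.ringHom_ext
        · intro r; simp
        · intro i; simp
      exact RingHom.congr_fun h L₂
    have hgood : H89.GoodPair
        (fun z => H89.FL (volume.restrict D) f (WithLp.ofLp a + WithLp.ofLp b + z)) n
        (H89.tr (WithLp.ofLp a) L₁) q := by
      refine ⟨H89.tr_ne_zero hL₁0 _, ?_, ?_, ?_, ?_⟩
      · intro h0
        apply hL₂0
        apply MvPolynomial.funext
        intro z
        have := hqe (WithLp.ofLp b - z)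
        rw [h0, map_zero, sub_sub_cancel] at this
        rw [← this, map_zero]
      · rw [H89.eval_tr, zero_add]
        rw [hV₁] at ha; exact ha
      · rw [hqe, sub_zero]
        rw [hV₂] at hb; exact hb
      · intro u v hu hv
        have h1 := hdet (fun i => WithLp.toLp 2 (u i + WithLp.ofLp a))
          (fun j => WithLp.toLp 2 (WithLp.ofLp b - v j)) (fun i => by
            rw [hV₁]
            have := hu i
            rw [H89.eval_tr] at this
            exact this) (fun j => by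
            rw [hV₂]
            have := hv j
            rw [hqe] at this
            exact this)
        have h2 : (Matrix.of fun i j => F (WithLp.toLp 2 (u i + WithLp.ofLp a) +
            WithLp.toLp 2 (WithLp.ofLp b - v j))) =
            Matrix.of fun i j => H89.FL (volume.restrict D) f
              (WithLp.ofLp a + WithLp.ofLp b + (u i - v j)) := by
          ext i j
          rw [Matrix.of_apply, Matrix.of_apply, hFG]
          congr 1
          rw [WithLp.ofLp_add]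
          show u i + WithLp.ofLp a + (WithLp.ofLp b - v j) = _
          abel
        rw [h2] at h1
        exact h1
    have h0 := H89.vanish_zero hN hgood
    simpa using h0
  -- the sum set is large
  obtain ⟨p₁, hp₁, p₂, hp₂, Q₁, Q₂, U₁, U₂, hU₁, hU₂, hpU₁, hpU₂, h₁, h₂, hlin⟩ := htrans
  have hnear := H89.sum_nhds hp₁ hp₂ hU₁ hU₂ hpU₁ hpU₂ h₁ h₂ hlin
  have hall : ∀ z, H89.FL (volume.restrict D) f z = 0 := by
    intro z
    set z₀ := WithLp.ofLp p₁ + WithLp.ofLp p₂ with hz₀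
    have hline := hnice.ent z₀ (z - z₀)
    have hev : ∀ᶠ T in nhds (0 : ℂ), H89.FL (volume.restrict D) f (z₀ + T • (z - z₀)) = 0 := by
      have hpath : Filter.Tendsto (fun T : ℂ => z₀ + T • (z - z₀)) (nhds 0) (nhds z₀) := by
        have hc : Continuous (fun T : ℂ => z₀ + T • (z - z₀)) := by fun_prop
        have := hc.tendsto 0
        simpa using this
      filter_upwards [hpath.eventually hnear] with T hT
      obtain ⟨a, b, ha, hb, hab⟩ := hT
      rw [← hab]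
      exact hvan a b ha hb
    have := H89.eq_zero_of_near_zero hline hev 1
    simpa using this
  exact hfne (H89.FL_injective hD hfi (fun x => hall _))

end Pool.Agent.S05135
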