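import Pool.Statements.S05171
import Pool.Agent.H81.W.Lyap
import Pool.Agent.H76.W.ModuleB
import Pool.Agent.H86.W.ModuleA

set_option autoImplicit false
open Pool Pool.MP_7ded08_an

namespace Pool.Agent.S05171

/-- Whittaker's constant equals the smallest modulus of a zero of the sum of q^(n(n-1)/2) z^n/n! over all ∣q∣ ≤ 1. That is, below this value every entire function of smaller type whose derivatives all vanish in the closed unit disk is zero, and above it this fails. -/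
theorem result :
    ∀ B : ℝ,
      B = sInf {r : ℝ | ∃ q z : ℂ, ‖q‖ ≤ 1 ∧ ‖z‖ = r ∧
            ∑' n : ℕ, q ^ (n * (n - 1) / 2) * z ^ n / (Nat.factorial n : ℂ) = 0} →
      ((∀ c : ℝ, c < B →
          ∀ f : ℂ → ℂ, Differentiable ℂ f →
            (∀ n : ℕ, ∃ z : ℂ, ‖z‖ ≤ 1 ∧ iteratedDeriv n f z = 0) →
            (∃ τ : ℝ, τ < c ∧ ∃ C : ℝ, ∀ z : ℂ, ‖f z‖ ≤ C * Real.exp (τ * ‖z‖)) →
            ∀ z : ℂ, f z = 0) ∧
       (∀ c : ℝ, B < c →
          ¬ (∀ f : ℂ → ℂ, Differentiable ℂ f →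
            (∀ n : ℕ, ∃ z : ℂ, ‖z‖ ≤ 1 ∧ iteratedDeriv n f z = 0) →
            (∃ τ : ℝ, τ < c ∧ ∃ C : ℝ, ∀ z : ℂ, ‖f z‖ ≤ C * Real.exp (τ * ‖z‖)) →
            ∀ z : ℂ, f z = 0))) := by
  exact Pool.Agent.H76.W.target_of_lyap
    (Pool.Agent.H81.W.lyap_of_critical Pool.Agent.H86.W.exists_critical)

end Pool.Agent.S05171
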