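import Pool.Statements.S05662
import Pool.Agent.H29.HS.Z
-- import your own Pool.Agent.* helpers here

set_option autoImplicit false
open Pool Pool.MP_a2e4e3_an

namespace Pool.Agent.S05662

/-- The negation of the preceding statement: For each 1<p<∞ there is c>0 such that for all d≥1, all n, every real f on the n-cube whose Walsh coefficients vanish for ∣S∣<d satisfies ‖Δf‖_p ≥ c·d·‖f‖_p, with Δ the heat generator and normalized L^p norms. -/
theorem result :
    ¬ (∀ p : ℝ, 1 < p → ∃ c : ℝ, 0 < c ∧ ∀ d : ℕ, 1 ≤ d → ∀ n : ℕ, ∀ f : (Fin n → Bool) → ℝ,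
      (∀ S : Finset (Fin n), S.card < d →
        ∑ x : Fin n → Bool, f x * ∏ i ∈ S, (if x i then (-1 : ℝ) else 1) = 0) →
      (d : ℝ) * c * ((∑ x : Fin n → Bool, |f x| ^ p) / (2 : ℝ) ^ n) ^ (1 / p) ≤
        ((∑ x : Fin n → Bool,
            |∑ i : Fin n, (f x - f (Function.update x i (!x i))) / 2| ^ p) / (2 : ℝ) ^ n) ^ (1 / p)) := by
  intro h
  exact Pool.Agent.H29.HS.final (h (10 / 9) (by norm_num))

end Pool.Agent.S05662
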