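import Pool.Statements.S05731
import Pool.Agent.H92.Lip.Main
import Pool.Agent.H92.Lip.M7b

set_option autoImplicit false
open MeasureTheory
open Pool Pool.MP_a7cd91_an

namespace Pool.Agent.S05731

/-- On every bounded pseudoconvex domain in C^n with Lipschitz boundary, each weakly dbar-closed (0,1)-form with W^{1,2} coefficients equals dbar u weakly for some u in W^{1,2}, i.e. the W^1 dbar-cohomology in degree (0,1) vanishes. -/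
theorem result :
  ∀ (n : ℕ) (Ω : Set (Fin n → ℂ)),
    IsOpen Ω → IsConnected Ω → Bornology.IsBounded Ω →
    (∃ φ : (Fin n → ℂ) → ℝ, ContinuousOn φ Ω ∧
      (∀ c : ℝ, IsCompact {z | z ∈ Ω ∧ φ z ≤ c}) ∧
      (∀ z ∈ Ω, ∀ w : Fin n → ℂ, (∀ ζ : ℂ, ‖ζ‖ ≤ 1 → z + ζ • w ∈ Ω) →
        φ z ≤ (2 * Real.pi)⁻¹ *
          ∫ θ in Set.Ioc (0 : ℝ) (2 * Real.pi), φ (z + Complex.exp ((θ : ℂ) * Complex.I) • w))) →
    (∀ p ∈ frontier Ω, ∃ U ∈ nhds p, ∃ L : (Fin n → ℂ) →L[ℝ] ℝ, ∃ v : Fin n → ℂ, L v = 1 ∧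
      ∃ g : (Fin n → ℂ) → ℝ, ∃ K : NNReal, LipschitzWith K g ∧
        (∀ (x : Fin n → ℂ) (t : ℝ), g (x + t • v) = g x) ∧
        Ω ∩ U = {x | x ∈ U ∧ L x < g x}) →
    ∀ f : Fin n → (Fin n → ℂ) → ℂ,
      (∀ j : Fin n, MemLp (f j) 2 (volume.restrict Ω) ∧
        ∀ e : Fin n → ℂ, ∃ h : (Fin n → ℂ) → ℂ, MemLp h 2 (volume.restrict Ω) ∧
          ∀ ψ : (Fin n → ℂ) → ℂ, ContDiff ℝ ((⊤ : ℕ∞) : WithTop ℕ∞) ψ → HasCompactSupport ψ →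
            tsupport ψ ⊆ Ω →
            ∫ x in Ω, f j x * fderiv ℝ ψ x e = - ∫ x in Ω, h x * ψ x) →
      (∀ j k : Fin n, ∀ ψ : (Fin n → ℂ) → ℂ, ContDiff ℝ ((⊤ : ℕ∞) : WithTop ℕ∞) ψ →
          HasCompactSupport ψ → tsupport ψ ⊆ Ω →
          ∫ x in Ω, f j x * (fderiv ℝ ψ x (Pi.single k (1 : ℂ) : Fin n → ℂ)
              + Complex.I * fderiv ℝ ψ x (Pi.single k Complex.I : Fin n → ℂ))
            = ∫ x in Ω, f k x * (fderiv ℝ ψ x (Pi.single j (1 : ℂ) : Fin n → ℂ)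
              + Complex.I * fderiv ℝ ψ x (Pi.single j Complex.I : Fin n → ℂ))) →
      ∃ u : (Fin n → ℂ) → ℂ,
        (MemLp u 2 (volume.restrict Ω) ∧
          ∀ e : Fin n → ℂ, ∃ h : (Fin n → ℂ) → ℂ, MemLp h 2 (volume.restrict Ω) ∧
            ∀ ψ : (Fin n → ℂ) → ℂ, ContDiff ℝ ((⊤ : ℕ∞) : WithTop ℕ∞) ψ → HasCompactSupport ψ →
              tsupport ψ ⊆ Ω →
              ∫ x in Ω, u x * fderiv ℝ ψ x e = - ∫ x in Ω, h x * ψ x) ∧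
        ∀ j : Fin n, ∀ ψ : (Fin n → ℂ) → ℂ, ContDiff ℝ ((⊤ : ℕ∞) : WithTop ℕ∞) ψ →
          HasCompactSupport ψ → tsupport ψ ⊆ Ω →
          ∫ x in Ω, u x * ((fderiv ℝ ψ x (Pi.single j (1 : ℂ) : Fin n → ℂ)
              + Complex.I * fderiv ℝ ψ x (Pi.single j Complex.I : Fin n → ℂ)) / 2)
            = - ∫ x in Ω, f j x * ψ x := by
  intro n Ω hΩ _ hb hpsh hLip f hf hcl
  exact Pool.Agent.H92.Lip.final Pool.Agent.H92.Lip.dzOfDb n Ω hΩ hb hpsh hLip f hf hcl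

end Pool.Agent.S05731
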