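import Pool.Statements.S05882
import Pool.Agent.H29.RH.Final

set_option autoImplicit false
open Pool Pool.MP_b4c0b6_an

namespace Pool.Agent.S05882

/-- The negation of the preceding statement: For every real p>1 there is c>0 such that for all d,n≥1 and every function on {-1,1}^n of degree at most d (given by Fourier coefficients), the uniform L_p norm of its Laplacian is at most c·d times the L_p norm of the function. -/
theorem result :
    ¬ (∀ p : ℝ, 1 < p → ∃ c : ℝ, 0 < c ∧
      ∀ d n : ℕ, 1 ≤ d → 1 ≤ n →
        ∀ a : Finset (Fin n) → ℝ, (∀ S : Finset (Fin n), d < S.card → a S = 0) →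
          ((∑ T : Finset (Fin n),
                |∑ S : Finset (Fin n), a S * (S.card : ℝ) * (-1 : ℝ) ^ (S ∩ T).card| ^ p)
              / (2 : ℝ) ^ n) ^ (1 / p)
            ≤ c * (d : ℝ) *
              ((∑ T : Finset (Fin n),
                  |∑ S : Finset (Fin n), a S * (-1 : ℝ) ^ (S ∩ T).card| ^ p)
                / (2 : ℝ) ^ n) ^ (1 / p)) := by
  intro h
  exact Pool.Agent.H29.RH.final2 (h (10 / 9) (by norm_num))

end Pool.Agent.S05882
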