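import Pool.Statements.S06212
import Pool.Agent.H79.Haagerup

set_option autoImplicit false
open ComplexOrder
open Pool Pool.MP_cf2fa9_an

namespace Pool.Agent.S06212

/-- The negation of the preceding statement: For k ≥ 2, no nonzero positive definite ℓ²-coefficient ψ(g)=⟨λ(g)η,η⟩ lies below g ↦ (2k−1)^(−∣g∣/2) on the free group F_k. That is, the critical Haagerup function is singular to the Fourier algebra. -/
theorem result :
    ¬ (∀ k : ℕ, 2 ≤ k → ∀ η : FreeGroup (Fin k) → ℂ,
    Summable (fun h => ‖η h‖ ^ 2) → η ≠ 0 →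
    ¬ ∀ (n : ℕ) (g : Fin n → FreeGroup (Fin k)) (c : Fin n → ℂ),
      0 ≤ ∑ i, ∑ j, starRingEnd ℂ (c i) * c j *
        ((((1 / Real.sqrt (2 * (k : ℝ) - 1)) ^ (FreeGroup.toWord ((g i)⁻¹ * g j)).length : ℝ) : ℂ)
          - ∑' h, starRingEnd ℂ (η h) * η (((g i)⁻¹ * g j)⁻¹ * h))) := by
  intro H
  refine H 2 le_rfl (fun h => if h = 1 then (1 / 3 : ℂ) else 0) ?_ ?_ ?_
  · refine summable_of_ne_finset_zero (s := {1}) ?_
    intro b hb
    have hb1 : b ≠ 1 := by simpa using hb
    simp [hb1]
  · intro h0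
    have := congrFun h0 1
    simp at this
  · intro n g c
    have key : ∀ i j : Fin n, ((((1 / Real.sqrt (2 * ((2 : ℕ) : ℝ) - 1)) ^
          (FreeGroup.toWord ((g i)⁻¹ * g j)).length : ℝ) : ℂ)
          - ∑' h, starRingEnd ℂ ((fun h => if h = 1 then (1 / 3 : ℂ) else 0) h)
            * (fun h => if h = 1 then (1 / 3 : ℂ) else 0) (((g i)⁻¹ * g j)⁻¹ * h))
        = (H79.Haagerup.r : ℂ) ^ (FreeGroup.toWord (g i)).length
            * (H79.Haagerup.r : ℂ) ^ (FreeGroup.toWord (g j)).length
          + (H79.Haagerup.U (FreeGroup.toWord (g i)) (FreeGroup.toWord (g j)) : ℂ)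
          - (1 / 9) * (if FreeGroup.toWord (g i) = FreeGroup.toWord (g j) then 1 else 0) := by
      intro i j
      have h1 : (1 / Real.sqrt (2 * ((2 : ℕ) : ℝ) - 1)) = H79.Haagerup.r := by
        unfold H79.Haagerup.r
        norm_num
      have h2 : ((H79.Haagerup.r ^ (FreeGroup.toWord ((g i)⁻¹ * g j)).length : ℝ) : ℂ)
          = (H79.Haagerup.r : ℂ) ^ (FreeGroup.toWord (g i)).length
            * (H79.Haagerup.r : ℂ) ^ (FreeGroup.toWord (g j)).length
          + (H79.Haagerup.U (FreeGroup.toWord (g i)) (FreeGroup.toWord (g j)) : ℂ) := by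
        rw [FreeGroup.toWord_mul, FreeGroup.toWord_inv,
          H79.Haagerup.kernel_eq _ _ FreeGroup.isReduced_toWord FreeGroup.isReduced_toWord]
        push_cast
        ring
      have h3 : ∑' h, starRingEnd ℂ ((fun h => if h = 1 then (1 / 3 : ℂ) else 0) h)
            * (fun h => if h = 1 then (1 / 3 : ℂ) else 0) (((g i)⁻¹ * g j)⁻¹ * h)
          = (1 / 9) * (if FreeGroup.toWord (g i) = FreeGroup.toWord (g j) then 1 else 0) := by
        rw [tsum_eq_single 1]
        · by_cases hg : g i = g j
          · have h7 : (starRingEnd ℂ) (3 : ℂ) = 3 := map_ofNat _ 3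
            simp [hg, h7]
            norm_num
          · have h4 : ¬ ((g i)⁻¹ * g j = 1) := by
              intro h5
              exact hg (inv_mul_eq_one.mp h5)
            have h6 : ¬ ((g j)⁻¹ * g i = 1) := by
              intro h5
              exact hg (inv_mul_eq_one.mp h5).symm
            simp [hg, h6, FreeGroup.toWord_inj]
        · intro b hb
          simp [hb]
      rw [h1, h2, h3]
    simp_rw [key]
    refine le_of_le_of_eq (H79.Haagerup.final_ineq c (fun i => FreeGroup.toWord (g i))) ?_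
    unfold H79.Haagerup.ell H79.Haagerup.Q H79.Haagerup.E
    rw [map_sum, Finset.sum_mul_sum]
    simp_rw [Finset.mul_sum, ← Finset.sum_add_distrib, ← Finset.sum_sub_distrib]
    apply Finset.sum_congr rfl
    intro i _
    apply Finset.sum_congr rfl
    intro j _
    simp only [map_mul, map_pow, Complex.conj_ofReal]
    ring

end Pool.Agent.S06212
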