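import Pool.Statements.S06217
import Pool.Agent.H83.CH.Star

set_option autoImplicit false
open Pool Pool.MP_cf7d1d_an

namespace Pool.Agent.S06217

/-- There is a subset K of C^2 homeomorphic to the Cantor space whose polynomial hull differs from K and equals its rational hull (points z such that every polynomial vanishing at z vanishes somewhere on K). -/
theorem result :
    ∃ K : Set (Fin 2 → ℂ),
      Nonempty (↥K ≃ₜ (ℕ → Bool)) ∧
      {z : Fin 2 → ℂ | ∀ p : MvPolynomial (Fin 2) ℂ,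
          ∃ w ∈ K, ‖MvPolynomial.eval z p‖ ≤ ‖MvPolynomial.eval w p‖} ≠ K ∧
      {z : Fin 2 → ℂ | ∀ p : MvPolynomial (Fin 2) ℂ,
          ∃ w ∈ K, ‖MvPolynomial.eval z p‖ ≤ ‖MvPolynomial.eval w p‖} =
      {z : Fin 2 → ℂ | ∀ p : MvPolynomial (Fin 2) ℂ,
          MvPolynomial.eval z p = 0 → ∃ w ∈ K, MvPolynomial.eval w p = 0} := by
  obtain ⟨D, hD, hiff, z, hzD, hz⟩ := Pool.Agent.H83.CH.main2
  set e : Pool.Agent.H83.CH.E2 ≃ₜ (Fin 2 → ℂ) :=
    (EuclideanSpace.equiv (Fin 2) ℂ).toHomeomorph with he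
  have hev : ∀ (p : MvPolynomial (Fin 2) ℂ) (x : Pool.Agent.H83.CH.E2),
      MvPolynomial.eval (e x) p = Pool.Agent.H83.CH.pev p x := fun p x => rfl
  have hh : ∀ x : Pool.Agent.H83.CH.E2, (∀ p : MvPolynomial (Fin 2) ℂ,
      ∃ w ∈ e '' D, ‖MvPolynomial.eval (e x) p‖ ≤ ‖MvPolynomial.eval w p‖) ↔
      (∀ p : MvPolynomial (Fin 2) ℂ, ∃ w ∈ D,
        ‖Pool.Agent.H83.CH.pev p x‖ ≤ ‖Pool.Agent.H83.CH.pev p w‖) := by
    intro x
    simp only [Set.exists_mem_image, hev]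
  have hr : ∀ x : Pool.Agent.H83.CH.E2, (∀ p : MvPolynomial (Fin 2) ℂ,
      MvPolynomial.eval (e x) p = 0 → ∃ w ∈ e '' D, MvPolynomial.eval w p = 0) ↔
      (∀ p : MvPolynomial (Fin 2) ℂ, Pool.Agent.H83.CH.pev p x = 0 → ∃ w ∈ D,
        Pool.Agent.H83.CH.pev p w = 0) := by
    intro x
    simp only [Set.exists_mem_image, hev]
  refine ⟨e '' D, ?_, ?_, ?_⟩
  · obtain ⟨h⟩ := hD
    exact ⟨(e.image D).symm.trans h⟩
  · intro heq
    have h1 : e z ∈ e '' D := by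
      rw [← heq]
      exact (hh z).2 hz
    obtain ⟨w, hw, hwz⟩ := h1
    exact hzD (e.injective hwz ▸ hw)
  · ext y
    obtain ⟨x, rfl⟩ := e.surjective y
    exact (hh x).trans ((hiff x).trans (hr x).symm)

end Pool.Agent.S06217
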