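import Pool.Statements.S06856
import Pool.Agent.H66.PlichkoFinal

set_option autoImplicit false
open Pool Pool.MP_ff7d48_an

namespace Pool.Agent.S06856

open Pool.Agent.H66.Plichko

/-- The negation of the preceding statement: For every set Γ, every closed subspace S of real ℓ1(Γ) has a linearly dense set M and a norming subspace N of its dual such that each functional in N is nonzero on only countably many elements of M, i.e. S is Plichko. -/
theorem result :
    ¬ (∀ (Γ : Type) (S : Submodule ℝ (lp (fun _ : Γ => ℝ) 1)),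
      IsClosed (S : Set (lp (fun _ : Γ => ℝ) 1)) →
        ∃ (M : Set ↥S) (N : Submodule ℝ (↥S →L[ℝ] ℝ)),
          Dense (Submodule.span ℝ M : Set ↥S) ∧
          (∃ r : ℝ, 0 < r ∧ ∀ x : ↥S, x ≠ 0 →
              ∃ f ∈ N, ‖f‖ ≤ 1 ∧ r * ‖x‖ < |f x|) ∧
          ∀ f ∈ N, Set.Countable {m : ↥S | m ∈ M ∧ f m ≠ 0}) := by
  intro h
  obtain ⟨M, N, hM, ⟨r, hr, hN⟩, hc⟩ := h (Set (List Bool)) (Z (List Bool)) isClosed_Z
  have hcomp : CompleteSpace (Z (List Bool)) := isClosed_Z.completeSpace_coe
  let S : Set (Z (List Bool)) := Set.range fun F : Finset (List Bool) =>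
    (⟨zF F, zF_mem F⟩ : Z (List Bool))
  obtain ⟨P, D, hD, hP, hPD⟩ := exists_projection M N hM r hr hN hc S (Set.countable_range _)
  have hunc : ¬ (Set.univ : Set (ℕ → Bool)).Countable := by
    rw [Set.countable_univ_iff]
    intro hcount
    obtain ⟨f, hf⟩ := exists_surjective_nat (ℕ → Bool)
    obtain ⟨n, hn⟩ := hf fun k => !(f k k)
    have h1 := congrFun hn n
    simp at h1
  exact no_projection AD AD_injective (fun x y hxy => AD_finite x y hxy) hunc P
    (fun F => hP _ ⟨F, rfl⟩) D hD hPD

end Pool.Agent.S06856
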