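-- Proof of frozen statement S07661 (MP_238aad_co).
import Pool.Statements.S07661

set_option autoImplicit false
open Pool Pool.MP_238aad_co

namespace Pool.Agent.S07661

/-- Nonprincipality gives that complements of singletons are in `U`. -/
lemma compl_singleton_mem (U : Ultrafilter ℕ) (hU : ∀ n : ℕ, U ≠ pure n) (n : ℕ) :
    ({n}ᶜ : Set ℕ) ∈ U := by
  by_contra h
  have h1 : ({n} : Set ℕ) ∈ U := by
    have := (Ultrafilter.compl_notMem_iff (f := U) (s := ({n} : Set ℕ))).1 h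
    exact this
  apply hU n
  apply Ultrafilter.coe_injective
  have h2 : (U : Filter ℕ) ≤ pure n := by
    rw [Filter.le_pure_iff]
    exact h1
  exact (Ultrafilter.unique (pure n) h2).symm ▸ rfl

lemma empty_compl_mem (U : Ultrafilter ℕ) : (∅ᶜ : Set ℕ) ∈ U := by
  rw [Set.compl_empty]
  exact Filter.univ_mem

/-- `w` can be avoided from some large set after adding `F`. -/
def Avoid (U : Ultrafilter ℕ) (c : Set ℕ → Set ℕ) (F : Set ℕ) (w : ℕ) : Prop :=
  ∃ T : Set ℕ, T ∈ U ∧ ∀ I : Set ℕ, I ⊆ T → Iᶜ ∈ U → w ∉ c (I ∪ F)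

lemma avoid_mem (U : Ultrafilter ℕ) (c : Set ℕ → Set ℕ) (hc : Monotone c)
    (hcJ : ∀ I : Set ℕ, Iᶜ ∈ U → (c I)ᶜ ∈ U) (F : Set ℕ) (hF : Fᶜ ∈ U) :
    {w | Avoid U c F w} ∈ U := by
  classical
  by_contra hcon
  have hR : {w | ¬ Avoid U c F w} ∈ U := by
    have := (Ultrafilter.compl_mem_iff_notMem (f := U)).2 hcon
    exact this
  -- one step
  have step : ∀ (w : ℕ) (P : {P : Set ℕ // Pᶜ ∈ U}), ∃ XY : Set ℕ × Set ℕ,
      XY.1 ⊆ P.1ᶜ ∧ XY.2 ⊆ (P.1 ∪ XY.1)ᶜ ∧ XY.1ᶜ ∈ U ∧ XY.2ᶜ ∈ U ∧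
      (¬ Avoid U c F w → w ∈ c (XY.1 ∪ F) ∧ w ∈ c (XY.2 ∪ F)) := by
    intro w P
    by_cases hw : Avoid U c F w
    · refine ⟨(∅, ∅), by simp, by simp, empty_compl_mem U, empty_compl_mem U, fun h => absurd hw h⟩
    · have h1 : ∀ T : Set ℕ, T ∈ U → ∃ I : Set ℕ, I ⊆ T ∧ Iᶜ ∈ U ∧ w ∈ c (I ∪ F) := by
        intro T hT
        by_contra hne
        push Not at hne
        exact hw ⟨T, hT, fun I hI hI' => hne I hI hI'⟩
      obtain ⟨X, hX1, hX2, hX3⟩ := h1 P.1ᶜ P.2
      have hPX : (P.1 ∪ X)ᶜ ∈ U := by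
        rw [Set.compl_union]
        exact Filter.inter_mem P.2 hX2
      obtain ⟨Y, hY1, hY2, hY3⟩ := h1 (P.1 ∪ X)ᶜ hPX
      exact ⟨(X, Y), hX1, hY1, hX2, hY2, fun _ => ⟨hX3, hY3⟩⟩
  choose XY h1 h2 h3 h4 h5 using step
  let S : ℕ → {P : Set ℕ // Pᶜ ∈ U} := fun n => Nat.rec ⟨∅, empty_compl_mem U⟩
    (fun w P => ⟨P.1 ∪ (XY w P).1 ∪ (XY w P).2, by
      rw [Set.compl_union, Set.compl_union]
      exact Filter.inter_mem (Filter.inter_mem P.2 (h3 w P)) (h4 w P)⟩) n
  have hS : ∀ w, (S (w+1)).1 = (S w).1 ∪ (XY w (S w)).1 ∪ (XY w (S w)).2 := fun w => rfl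
  have hSmono : Monotone (fun n => (S n).1) := by
    apply monotone_nat_of_le_succ
    intro n x hx
    show x ∈ (S (n+1)).1
    rw [hS]
    exact Or.inl (Or.inl hx)
  set X : Set ℕ := ⋃ w, (XY w (S w)).1 with hXdef
  set Y : Set ℕ := ⋃ w, (XY w (S w)).2 with hYdef
  have hdisj : ∀ x, x ∈ X → x ∉ Y := by
    intro x hx hy
    rw [hXdef, Set.mem_iUnion] at hx
    rw [hYdef, Set.mem_iUnion] at hy
    obtain ⟨v, hv⟩ := hx
    obtain ⟨u, hu⟩ := hy
    rcases lt_trichotomy v u with h | h | h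
    · have hxS : x ∈ (S (v+1)).1 := by
        rw [hS]; exact Or.inl (Or.inr hv)
      have hxS' : x ∈ (S u).1 := hSmono h hxS
      have := h2 u (S u) hu
      exact this (Or.inl hxS')
    · subst h
      exact h2 v (S v) hu (Or.inr hv)
    · have hxS : x ∈ (S (u+1)).1 := by
        rw [hS]; exact Or.inr hu
      have hxS' : x ∈ (S v).1 := hSmono h hxS
      exact h1 v (S v) hv hxS'
  have key : ∀ W : Set ℕ, Wᶜ ∈ U → (∀ w, ¬ Avoid U c F w → w ∈ c (W ∪ F)) → False := by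
    intro W hW hWc
    have h6 : (W ∪ F)ᶜ ∈ U := by
      rw [Set.compl_union]; exact Filter.inter_mem hW hF
    have h7 := hcJ _ h6
    have h8 := Filter.inter_mem h7 hR
    have h9 : (c (W ∪ F))ᶜ ∩ {w | ¬ Avoid U c F w} = ∅ := by
      ext w
      simp only [Set.mem_inter_iff, Set.mem_compl_iff, Set.mem_ofPred_eq, Set.mem_empty_iff_false,
        iff_false, not_and, not_not]
      intro hw
      by_contra hA
      exact hw (hWc w hA)
    rw [h9] at h8
    exact Ultrafilter.empty_notMem h8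
  by_cases hX : Xᶜ ∈ U
  · apply key X hX
    intro w hw
    have := (h5 w (S w) hw).1
    refine hc ?_ this
    apply Set.union_subset_union_left
    exact Set.subset_iUnion (fun w => (XY w (S w)).1) w
  · have hXU : X ∈ U := by
      have := (Ultrafilter.compl_notMem_iff (f := U) (s := X)).1 hX
      exact this
    have hY : Yᶜ ∈ U := Filter.mem_of_superset hXU (fun x hx => hdisj x hx)
    apply key Y hY
    intro w hw
    have := (h5 w (S w) hw).2
    refine hc ?_ this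
    apply Set.union_subset_union_left
    exact Set.subset_iUnion (fun w => (XY w (S w)).2) w

/-- A position of the first player. -/
structure St (U : Ultrafilter ℕ) (c : Set ℕ → Set ℕ) where
  L : Set ℕ
  T : Set ℕ
  z : ℕ
  hL : Lᶜ ∈ U
  hT : T ∈ U
  hzT : z ∉ T
  hzL : z ∉ L
  hz : ∀ I : Set ℕ, I ⊆ T → Iᶜ ∈ U → z ∉ c (I ∪ L)

lemma exists_St (U : Ultrafilter ℕ) (hU : ∀ n : ℕ, U ≠ pure n) (c : Set ℕ → Set ℕ)
    (hc : Monotone c) (hcJ : ∀ I : Set ℕ, Iᶜ ∈ U → (c I)ᶜ ∈ U)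
    (L : Set ℕ) (hL : Lᶜ ∈ U) (T : Set ℕ) (hT : T ∈ U) :
    ∃ s : St U c, s.L = L ∧ s.T ⊆ T ∧ s.z ∈ T := by
  have h1 := avoid_mem U c hc hcJ L hL
  have h2 : {w | Avoid U c L w} ∩ (T ∩ Lᶜ) ∈ U := Filter.inter_mem h1 (Filter.inter_mem hT hL)
  obtain ⟨z, hz1, hz2, hz3⟩ := Ultrafilter.nonempty_of_mem h2
  obtain ⟨T', hT', h3⟩ := hz1
  refine ⟨⟨L, T' ∩ T ∩ {z}ᶜ, z, hL, ?_, ?_, hz3, ?_⟩, rfl, ?_, hz2⟩
  · exact Filter.inter_mem (Filter.inter_mem hT' hT) (compl_singleton_mem U hU z)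
  · simp
  · intro I hI hI'
    exact h3 I (fun x hx => (hI hx).1.1) hI'
  · intro x hx
    exact hx.1.2

/-- the core combinatorial statement -/
lemma core (U : Ultrafilter ℕ) (hU : ∀ n : ℕ, U ≠ pure n) (c : Set ℕ → Set ℕ)
    (hc : Monotone c) (hcJ : ∀ I : Set ℕ, Iᶜ ∈ U → (c I)ᶜ ∈ U) :
    ∃ (T : Set ℕ) (z : ℕ → ℕ), T ∈ U ∧ Function.Injective z ∧ (∀ k, z k ∉ T) ∧
      ∀ k, ∀ I : Set ℕ, Iᶜ ∈ U → I ⊆ (T ∪ Set.range z) \ {z k} → z k ∉ c I := by
  classical
  -- a play won by the second player gives the conclusion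
  have play : ∀ (s : ℕ → St U c) (F : ℕ → Set ℕ), (∀ k, F k ⊆ (s k).T) →
      (∀ k, (s (k+1)).L = (s k).L ∪ {(s k).z} ∪ F k) → (∀ k, (s (k+1)).T ⊆ (s k).T) →
      (∀ k, (s (k+1)).z ∈ (s k).T) → (⋃ k, F k) ∈ U →
      ∃ (T : Set ℕ) (z : ℕ → ℕ), T ∈ U ∧ Function.Injective z ∧ (∀ k, z k ∉ T) ∧
      ∀ k, ∀ I : Set ℕ, Iᶜ ∈ U → I ⊆ (T ∪ Set.range z) \ {z k} → z k ∉ c I := by
    intro s F hF hL hT hz hU'
    have hTanti : Antitone (fun k => (s k).T) := antitone_nat_of_succ_le hT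
    have hLmono : Monotone (fun k => (s k).L) := by
      apply monotone_nat_of_le_succ
      intro n x hx
      show x ∈ (s (n+1)).L
      rw [hL]
      exact Or.inl (Or.inl hx)
    have hFL : ∀ j k, j < k → F j ⊆ (s k).L := by
      intro j k hjk x hx
      have : x ∈ (s (j+1)).L := by rw [hL]; exact Or.inr hx
      exact hLmono hjk this
    have hzL : ∀ j k, j < k → (s j).z ∈ (s k).L := by
      intro j k hjk
      have : (s j).z ∈ (s (j+1)).L := by rw [hL]; exact Or.inl (Or.inr rfl)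
      exact hLmono hjk this
    have hFT : ∀ j k, k ≤ j → F j ⊆ (s k).T := fun j k hkj x hx => hTanti hkj (hF j hx)
    have hzT : ∀ j k, k < j → (s j).z ∈ (s k).T := by
      intro j k hkj
      obtain ⟨i, rfl⟩ : ∃ i, j = i + 1 := ⟨j - 1, by omega⟩
      exact hTanti (by omega : k ≤ i) (hz i)
    refine ⟨⋃ k, F k, fun k => (s k).z, hU', ?_, ?_, ?_⟩
    · intro j k hjk
      simp only at hjk
      by_contra hne
      rcases lt_or_gt_of_ne hne with h | h
      · exact (s k).hzL (hjk ▸ hzL j k h)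
      · exact (s j).hzL (hjk ▸ hzL k j h)
    · intro k hk
      rw [Set.mem_iUnion] at hk
      obtain ⟨j, hj⟩ := hk
      rcases lt_or_ge j k with h | h
      · exact (s k).hzL (hFL j k h hj)
      · exact (s k).hzT (hFT j k h hj)
    · intro k I hI hsub hmem
      have hIsub : I ⊆ (I ∩ (s k).T) ∪ (s k).L := by
        intro x hx
        obtain ⟨h1, h2⟩ := hsub hx
        rcases h1 with h1 | h1
        · rw [Set.mem_iUnion] at h1
          obtain ⟨j, hj⟩ := h1
          rcases lt_or_ge j k with h | h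
          · exact Or.inr (hFL j k h hj)
          · exact Or.inl ⟨hx, hFT j k h hj⟩
        · obtain ⟨j, rfl⟩ := h1
          rcases lt_trichotomy j k with h | h | h
          · exact Or.inr (hzL j k h)
          · subst h; exact absurd rfl h2
          · exact Or.inl ⟨hx, hzT j k h⟩
      refine (s k).hz (I ∩ (s k).T) Set.inter_subset_right ?_ (hc hIsub hmem)
      exact Filter.mem_of_superset hI (Set.compl_subset_compl.2 Set.inter_subset_left)
  -- next move
  have next : ∀ (s : St U c) (F : {F : Set ℕ // Fᶜ ∈ U}), ∃ s' : St U c,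
      s'.L = s.L ∪ {s.z} ∪ F.1 ∧ s'.T ⊆ s.T ∧ s'.z ∈ s.T := by
    intro s F
    apply exists_St U hU c hc hcJ _ _ s.T s.hT
    rw [Set.compl_union, Set.compl_union]
    exact Filter.inter_mem (Filter.inter_mem s.hL (compl_singleton_mem U hU _)) F.2
  choose nx hnx1 hnx2 hnx3 using next
  obtain ⟨s0, -, -, -⟩ := exists_St U hU c hc hcJ ∅ (empty_compl_mem U) Set.univ Filter.univ_mem
  -- moves of the second player
  have hmove : ∀ (a b : St U c) (k : ℕ), (((b.T)ᶜ ∪ {k}) ∩ a.T)ᶜ ∈ U := by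
    intro a b k
    have : b.T ∩ {k}ᶜ ∈ U := Filter.inter_mem b.hT (compl_singleton_mem U hU k)
    refine Filter.mem_of_superset this ?_
    intro x hx hx'
    rcases hx'.1 with h | h
    · exact h hx.1
    · exact hx.2 h
  let mv : St U c → St U c → ℕ → {F : Set ℕ // Fᶜ ∈ U} :=
    fun a b k => ⟨((b.T)ᶜ ∪ {k}) ∩ a.T, hmove a b k⟩
  let stp : ℕ → St U c × St U c → St U c × St U c := fun k q =>
    (nx q.1 (mv q.1 q.2 k), nx q.2 (mv q.2 (nx q.1 (mv q.1 q.2 k)) k))
  let q : ℕ → St U c × St U c := fun n => Nat.rec (s0, s0) stp n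
  have hq0 : q 0 = (s0, s0) := rfl
  have hq1 : ∀ k, (q (k+1)).1 = nx (q k).1 (mv (q k).1 (q k).2 k) := fun k => rfl
  have hq2 : ∀ k, (q (k+1)).2 = nx (q k).2 (mv (q k).2 (q (k+1)).1 k) := fun k => rfl
  set FA : ℕ → Set ℕ := fun k => (mv (q k).1 (q k).2 k).1 with hFA
  set FB : ℕ → Set ℕ := fun k => (mv (q k).2 (q (k+1)).1 k).1 with hFB
  have hcover : s0.T ⊆ (⋃ k, FA k) ∪ (⋃ k, FB k) := by
    intro n hn
    by_contra hcon
    rw [Set.mem_union, Set.mem_iUnion, Set.mem_iUnion, not_or, not_exists, not_exists] at hcon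
    obtain ⟨hA, hB⟩ := hcon
    have ind : ∀ k, n ∈ (q k).1.T ∧ n ∈ (q k).2.T := by
      intro k
      induction k with
      | zero => exact ⟨hn, hn⟩
      | succ k ih =>
        have h1 : n ∈ (q (k+1)).1.T := by
          by_contra h
          exact hB k ⟨Or.inl h, ih.2⟩
        refine ⟨h1, ?_⟩
        by_contra h
        exact hA (k+1) ⟨Or.inl h, h1⟩
    exact hA n ⟨Or.inr rfl, (ind n).1⟩
  have hU' : (⋃ k, FA k) ∪ (⋃ k, FB k) ∈ U := Filter.mem_of_superset s0.hT hcover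
  rcases Ultrafilter.union_mem_iff.1 hU' with h | h
  · apply play (fun k => (q k).1) FA _ _ _ _ h
    · intro k
      exact Set.inter_subset_right
    · intro k
      show (q (k+1)).1.L = _
      rw [hq1, hnx1]
    · intro k
      show (q (k+1)).1.T ⊆ _
      rw [hq1]
      exact hnx2 _ _
    · intro k
      show (q (k+1)).1.z ∈ _
      rw [hq1]
      exact hnx3 _ _
  · apply play (fun k => (q k).2) FB _ _ _ _ h
    · intro k
      exact Set.inter_subset_right
    · intro k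
      show (q (k+1)).2.L = _
      rw [hq2, hnx1]
    · intro k
      show (q (k+1)).2.T ⊆ _
      rw [hq2]
      exact hnx2 _ _
    · intro k
      show (q (k+1)).2.z ∈ _
      rw [hq2]
      exact hnx3 _ _

/-- An injection of `ℕ` into a given member of `U` that fixes `U`. -/
lemma exists_emb (U : Ultrafilter ℕ) (hU : ∀ n : ℕ, U ≠ pure n) (T : Set ℕ) (hT : T ∈ U) :
    ∃ (e : ℕ → ℕ) (A : Set ℕ), Function.Injective e ∧ (∀ n, e n ∈ T) ∧ A ∈ U ∧ ∀ n ∈ A, e n = n := by
  classical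
  have hTinf : T.Infinite := by
    intro hfin
    have : (Tᶜ : Set ℕ) ∈ U := by
      have h1 : Tᶜ = ⋂ n ∈ T, ({n}ᶜ : Set ℕ) := by
        ext x
        simp only [Set.mem_compl_iff, Set.mem_iInter, Set.mem_singleton_iff]
        constructor
        · intro hx i hi hxi
          exact hx (hxi ▸ hi)
        · intro h hx
          exact h x hx rfl
      rw [h1]
      exact (Filter.biInter_mem hfin).2 (fun n _ => compl_singleton_mem U hU n)
    have h2 := Filter.inter_mem hT this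
    rw [Set.inter_compl_self] at h2
    exact Ultrafilter.empty_notMem h2
  let m : ℕ ↪ T := hTinf.natEmbedding
  have hm : Function.Injective (fun n => (m n : ℕ)) := fun a b h => m.injective (Subtype.ext h)
  -- choose A
  have hA : ∃ (A : Set ℕ) (r : ℕ → ℕ), A ∈ U ∧ A ⊆ T ∧ Function.Injective r ∧
      (∀ n, r n ∈ T) ∧ ∀ n, r n ∉ A := by
    let Se : Set ℕ := Set.range (fun n => (m (2*n) : ℕ))
    by_cases h : T \ Se ∈ U
    · refine ⟨T \ Se, fun n => m (2*n), h, Set.sdiff_subset, ?_, fun n => (m (2*n)).2, ?_⟩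
      · intro a b hab
        have := hm hab
        omega
      · intro n hn
        exact hn.2 ⟨n, rfl⟩
    · have hSe : Se ∈ U := by
        have h1 : (T \ Se) ∪ Se ∈ U := Filter.mem_of_superset hT (by
          intro x hx
          by_cases hx' : x ∈ Se
          · exact Or.inr hx'
          · exact Or.inl ⟨hx, hx'⟩)
        rcases Ultrafilter.union_mem_iff.1 h1 with h2 | h2
        · exact absurd h2 h
        · exact h2
      refine ⟨Se, fun n => m (2*n+1), hSe, ?_, ?_, fun n => (m (2*n+1)).2, ?_⟩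
      · rintro x ⟨n, rfl⟩
        exact (m (2*n)).2
      · intro a b hab
        have := hm hab
        omega
      · rintro n ⟨k, hk⟩
        have := hm hk
        omega
  obtain ⟨A, r, hAU, hAT, hr, hrT, hrA⟩ := hA
  refine ⟨fun n => if n ∈ A then n else r n, A, ?_, ?_, hAU, ?_⟩
  · intro a b hab
    by_cases ha : a ∈ A <;> by_cases hb : b ∈ A
    · simpa [ha, hb] using hab
    · simp only [ha, hb, if_true, if_false] at hab
      exact absurd ha (hab ▸ hrA b)
    · simp only [ha, hb, if_true, if_false] at hab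
      exact absurd hb (hab ▸ hrA a)
    · simp only [ha, hb, if_false] at hab
      exact hr hab
  · intro n
    by_cases ha : n ∈ A
    · simp only [ha, if_true]; exact hAT ha
    · simp only [ha, if_false]; exact hrT n
  · intro n hn
    simp [hn]

/-- For every nonprincipal ultrafilter U on ℕ (ordered by inclusion) and monotone f:U→U whose images of coatoms have no common lower bound in f(U), U is a retract of f(U) via monotone maps g, h with g∘h = id. -/
theorem result :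
    ∀ U : Ultrafilter ℕ, (∀ n : ℕ, U ≠ pure n) →
      ∀ f : {s : Set ℕ // s ∈ U} → {s : Set ℕ // s ∈ U}, Monotone f →
        (¬ ∃ y : {s : Set ℕ // s ∈ U}, y ∈ Set.range f ∧
            ∀ c : {s : Set ℕ // s ∈ U},
              (c.1 ≠ Set.univ ∧ ∀ t : {s : Set ℕ // s ∈ U}, c.1 ⊆ t.1 → t.1 = c.1 ∨ t.1 = Set.univ) →
              y ≤ f c) →
        ∃ g : ↥(Set.range f) → {s : Set ℕ // s ∈ U},
          ∃ h : {s : Set ℕ // s ∈ U} → ↥(Set.range f),
            Monotone g ∧ Monotone h ∧ ∀ x, g (h x) = x := by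
  classical
  intro U hU f hf hno
  have hco := compl_singleton_mem U hU
  -- images of the coatoms
  let B : ℕ → {s : Set ℕ // s ∈ U} := fun n => f ⟨{n}ᶜ, hco n⟩
  have hfB : ∀ (A : {s : Set ℕ // s ∈ U}) (n : ℕ), n ∉ A.1 → f A ≤ B n := by
    intro A n hn
    apply hf
    show A.1 ⊆ {n}ᶜ
    intro x hx hxn
    rw [Set.mem_singleton_iff] at hxn
    subst hxn
    exact hn hx
  have hno' : ∀ A : {s : Set ℕ // s ∈ U}, ¬ ∀ n, f A ≤ B n := by
    intro A hA
    apply hno
    refine ⟨f A, ⟨A, rfl⟩, ?_⟩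
    rintro c ⟨hc1, hc2⟩
    obtain ⟨n, hn⟩ : ∃ n, n ∉ c.1 := by
      by_contra h
      push Not at h
      exact hc1 (Set.eq_univ_of_forall h)
    have hcn : c = ⟨{n}ᶜ, hco n⟩ := by
      rcases hc2 ⟨{n}ᶜ, hco n⟩ (by
        intro x hx hxn
        rw [Set.mem_singleton_iff] at hxn
        subst hxn
        exact hn hx) with h | h
      · exact Subtype.ext h.symm
      · exfalso
        have : n ∈ ({n}ᶜ : Set ℕ) := by
          have h' : ({n}ᶜ : Set ℕ) = Set.univ := h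
          rw [h']; trivial
        exact this rfl
    rw [hcn]
    exact hA n
  -- the set G(y)
  have hGU : ∀ y ∈ Set.range f, {n | ¬ y ≤ B n} ∈ U := by
    rintro y ⟨A, rfl⟩
    by_contra hcon
    have h1 : {n | ¬ f A ≤ B n}ᶜ ∈ U := (Ultrafilter.compl_mem_iff_notMem (f := U)).2 hcon
    have h2 : A.1 ∩ {n | ¬ f A ≤ B n}ᶜ ∈ U := Filter.inter_mem A.2 h1
    apply hno' ⟨_, h2⟩
    intro n
    by_cases hn : n ∈ A.1 ∩ {n | ¬ f A ≤ B n}ᶜ
    · have h3 : f A ≤ B n := by
        have := hn.2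
        simpa using this
      refine le_trans (hf ?_) h3
      exact Set.inter_subset_left
    · exact hfB _ n hn
  -- the dual map
  let c : Set ℕ → Set ℕ := fun I => {n | ∀ h : Iᶜ ∈ U, f ⟨Iᶜ, h⟩ ≤ B n}
  have hcmono : Monotone c := by
    intro I I' hII n hn h
    have hsub : I'ᶜ ⊆ Iᶜ := Set.compl_subset_compl.2 hII
    have h' : Iᶜ ∈ U := Filter.mem_of_superset h hsub
    exact le_trans (hf hsub) (hn h')
  have hcJ : ∀ I : Set ℕ, Iᶜ ∈ U → (c I)ᶜ ∈ U := by
    intro I hI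
    refine Filter.mem_of_superset (hGU (f ⟨Iᶜ, hI⟩) ⟨_, rfl⟩) ?_
    intro n hn hn'
    exact hn (hn' hI)
  obtain ⟨T, z, hT, hzinj, hzT, hz⟩ := core U hU c hcmono hcJ
  obtain ⟨e, A0, heinj, heT, hA0, heA0⟩ := exists_emb U hU T hT
  -- transfer along e
  have hpre : ∀ G : Set ℕ, G ∈ U → {n | e n ∈ G} ∈ U := by
    intro G hG
    refine Filter.mem_of_superset (Filter.inter_mem hG hA0) ?_
    intro n hn
    show e n ∈ G
    rw [heA0 n hn.2]
    exact hn.1
  have himg : ∀ A : Set ℕ, A ∈ U → e '' A ∈ U := by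
    intro A hA
    refine Filter.mem_of_superset (Filter.inter_mem hA hA0) ?_
    intro n hn
    exact ⟨n, hn.1, heA0 n hn.2⟩
  let Ih : Set ℕ → Set ℕ := fun A => (e '' Aᶜ) ∪ (z '' Aᶜ)
  have hIh : ∀ A : Set ℕ, A ∈ U → (Ih A)ᶜ ∈ U := by
    intro A hA
    refine Filter.mem_of_superset (himg A hA) ?_
    rintro x ⟨n, hn, rfl⟩ hx
    rcases hx with ⟨m, hm, hmn⟩ | ⟨m, hm, hmn⟩
    · rw [heinj hmn] at hm
      exact hm hn
    · exact hzT m (hmn ▸ heT n)
  refine ⟨fun y => ⟨{n | ¬ (y.1 ≤ B (e n) ∧ y.1 ≤ B (z n))}, ?_⟩,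
    fun A => ⟨f ⟨(Ih A.1)ᶜ, hIh A.1 A.2⟩, ⟨_, rfl⟩⟩, ?_, ?_, ?_⟩
  · refine Filter.mem_of_superset (hpre _ (hGU y.1 y.2)) ?_
    intro n hn hn'
    exact hn hn'.1
  · intro y y' hyy' n hn hn'
    exact hn ⟨le_trans hyy' hn'.1, le_trans hyy' hn'.2⟩
  · intro A A' hAA'
    show f _ ≤ f _
    apply hf
    show (Ih A.1)ᶜ ⊆ (Ih A'.1)ᶜ
    apply Set.compl_subset_compl.2
    have : A'.1ᶜ ⊆ A.1ᶜ := Set.compl_subset_compl.2 hAA'
    exact Set.union_subset_union (Set.image_mono this) (Set.image_mono this)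
  · intro A
    apply Subtype.ext
    ext n
    constructor
    · intro hn
      by_contra hnA
      apply hn
      constructor
      · apply hfB
        intro h
        exact h (Or.inl ⟨n, hnA, rfl⟩)
      · apply hfB
        intro h
        exact h (Or.inr ⟨n, hnA, rfl⟩)
    · intro hnA hn
      have h1 : z n ∉ c (Ih A.1) := by
        apply hz n (Ih A.1) (hIh A.1 A.2)
        rintro x hx
        refine ⟨?_, ?_⟩
        · rcases hx with ⟨m, hm, rfl⟩ | ⟨m, hm, rfl⟩
          · exact Or.inl (heT m)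
          · exact Or.inr ⟨m, rfl⟩
        · intro hxz
          rw [Set.mem_singleton_iff] at hxz
          rcases hx with ⟨m, hm, hmx⟩ | ⟨m, hm, hmx⟩
          · exact hzT n (hxz ▸ hmx ▸ heT m)
          · rw [hxz] at hmx
            rw [hzinj hmx] at hm
            exact hm hnA
      apply h1
      intro h
      exact hn.2

end Pool.Agent.S07661
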