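-- Proof of the frozen statement S08173 (MP_39b38a_co): bipartite case of the signed-graph
-- homomorphism conjecture; the work is in Pool/Agent/H55/K4.
import Pool.Statements.S08173
import Pool.Agent.H55.K4.Final

set_option autoImplicit false
open Pool Pool.MP_39b38a_co

namespace Pool.Agent.S08173

/-- Every finite bipartite signed graph with no all-negative K4 signed minor (branch sets positive-connected and pairwise joined by negative edges after some switching) has a switching and a sign-preserving homomorphism to K33 whose negative edges form a perfect matching. -/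
theorem result :
    ∀ (V : Type) [Fintype V] (G : SimpleGraph V) (S : Set (Sym2 V)),
      G.Colorable 2 →
      (¬ ∃ (X : Set V) (B : Fin 4 → Set V),
          (∀ i : Fin 4, ∃ v : V, v ∈ B i) ∧
          (∀ i j : Fin 4, i ≠ j → ∀ v : V, v ∈ B i → v ∉ B j) ∧
          (∀ i : Fin 4, ∀ u : V, u ∈ B i → ∀ v : V, v ∈ B i →
            Relation.ReflTransGen
              (fun a b : V => G.Adj a b ∧ a ∈ B i ∧ b ∈ B i ∧
                ¬ (s(a, b) ∈ S ↔ (a ∈ X ↔ b ∈ X))) u v) ∧
          (∀ i j : Fin 4, i ≠ j → ∃ u : V, u ∈ B i ∧ ∃ v : V, v ∈ B j ∧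
            G.Adj u v ∧ (s(u, v) ∈ S ↔ (u ∈ X ↔ v ∈ X)))) →
      ∃ (X : Set V) (φ : V → Bool × Fin 3),
        ∀ u v : V, G.Adj u v →
          (φ u).1 ≠ (φ v).1 ∧
          ((φ u).2 = (φ v).2 ↔ (s(u, v) ∈ S ↔ (u ∈ X ↔ v ∈ X))) := by
  intro V _ G S hcol hno
  exact Pool.Agent.H55.K4.result_aux G S hcol hno

end Pool.Agent.S08173
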