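import Pool.Statements.S08649
import Pool.Agent.H86.Chung.Upper
import Pool.Agent.H86.Chung.Lower

set_option autoImplicit false
open Pool Pool.MP_4d273f_co

namespace Pool.Agent.S08649

/-- There is a constant C such that for every d ≥ 2, each ratio κ_d/μ_d (over finite graphs and non-adjacent pairs at distance ≤ d) is at most d/3 + C, and some such ratio is at least d/3 − C. -/
theorem result :
    ∃ C : ℝ, ∀ d : ℕ, 2 ≤ d →
      (∀ (n : ℕ) (G : SimpleGraph (Fin n)) (v w : Fin n) (m : ℕ),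
        v ≠ w → ¬ G.Adj v w → 1 ≤ m →
        (∃ f : Fin m → G.Walk v w,
          (∀ i, (f i).IsPath ∧ (f i).length ≤ d) ∧
          ∀ i j, i ≠ j → ∀ x, x ∈ (f i).support → x ∈ (f j).support → x = v ∨ x = w) →
        (¬ ∃ f : Fin (m + 1) → G.Walk v w,
          (∀ i, (f i).IsPath ∧ (f i).length ≤ d) ∧
          ∀ i j, i ≠ j → ∀ x, x ∈ (f i).support → x ∈ (f j).support → x = v ∨ x = w) →
        ∃ S : Finset (Fin n), v ∉ S ∧ w ∉ S ∧
          (∀ p : G.Walk v w, p.IsPath → p.length ≤ d → ∃ x ∈ S, x ∈ p.support) ∧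
          (S.card : ℝ) ≤ ((d : ℝ) / 3 + C) * (m : ℝ)) ∧
      (∃ (n : ℕ) (G : SimpleGraph (Fin n)) (v w : Fin n) (m : ℕ),
        v ≠ w ∧ ¬ G.Adj v w ∧ 1 ≤ m ∧
        (∃ f : Fin m → G.Walk v w,
          (∀ i, (f i).IsPath ∧ (f i).length ≤ d) ∧
          ∀ i j, i ≠ j → ∀ x, x ∈ (f i).support → x ∈ (f j).support → x = v ∨ x = w) ∧
        (¬ ∃ f : Fin (m + 1) → G.Walk v w,
          (∀ i, (f i).IsPath ∧ (f i).length ≤ d) ∧
          ∀ i j, i ≠ j → ∀ x, x ∈ (f i).support → x ∈ (f j).support → x = v ∨ x = w) ∧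
        ∀ S : Finset (Fin n), v ∉ S → w ∉ S →
          (∀ p : G.Walk v w, p.IsPath → p.length ≤ d → ∃ x ∈ S, x ∈ p.support) →
          ((d : ℝ) / 3 - C) * (m : ℝ) ≤ (S.card : ℝ)) := by
  refine ⟨1, fun d hd => ⟨?_, ?_⟩⟩
  · intro n G v w m hvw hadj _ _ hno
    obtain ⟨S, hv, hw, hS, hc⟩ := Pool.Agent.H86.Chung.upper G hvw hadj d m hno
    exact ⟨S, hv, hw, fun p _ hp => hS p hp, hc⟩
  · obtain ⟨n, G, v, w, hvw, hadj, h1, h2, hS⟩ := Pool.Agent.H86.Chung.lower d hd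
    refine ⟨n, G, v, w, 1, hvw, hadj, le_rfl, h1, h2, fun S hv hw h => ?_⟩
    rw [Nat.cast_one, mul_one]
    exact hS S hv hw h

end Pool.Agent.S08649
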