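import Pool.Statements.S09022
import Pool.Agent.H76.NP.ASM
import Pool.Agent.H2.NP.CPX
import Pool.Agent.H52.NP.SPH
import Pool.Agent.H76.NP.QF
import Pool.Agent.H66.NP.FIN
import Pool.Agent.H5.NP.CNT
import Pool.Agent.H50.NP.GAM
import Pool.Agent.H50.NP.MAN
import Pool.Agent.H94.NP.SUS
import Pool.Agent.H49.NP.CVX

set_option autoImplicit false
open Classical Polynomial
open Pool Pool.MP_5d910f_co

namespace Pool.Agent.S09022

/-- The negation of the preceding statement: For every finite flag simplicial complex triangulating the sphere S^(d-1), there is a flag complex whose f-polynomial equals the gamma-polynomial of the sphere's h-polynomial: h(t) = sum over faces s of that complex of t^∣s∣ (1+t)^(d-2∣s∣). -/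
theorem result :
    ¬ (∀ (n d : ℕ) (K : Geometry.SimplicialComplex ℝ (EuclideanSpace ℝ (Fin n))),
      K.faces.Finite →
      Nonempty (K.space ≃ₜ Metric.sphere (0 : EuclideanSpace ℝ (Fin d)) 1) →
      (∀ s : Finset (EuclideanSpace ℝ (Fin n)), s.Nonempty →
        (∀ x ∈ s, ∀ y ∈ s, ({x, y} : Finset (EuclideanSpace ℝ (Fin n))) ∈ K.faces) →
        s ∈ K.faces) →
      ∃ (m : ℕ) (Γ : Finset (Finset (Fin m))),
        (∀ σ ∈ Γ, ∀ τ : Finset (Fin m), τ ⊆ σ → τ ∈ Γ) ∧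
        (∀ s : Finset (Fin m), (∀ x ∈ s, ∀ y ∈ s, ({x, y} : Finset (Fin m)) ∈ Γ) → s ∈ Γ) ∧
        (∀ σ ∈ Γ, 2 * σ.card ≤ d) ∧
        ((1 - (X : ℤ[X])) ^ d +
            ∑ᶠ (σ : Finset (EuclideanSpace ℝ (Fin n))) (_ : σ ∈ K.faces),
              (X : ℤ[X]) ^ σ.card * (1 - (X : ℤ[X])) ^ (d - σ.card)
          = ∑ σ ∈ Γ, (X : ℤ[X]) ^ σ.card * (1 + (X : ℤ[X])) ^ (d - 2 * σ.card))) := by
  exact Pool.Agent.H76.NP.asm Pool.Agent.H2.NP.pf_CPX Pool.Agent.H52.NP.pf_SPH Pool.Agent.H66.NP.pf_FIN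
    Pool.Agent.H5.NP.pf_CNT Pool.Agent.H50.NP.pf_GAM Pool.Agent.H50.NP.pf_MAN
    (Pool.Agent.H76.NP.pf_CHN Pool.Agent.H94.NP.pf_SUS (Pool.Agent.H76.NP.QF.pf_QF Pool.Agent.H49.NP.pf_CVX))

end Pool.Agent.S09022
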