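import Pool.Statements.S09262
import Pool.Agent.H57.Colour

set_option autoImplicit false
open Pool Pool.MP_67c961_co

namespace Pool.Agent.S09262

/-- The negation of the preceding statement: For all r,k ≥ 1 and every finite r-uniform hypergraph H: if the realization of its complex C(H) of ordered edges is ((k−1)(r−1)−1)-connected, then H has no proper k-colouring (no colouring avoiding monochromatic edges). -/
theorem result :
    ¬ (∀ (r k : ℕ), 1 ≤ r → 1 ≤ k →
    ∀ (V : Type) [Fintype V] [DecidableEq V] (H : Finset (Finset V)),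
      (∀ e ∈ H, e.card = r) →
      ∀ X : Set ((Fin r → V) → ℝ),
        X = {x | (∀ f, 0 ≤ x f) ∧ (∑ f, x f) = 1 ∧
              ∃ W : Fin r → Finset V,
                (∀ i j, i ≠ j → Disjoint (W i) (W j)) ∧
                (∀ t : Fin r → V, (∀ j, t j ∈ W j) → Finset.univ.image t ∈ H) ∧
                (∀ f, x f ≠ 0 → ∀ j, f j ∈ W j)} →
      (∀ m : ℕ, m ≤ (k - 1) * (r - 1) →
        ∀ g : EuclideanSpace ℝ (Fin m) → ((Fin r → V) → ℝ),
          ContinuousOn g (Metric.sphere (0 : EuclideanSpace ℝ (Fin m)) 1) →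
          Set.MapsTo g (Metric.sphere (0 : EuclideanSpace ℝ (Fin m)) 1) X →
          ∃ h : EuclideanSpace ℝ (Fin m) → ((Fin r → V) → ℝ),
            ContinuousOn h (Metric.closedBall (0 : EuclideanSpace ℝ (Fin m)) 1) ∧
            Set.MapsTo h (Metric.closedBall (0 : EuclideanSpace ℝ (Fin m)) 1) X ∧
            Set.EqOn h g (Metric.sphere (0 : EuclideanSpace ℝ (Fin m)) 1)) →
      ¬ ∃ c : V → Fin k, ∀ e ∈ H, ∃ u ∈ e, ∃ v ∈ e, c u ≠ c v) := by
  intro hall
  obtain ⟨N, hN, hN3, c, hc⟩ := Pool.Agent.H57.Cn.exists_colouring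
  refine hall 6 3 (by norm_num) (by norm_num) (Pool.Agent.H57.Cn.V N)
    (Pool.Agent.H57.Cn.HH hN)
    (Pool.Agent.H57.Cn.card_HH hN (by omega)) (Pool.Agent.H57.Cn.XS hN) rfl ?_ ⟨c, hc⟩
  intro m hm g hg hgX
  exact Pool.Agent.H57.Cn.ext_XS hN hN3 m (by omega) g hg hgX

end Pool.Agent.S09262
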