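import Pool.Statements.S09417
import Pool.Agent.H49.CE.Final

set_option autoImplicit false
open Pool Pool.MP_70000a_co

namespace Pool.Agent.S09417

/-- For each m ≥ 1 there is ψ such that, over every finite field, every finite simple vector configuration with no M(K_m)-minor admits a linear map to F^ψ vanishing on none of its vectors, i.e. its critical exponent is at most ψ. -/
theorem result :
    ∀ m : ℕ, 1 ≤ m → ∃ ψ : ℕ, ∀ (F : Type) [Field F] [Fintype F] (n : ℕ) (S : Finset (Fin n → F)),
      (∀ v ∈ S, v ≠ 0) →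
      (∀ v ∈ S, ∀ w ∈ S, ∀ c : F, v = c • w → v = w) →
      (¬ ∃ (C : Set (Fin n → F)) (e : {p : Fin m × Fin m // p.1 < p.2} → (Fin n → F)),
          C ⊆ (↑S : Set (Fin n → F)) ∧ Function.Injective e ∧ (∀ a, e a ∈ S) ∧
          ∀ A : Finset {p : Fin m × Fin m // p.1 < p.2},
            Module.finrank F (Submodule.span F (C ∪ e '' (↑A : Set {p : Fin m × Fin m // p.1 < p.2}))) =
              Module.finrank F (Submodule.span F C) +
              Module.finrank F (Submodule.span F
                ((fun a : {p : Fin m × Fin m // p.1 < p.2} =>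
                    ((Pi.single a.1.1 (1 : F) : Fin m → F) - (Pi.single a.1.2 (1 : F) : Fin m → F))) ''
                  (↑A : Set {p : Fin m × Fin m // p.1 < p.2})))) →
      ∃ f : (Fin n → F) →ₗ[F] (Fin ψ → F), ∀ v ∈ S, f v ≠ 0 := by
  intro m hm
  obtain ⟨ψ, h⟩ := CE.C1 CE.final_A CE.final_B m hm
  exact ⟨ψ, fun F _ _ n S h0 h1 h2 => h F n S h0 h1 h2⟩

end Pool.Agent.S09417
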