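import Pool.Statements.S09780
import Pool.Agent.H59.ERC.Even
import Pool.Agent.H59.ERC.Walks

set_option autoImplicit false
open Pool Pool.MP_816b90_co

namespace Pool.Agent.S09780

/-- The negation of the preceding statement: For every finite graph: every induced subgraph can be reduced to a clique by repeatedly contracting non-adjacent pairs whose chordless connecting paths all have even length, iff the graph has no induced odd hole, no antihole on at least 5 vertices, and no odd prism. -/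
theorem result :
    ¬ (∀ (n : ℕ) (G : SimpleGraph (Fin n)),
    (∀ (m : ℕ) (e : Fin m ↪ Fin n),
      ∀ P : (k : ℕ) → SimpleGraph (Fin k) → Prop,
        (∀ k : ℕ, P k (⊤ : SimpleGraph (Fin k))) →
        (∀ (k : ℕ) (H : SimpleGraph (Fin (k+1))) (x y : Fin (k+1)) (φ : Fin (k+1) → Fin k),
          x ≠ y → ¬ H.Adj x y →
          (∀ p : H.Walk x y, p.IsPath →
            (∀ i j : ℕ, i + 1 < j → j ≤ p.length → ¬ H.Adj (p.getVert i) (p.getVert j)) →
            p.length % 2 = 0) →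
          Function.Surjective φ →
          (∀ u v : Fin (k+1), φ u = φ v ↔ (u = v ∨ (u = x ∧ v = y) ∨ (u = y ∧ v = x))) →
          P k (SimpleGraph.fromRel (fun a b : Fin k => ∃ u v : Fin (k+1), φ u = a ∧ φ v = b ∧ H.Adj u v)) →
          P (k+1) H) →
        P m (SimpleGraph.comap (fun i : Fin m => e i) G))
    ↔
    ((¬ ∃ k : ℕ, 5 ≤ k ∧ k % 2 = 1 ∧ Nonempty (SimpleGraph.cycleGraph k ↪g G)) ∧
     (¬ ∃ k : ℕ, 5 ≤ k ∧ Nonempty ((SimpleGraph.cycleGraph k)ᶜ ↪g G)) ∧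
     (¬ ∃ (a1 a2 a3 b1 b2 b3 : Fin n) (p1 : G.Walk a1 b1) (p2 : G.Walk a2 b2) (p3 : G.Walk a3 b3),
        p1.IsPath ∧ p2.IsPath ∧ p3.IsPath ∧
        p1.length % 2 = 1 ∧ p2.length % 2 = 1 ∧ p3.length % 2 = 1 ∧
        (∀ w : Fin n, w ∈ p1.support → w ∉ p2.support) ∧
        (∀ w : Fin n, w ∈ p1.support → w ∉ p3.support) ∧
        (∀ w : Fin n, w ∈ p2.support → w ∉ p3.support) ∧
        ∀ u v : Fin n,
          (u ∈ p1.support ∨ u ∈ p2.support ∨ u ∈ p3.support) →
          (v ∈ p1.support ∨ v ∈ p2.support ∨ v ∈ p3.support) →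
          (G.Adj u v ↔
            (p1.toSubgraph.Adj u v ∨ p2.toSubgraph.Adj u v ∨ p3.toSubgraph.Adj u v ∨
             (u ≠ v ∧ (u = a1 ∨ u = a2 ∨ u = a3) ∧ (v = a1 ∨ v = a2 ∨ v = a3)) ∨
             (u ≠ v ∧ (u = b1 ∨ u = b2 ∨ u = b3) ∧ (v = b1 ∨ v = b2 ∨ v = b3))))))) := by
  intro hall
  have hall' := (hall 33 Pool.Agent.H59.ERC.G).2 ⟨?_, ?_, Pool.Agent.H59.ERC.no_prism⟩ 33
    (Function.Embedding.refl (Fin 33))
    (fun k H => H = ⊤ ∨ ∃ x y : Fin k, x ≠ y ∧ ¬ H.Adj x y ∧ Pool.Agent.H59.ERC.EvS H x y)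
    (fun k => Or.inl rfl)
    (fun k H x y _ hxy hna hev _ _ _ => Or.inr ⟨x, y, hxy, hna, hev⟩)
  · have hG : (SimpleGraph.comap (fun i : Fin 33 => (Function.Embedding.refl (Fin 33)) i)
        Pool.Agent.H59.ERC.G) = Pool.Agent.H59.ERC.G := by
      ext a b
      exact Iff.rfl
    rw [hG] at hall'
    rcases hall' with h | ⟨x, y, hxy, hna, hev⟩
    · have h1 : Pool.Agent.H59.ERC.G.Adj 0 4 := by
        rw [h]
        show (0 : Fin 33) ≠ 4
        decide
      have h2 : ¬ Pool.Agent.H59.ERC.G.Adj 0 4 := by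
        rw [Pool.Agent.H59.ERC.G_adj]
        decide
      exact h2 h1
    · exact Pool.Agent.H59.ERC.no_even_pair hxy hna hev
  · rintro ⟨k, hk, hodd, he⟩
    exact Pool.Agent.H59.ERC.no_hole hk hodd he
  · rintro ⟨k, hk, he⟩
    exact Pool.Agent.H59.ERC.no_antihole hk he

end Pool.Agent.S09780
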