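import Pool.Statements.S10123
import Pool.Agent.H35.CornersCubes

set_option autoImplicit false
open Pool Pool.MP_9095c8_co

namespace Pool.Agent.S10123

open Pool.Agent.H35.Corners in
/-- For a prime `p ≡ 1 (mod 3)` let `f = -1` on the nonzero cubes mod `p` and `f = 1` elsewhere.
The set `A = {(x,y) : f(x) f(y) f(x+y) = -1}` has density `→ 13/27`, is Fourier-uniform, and has
`(1/9 + o(1)) p³ < ((13/27)³ - δ) p³` corners. -/
theorem main_family (ε : ℝ) (hε : 0 < ε) (M : ℕ) : ∃ n : ℕ, M ≤ n + 1 ∧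
    ∃ A : Finset (ZMod (n + 1) × ZMod (n + 1)),
      |(A.card : ℝ) / ((n : ℝ) + 1) ^ 2 - 13 / 27| ≤ ε ∧
      (∀ r : ZMod (n + 1) × ZMod (n + 1), r ≠ 0 →
        ‖∑ x ∈ A, Complex.exp (2 * (Real.pi : ℂ) * Complex.I *
            (((r.1 * x.1 + r.2 * x.2 : ZMod (n + 1)).val : ℂ)) / ((n : ℂ) + 1))‖
          ≤ ε * ((n : ℝ) + 1) ^ 2) ∧
      (((Finset.univ : Finset (ZMod (n + 1) × ZMod (n + 1) × ZMod (n + 1))).filter
          (fun t : ZMod (n + 1) × ZMod (n + 1) × ZMod (n + 1) =>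
            (t.1, t.2.1) ∈ A ∧ (t.1 + t.2.2, t.2.1) ∈ A ∧ (t.1, t.2.1 + t.2.2) ∈ A)).card : ℝ)
        ≤ ((13 / 27) ^ 3 - 1 / 19683) * ((n : ℝ) + 1) ^ 3 := by
  obtain ⟨p, hp, hpB, hp3⟩ := Nat.exists_prime_gt_modEq_one (k := 3)
    (M + ⌈4 / ε ^ 2⌉₊ + 4374 ^ 2) (by norm_num)
  obtain ⟨n, rfl⟩ : ∃ n, p = n + 1 := ⟨p - 1, by have := hp.pos; omega⟩
  haveI : Fact (n + 1).Prime := ⟨hp⟩
  have hmod : (n + 1) % 3 = 1 := hp3
  obtain ⟨k, hk⟩ : ∃ k, n + 1 = 3 * k + 1 := ⟨(n + 1) / 3, by omega⟩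
  have hk0 : 0 < k := by omega
  have hodd : (n + 1) % 2 = 1 := by
    rcases hp.eq_two_or_odd with h | h
    · omega
    · exact h
  set N : ℝ := (n : ℝ) + 1 with hN
  have hNpos : 0 < N := by positivity
  have hcast : ((n + 1 : ℕ) : ℝ) = N := by push_cast; rfl
  -- size facts
  have hN1 : (4374 : ℝ) ^ 2 ≤ N := by
    rw [← hcast]
    have : 4374 ^ 2 ≤ n + 1 := by omega
    exact_mod_cast this
  have hN2 : 4 / ε ^ 2 ≤ N := by
    rw [← hcast]
    have h1 : 4 / ε ^ 2 ≤ (⌈4 / ε ^ 2⌉₊ : ℝ) := Nat.le_ceil _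
    have h2 : ((⌈4 / ε ^ 2⌉₊ : ℕ) : ℝ) ≤ ((n + 1 : ℕ) : ℝ) := by
      have : ⌈4 / ε ^ 2⌉₊ ≤ n + 1 := by omega
      exact_mod_cast this
    exact le_trans h1 h2
  set K : ℝ := 2 * Real.sqrt N with hK
  have hs0 : 0 < Real.sqrt N := Real.sqrt_pos.mpr hNpos
  have hss : Real.sqrt N * Real.sqrt N = N := Real.mul_self_sqrt hNpos.le
  -- `K ≤ ε N`
  have hKε : K ≤ ε * N := by
    have h1 : 2 / ε ≤ Real.sqrt N := by
      apply Real.le_sqrt_of_sq_le
      calc (2 / ε) ^ 2 = 4 / ε ^ 2 := by ring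
        _ ≤ N := hN2
    have h2 : 2 ≤ ε * Real.sqrt N := by
      rw [div_le_iff₀ hε] at h1
      linarith
    calc K = 2 * Real.sqrt N := rfl
      _ ≤ (ε * Real.sqrt N) * Real.sqrt N := mul_le_mul_of_nonneg_right h2 hs0.le
      _ = ε * N := by rw [mul_assoc, hss]
  have hKδ : K ≤ N * (9 / 19683) := by
    have h1 : (4374 : ℝ) ≤ Real.sqrt N := Real.le_sqrt_of_sq_le hN1
    calc K = 2 * Real.sqrt N := rfl
      _ ≤ (Real.sqrt N * (9 / 19683)) * Real.sqrt N := by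
          apply mul_le_mul_of_nonneg_right _ hs0.le
          linarith
      _ = N * (9 / 19683) := by
          rw [mul_right_comm, hss]
  -- the function
  set f : ZMod (n + 1) → ℝ := ff (n + 1) k with hf
  have hfv : ∀ x, f x = 1 ∨ f x = -1 := by
    intro x
    simp only [hf, ff]
    by_cases hx : x ∈ subS (n + 1) k
    · right; simp [hx]
    · left; simp [hx]
  have hKf : ∀ r, ‖ft (fun x => ((f x - 1 / 3 : ℝ) : ℂ)) r‖ ≤ K := by
    intro r
    have := ft_ff_bound k hk0 hk r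
    rw [hcast] at this
    exact this
  have hh : (2 : ZMod (n + 1)) * (((n + 2) / 2 : ℕ) : ZMod (n + 1)) = 1 := by
    have h1 : 2 * ((n + 2) / 2) = (n + 1) + 1 := by omega
    have h2 : ((2 * ((n + 2) / 2) : ℕ) : ZMod (n + 1)) = ((n + 1 + 1 : ℕ) : ZMod (n + 1)) := by
      rw [h1]
    rw [Nat.cast_mul, Nat.cast_add (n + 1) 1, ZMod.natCast_self] at h2
    simpa using h2
  refine ⟨n, by omega, setA f, ?_, ?_, ?_⟩
  · have h1 := final_card f hfv K hKf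
    rw [hcast] at h1
    have h2 : ((setA f).card : ℝ) / N ^ 2 - 13 / 27
        = (((setA f).card : ℝ) - 13 / 27 * N ^ 2) / N ^ 2 := by
      field_simp
    rw [h2, abs_div, abs_of_pos (pow_pos hNpos 2), div_le_iff₀ (pow_pos hNpos 2)]
    calc _ ≤ K * N := h1
      _ ≤ (ε * N) * N := mul_le_mul_of_nonneg_right hKε hNpos.le
      _ = ε * N ^ 2 := by ring
  · rintro ⟨r, s⟩ hrs
    have h1 := fourier_bound f hfv K hKf r s hrs
    rw [hcast] at h1
    have h2 : ∀ t : ZMod (n + 1), Complex.exp (2 * (Real.pi : ℂ) * Complex.I *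
            ((t.val : ℂ)) / ((n : ℂ) + 1)) = (ZMod.stdAddChar t : ℂ) := by
      intro t
      have h3 := ZMod.stdAddChar_coe (N := n + 1) (t.val : ℤ)
      have h4 : (((t.val : ℕ) : ℤ) : ZMod (n + 1)) = t := by
        rw [Int.cast_natCast, ZMod.natCast_zmod_val]
      rw [h4] at h3
      rw [h3]
      push_cast
      rfl
    simp only [h2]
    calc _ ≤ K * N := h1
      _ ≤ (ε * N) * N := mul_le_mul_of_nonneg_right hKε hNpos.le
      _ = ε * N ^ 2 := by ring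
  · have h1 := final_count f hfv K _ hh hKf
    rw [hcast] at h1
    refine le_trans h1 ?_
    have h2 : K * N ^ 2 ≤ (N * (9 / 19683)) * N ^ 2 :=
      mul_le_mul_of_nonneg_right hKδ (by positivity)
    have h3 : (13 / 27 : ℝ) ^ 3 - 1 / 19683 = 2196 / 19683 := by norm_num
    rw [h3]
    have h4 : N ^ 3 / 9 + (N * (9 / 19683)) * N ^ 2 = 2196 / 19683 * N ^ 3 := by ring
    linarith

/-- There are α, δ > 0 such that for every ε > 0 and arbitrarily large N, some A in (Z/NZ)^2 has density within ε of α, all nontrivial Fourier coefficients at most ε, and at most (α^3 − δ)N^3 corners (x,y,d). -/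
theorem result :
    ∃ α δ : ℝ, 0 < α ∧ 0 < δ ∧
      ∀ ε : ℝ, 0 < ε → ∀ M : ℕ, ∃ n : ℕ, M ≤ n + 1 ∧
        ∃ A : Finset (ZMod (n + 1) × ZMod (n + 1)),
          |(A.card : ℝ) / ((n : ℝ) + 1) ^ 2 - α| ≤ ε ∧
          (∀ r : ZMod (n + 1) × ZMod (n + 1), r ≠ 0 →
            ‖∑ x ∈ A, Complex.exp (2 * (Real.pi : ℂ) * Complex.I *
                (((r.1 * x.1 + r.2 * x.2 : ZMod (n + 1)).val : ℂ)) / ((n : ℂ) + 1))‖
              ≤ ε * ((n : ℝ) + 1) ^ 2) ∧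
          (((Finset.univ : Finset (ZMod (n + 1) × ZMod (n + 1) × ZMod (n + 1))).filter
              (fun t : ZMod (n + 1) × ZMod (n + 1) × ZMod (n + 1) =>
                (t.1, t.2.1) ∈ A ∧ (t.1 + t.2.2, t.2.1) ∈ A ∧ (t.1, t.2.1 + t.2.2) ∈ A)).card : ℝ)
            ≤ (α ^ 3 - δ) * ((n : ℝ) + 1) ^ 3 := by
  refine ⟨13 / 27, 1 / 19683, by norm_num, by norm_num, ?_⟩
  intro ε hε M
  exact main_family ε hε M

end Pool.Agent.S10123
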