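import Pool.Statements.S10293
import Pool.Agent.H55.GW.Asm2

set_option autoImplicit false
open Pool Pool.MP_97b7aa_co

namespace Pool.Agent.S10293

/-- For every q>1, any infinite sequence of finite gammoids, none with a U(2,q+2) or U(q,q+2) minor, contains two terms with the earlier one isomorphic to a minor of the other; so there is no infinite antichain. -/
theorem result : ∀ q : ℕ, 1 < q → ∀ M : ℕ → Matroid ℕ,
    (∀ i, (M i).Finite ∧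
      (∃ N : Matroid ℕ, N.Finite ∧
        (∃ r : ℕ, ∃ A : Fin r → Set ℕ, ∀ I : Set ℕ,
          N.Indep I ↔ (I ⊆ N.E ∧ ∃ f : ℕ → Fin r, Set.InjOn f I ∧ ∀ x ∈ I, x ∈ A (f x))) ∧
        (M i).E ⊆ N.E ∧ M i = N.dual.restrict (M i).E) ∧
      (¬ ∃ N : Matroid ℕ, N.IsMinor (M i) ∧ N.E.ncard = q + 2 ∧
        ∀ I : Set ℕ, N.Indep I ↔ (I ⊆ N.E ∧ I.ncard ≤ 2)) ∧
      (¬ ∃ N : Matroid ℕ, N.IsMinor (M i) ∧ N.E.ncard = q + 2 ∧
        ∀ I : Set ℕ, N.Indep I ↔ (I ⊆ N.E ∧ I.ncard ≤ q))) →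
    ∃ i j : ℕ, i ≠ j ∧ ∃ N : Matroid ℕ, N.IsMinor (M j) ∧
      ∃ f : ℕ → ℕ, Set.BijOn f (M i).E N.E ∧
        ∀ I : Set ℕ, I ⊆ (M i).E → ((M i).Indep I ↔ N.Indep (f '' I)) :=
  Pool.Agent.H55.GW.Asm.frozen

end Pool.Agent.S10293
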