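import Pool.Statements.S10311
import Pool.Agent.H38.Rig.Asm2
import Pool.Agent.H38.Rig.Wrap

set_option autoImplicit false
open Pool Pool.MP_98a5df_co

namespace Pool.Agent.S10311

/-- Every finite 5-regular graph in which each set of k≥3 vertices spans at most 3k−6 edges has a placement in R^3 whose rigidity matrix has linearly independent rows. -/
theorem result :
    ∀ (n : ℕ) (G : SimpleGraph (Fin n)) [DecidableRel G.Adj],
      G.IsRegularOfDegree 5 →
      (∀ S : Finset (Fin n), 3 ≤ S.card →
        (Finset.univ.filter (fun e : Fin n × Fin n =>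
          e.1 ∈ S ∧ e.2 ∈ S ∧ e.1 < e.2 ∧ G.Adj e.1 e.2)).card ≤ 3 * S.card - 6) →
      ∃ p : Fin n → Fin 3 → ℝ,
        LinearIndependent ℝ
          (fun e : {e : Fin n × Fin n // e.1 < e.2 ∧ G.Adj e.1 e.2} =>
            (fun (w : Fin n) (i : Fin 3) =>
              if w = e.val.1 then p e.val.1 i - p e.val.2 i
              else if w = e.val.2 then p e.val.2 i - p e.val.1 i
              else 0)) := by
  intro n G _ hreg hsp
  obtain ⟨p, hp⟩ := Pool.Agent.H38.Rig.ind_of_sparse_reg5 n (Fin n) G (Fintype.card_fin n)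
    (Pool.Agent.H38.Rig.sparse_of_counts G hsp) (Pool.Agent.H38.Rig.reg5_of_regular G hreg)
  exact ⟨p, Pool.Agent.H38.Rig.linearIndependent_of_stressFree G p hp⟩

end Pool.Agent.S10311
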