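import Pool.Statements.S10859
import Pool.Agent.H91.Drn.Final

set_option autoImplicit false
open Pool Pool.MP_b148a6_co

namespace Pool.Agent.S10859

/-- There is N such that every tree T on n ≥ N vertices has two distinct vertices whose degree-associated cards determine it: any n-vertex graph with two distinct vertices giving isomorphic cards of equal degrees is isomorphic to T. -/
theorem result :
    ∃ N : ℕ, ∀ n : ℕ, N ≤ n → ∀ T : SimpleGraph (Fin n), T.IsTree →
      ∃ u v : Fin n, u ≠ v ∧
        ∀ H : SimpleGraph (Fin n), ∀ x y : Fin n, x ≠ y →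
          Nonempty (T.induce ({u}ᶜ : Set (Fin n)) ≃g H.induce ({x}ᶜ : Set (Fin n))) →
          (T.neighborSet u).ncard = (H.neighborSet x).ncard →
          Nonempty (T.induce ({v}ᶜ : Set (Fin n)) ≃g H.induce ({y}ᶜ : Set (Fin n))) →
          (T.neighborSet v).ncard = (H.neighborSet y).ncard →
          Nonempty (T ≃g H) :=
  Pool.Agent.H48.Drn.main

end Pool.Agent.S10859
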