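import Pool.Statements.S10984
import Pool.Agent.H36Flow.Main
import Pool.Agent.H36Flow.Numeric
import Pool.Agent.H36Flow.Check

set_option autoImplicit false
open Pool Pool.MP_b6f1e0_co

namespace Pool.Agent.S10984

/-- The negation of the preceding statement: For every finite graph, if its flow polynomial (sum over edge subsets A of (-1)^(∣E∣-∣A∣) q^(nullity of A)) is not identically zero, then every real root of it is at most 6. -/
theorem result :
    ¬ (∀ (V : Type) [Fintype V] (G : SimpleGraph V) [DecidableRel G.Adj] (p : Polynomial ℝ),
      p = ∑ A ∈ G.edgeFinset.powerset,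
        (-1 : Polynomial ℝ) ^ (G.edgeFinset.card - A.card) *
          Polynomial.X ^ (A.card
            + Nat.card (SimpleGraph.fromEdgeSet (A : Set (Sym2 V))).ConnectedComponent
            - Fintype.card V) →
      p ≠ 0 → ∀ q : ℝ, p.IsRoot q → q ≤ 6) := by
  have hneg := Pool.Agent.H36Flow.Rp_neg 440 769 128 513 (by norm_num) (by norm_num)
    ⟨220, by norm_num⟩ Pool.Agent.H36Flow.check_true
  exact Pool.Agent.H36Flow.frozen_of_neg 439 _ (by norm_num) (by norm_num) hneg

end Pool.Agent.S10984
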