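import Pool.Statements.S11223
import Pool.Agent.H71.DM.Main

set_option autoImplicit false
open Pool Pool.MP_c1331e_co

namespace Pool.Agent.S11223

/-- For every c ≥ 1 there are K, k ≥ 1 such that every finite tournament with domination number ≥ K has an induced subtournament on at most k vertices whose domination number is ≥ c. -/
theorem result :
    ∀ c : ℕ, 1 ≤ c → ∃ K k : ℕ, 1 ≤ K ∧ 1 ≤ k ∧
      ∀ (n : ℕ) (adj : Fin n → Fin n → Prop),
        (∀ u v : Fin n, adj u v → ¬ adj v u) →
        (∀ u v : Fin n, u ≠ v → adj u v ∨ adj v u) →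
        (∀ S : Finset (Fin n), (∀ v : Fin n, v ∈ S ∨ ∃ u ∈ S, adj u v) → K ≤ S.card) →
        ∃ X : Finset (Fin n), X.card ≤ k ∧
          ∀ S : Finset (Fin n), S ⊆ X →
            (∀ v ∈ X, v ∈ S ∨ ∃ u ∈ S, adj u v) → c ≤ S.card :=
  Pool.Agent.H71.DM.final

end Pool.Agent.S11223
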