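import Pool.Statements.S12755
import Pool.Agent.H59.Final

set_option autoImplicit false
open CategoryTheory CategoryTheory.Limits
open Pool Pool.MP_103809_gt

namespace Pool.Agent.S12755

/-- For every connected CW complex X of dimension at most 2, if some normal subgroup of π₁X has an integrally acyclic regular cover, then among such normal subgroups one is minimal under inclusion. -/
theorem result :
    ∀ (X : Type) [TopologicalSpace X] [T2Space X]
      [Topology.CWComplex (Set.univ : Set X)],
      (∀ n : ℕ, 2 < n → IsEmpty (Topology.RelCWComplex.cell (Set.univ : Set X) n)) →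
      ConnectedSpace X →
      ∀ (x₀ : X) (S : Set (Subgroup (FundamentalGroup X x₀))),
        (∀ P : Subgroup (FundamentalGroup X x₀), P ∈ S ↔
          (P.Normal ∧
            ∃ (E : Type) (_ : TopologicalSpace E) (p : C(E, X)) (e₀ : E)
              (γ : Path (p e₀) x₀),
              IsCoveringMap p ∧ PathConnectedSpace E ∧
              P = (FundamentalGroup.map p e₀).range.map
                    (FundamentalGroup.fundamentalGroupMulEquivOfPath γ).toMonoidHom ∧
              IsZero (((AlgebraicTopology.singularHomologyFunctor (ModuleCat.{0} ℤ) 1).obj
                    (ModuleCat.of ℤ ℤ)).obj (TopCat.of E)) ∧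
              IsZero (((AlgebraicTopology.singularHomologyFunctor (ModuleCat.{0} ℤ) 2).obj
                    (ModuleCat.of ℤ ℤ)).obj (TopCat.of E)))) →
        S.Nonempty →
        ∃ P ∈ S, ∀ Q ∈ S, Q ≤ P → Q = P := by
  intro X _ _ _ hdim hconn x₀ S hS hne
  exact Pool.Agent.H59.main X hdim hconn x₀ S hS hne

end Pool.Agent.S12755
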