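import Pool.Statements.S12767
import Pool.Agent.H61.EGFinal

set_option autoImplicit false
open Pool Pool.MP_11262c_gt

namespace Pool.Agent.S12767

/-- Every Lindelöf scattered space that embeds into C_p(K) (pointwise topology) for some compact Hausdorff K is a countable union of subspaces each discrete in its own subspace topology. -/
theorem result :
    ∀ (X : Type) [TopologicalSpace X],
      (∃ (K : Type) (_ : TopologicalSpace K), CompactSpace K ∧ T2Space K ∧
        ∃ f : X → (K → ℝ), Topology.IsEmbedding f ∧ ∀ x, Continuous (f x)) →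
      LindelofSpace X →
      (∀ S : Set X, S.Nonempty → ∃ x ∈ S, ∃ U : Set X, IsOpen U ∧ U ∩ S = {x}) →
      ∃ D : ℕ → Set X, (⋃ n, D n) = Set.univ ∧ ∀ n, DiscreteTopology (D n) := by
  intro X _ hK hL hsc
  obtain ⟨K, _, _, _, f, hf, hfc⟩ := hK
  exact Pool.Agent.H61.EG.sigma_discrete f hf hfc hsc

end Pool.Agent.S12767
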