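import Pool.Statements.S12810
import Mathlib

set_option autoImplicit false
open Pool Pool.MP_16af68_gt

namespace Pool.Agent.S12810

open Cardinal Topology

/-- a well-order of type omega_1 -/
abbrev Om : Type := (Cardinal.aleph 1).ord.ToType

theorem Om_Iic_countable (a : Om) : (Set.Iic a).Countable := by
  have h := Cardinal.mk_Iio_toType_ord_lt (c := Cardinal.aleph 1) a
  have h2 : (Set.Iio a).Countable := by
    exact (Cardinal.countable_iff_lt_aleph_one _).mpr h
  have h3 : Set.Iic a = insert a (Set.Iio a) := by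
    ext x; simp [le_iff_eq_or_lt]
  rw [h3]
  exact h2.insert a

theorem Om_nonempty : Nonempty Om := by
  rw [← Cardinal.mk_ne_zero_iff, Cardinal.mk_ord_toType]
  exact (Cardinal.aleph_pos 1).ne'

theorem Om_bound (s : ℕ → Om) : ∃ a, ∀ n, s n < a := by
  by_contra hcon
  push Not at hcon
  have h1 : (Set.univ : Set Om) ⊆ ⋃ n, Set.Iic (s n) := by
    intro a _
    obtain ⟨n, hn⟩ := hcon a
    exact Set.mem_iUnion.mpr ⟨n, hn⟩
  have h2 : (Set.univ : Set Om).Countable :=
    (Set.countable_iUnion (fun n => Om_Iic_countable (s n))).mono h1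
  have h3 : #Om ≤ ℵ₀ := by
    rw [← Cardinal.mk_univ]
    exact h2.le_aleph0
  rw [Cardinal.mk_ord_toType] at h3
  exact absurd h3 (not_le.mpr Cardinal.aleph0_lt_aleph_one)

/-- `D` is a countably directed subset for the specialization order. -/
def CDir {X : Type} [TopologicalSpace X] (D : Set X) : Prop :=
  D.Nonempty ∧ ∀ s : ℕ → X, (∀ n, s n ∈ D) → ∃ d ∈ D, ∀ n, s n ∈ closure {d}

/-- T0 spaces in which every countably directed set has a limit with the same closure. -/
def KK (X : Type) [TopologicalSpace X] : Prop :=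
  T0Space X ∧ ∀ D : Set X, CDir D → ∃ a, closure D = closure {a}

section general

variable {X Y : Type} [TopologicalSpace X] [TopologicalSpace Y]

theorem cl_mono {x y : X} (h : x ∈ closure {y}) : closure {x} ⊆ closure {y} :=
  closure_minimal (Set.singleton_subset_iff.mpr h) isClosed_closure

theorem open_up {x y : X} (h : x ∈ closure {y}) {U : Set X} (hU : IsOpen U) (hx : x ∈ U) :
    y ∈ U := by
  obtain ⟨z, hz, hz'⟩ := mem_closure_iff.mp h U hU hx
  rw [Set.mem_singleton_iff] at hz'
  rwa [hz'] at hz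

theorem cl_map {f : X → Y} (hf : Continuous f) {x y : X} (h : x ∈ closure {y}) :
    f x ∈ closure {f y} := by
  have := image_closure_subset_closure_image hf (s := {y}) ⟨x, h, rfl⟩
  rwa [Set.image_singleton] at this

theorem CDir.image {f : X → Y} (hf : Continuous f) {D : Set X} (hD : CDir D) :
    CDir (f '' D) := by
  refine ⟨hD.1.image f, fun s hs => ?_⟩
  choose t ht ht' using hs
  obtain ⟨d, hd, hd'⟩ := hD.2 t ht
  refine ⟨f d, ⟨d, hd, rfl⟩, fun n => ?_⟩
  rw [← ht' n]
  exact cl_map hf (hd' n)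

theorem CDir.two {D : Set X} (hD : CDir D) {a b : X} (ha : a ∈ D) (hb : b ∈ D) :
    ∃ d ∈ D, a ∈ closure {d} ∧ b ∈ closure {d} := by
  obtain ⟨d, hd, hd'⟩ := hD.2 (fun n => if n = 0 then a else b) (by
    intro n
    by_cases h : n = 0 <;> simp [h, ha, hb])
  exact ⟨d, hd, by simpa using hd' 0, by simpa using hd' 1⟩

theorem CDir.irr {D : Set X} (hD : CDir D) : IsIrreducible D := by
  refine ⟨hD.1, ?_⟩
  rintro u v hu hv ⟨a, ha, hau⟩ ⟨b, hb, hbv⟩
  obtain ⟨d, hd, h1, h2⟩ := hD.two ha hb
  exact ⟨d, hd, open_up h1 hu hau, open_up h2 hv hbv⟩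

theorem sober_limit [QuasiSober X] {D : Set X} (hD : CDir D) : ∃ a, closure D = closure {a} := by
  obtain ⟨a, ha⟩ := QuasiSober.sober hD.irr.closure isClosed_closure
  exact ⟨a, ha.symm⟩

theorem t0_eq [T0Space X] {x y : X} (h : closure {x} = closure {y}) : x = y :=
  (inseparable_iff_closure_eq.mpr h).eq

theorem mem_cl_sub {A : Set Y} {x : A} {D : Set A} :
    x ∈ closure D ↔ (x : Y) ∈ closure (Subtype.val '' D) := by
  rw [closure_subtype]

theorem mem_cl_sub1 {A : Set Y} {x y : A} :
    x ∈ closure {y} ↔ (x : Y) ∈ closure {(y : Y)} := by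
  rw [closure_subtype, Set.image_singleton]

theorem closure_sub_iff {A : Set Y} {D : Set A} {a : A} :
    closure D = closure {a} ↔ closure (Subtype.val '' D) = closure {(a : Y)} := by
  constructor
  · intro h
    apply Set.Subset.antisymm
    · refine closure_minimal ?_ isClosed_closure
      rintro _ ⟨d, hd, rfl⟩
      rw [← mem_cl_sub1, ← h]
      exact subset_closure hd
    · refine closure_minimal ?_ isClosed_closure
      rw [Set.singleton_subset_iff, ← mem_cl_sub, h]
      exact subset_closure rfl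
  · intro h
    apply Set.Subset.antisymm
    · refine closure_minimal ?_ isClosed_closure
      intro d hd
      rw [mem_cl_sub1, ← h]
      exact subset_closure ⟨d, hd, rfl⟩
    · refine closure_minimal ?_ isClosed_closure
      rw [Set.singleton_subset_iff, mem_cl_sub, h]
      exact subset_closure rfl

theorem cdir_sub {A : Set Y} {D : Set A} (h : CDir (Subtype.val '' D)) : CDir D := by
  obtain ⟨⟨_, ⟨d, hd, rfl⟩⟩, h2⟩ := h
  refine ⟨⟨d, hd⟩, fun s hs => ?_⟩
  obtain ⟨_, ⟨e, he, rfl⟩, h4⟩ := h2 (fun n => (s n : Y)) (fun n => ⟨s n, hs n, rfl⟩)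
  exact ⟨e, he, fun n => mem_cl_sub1.mpr (h4 n)⟩

/-- criterion for being a K-subspace -/
theorem kk_sub [T0Space Y] {A : Set Y}
    (hY : ∀ D : Set Y, CDir D → ∃ a, closure D = closure {a}) :
    KK ↥A ↔ ∀ D : Set Y, D ⊆ A → CDir D → ∀ y, closure D = closure {y} → y ∈ A := by
  constructor
  · intro h D hDA hD y hy
    have himg : Subtype.val '' (Subtype.val ⁻¹' D : Set A) = D := by
      rw [Subtype.image_preimage_coe]
      exact Set.inter_eq_right.mpr hDA
    have hD' : CDir (Subtype.val ⁻¹' D : Set A) := by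
      apply cdir_sub
      rw [himg]; exact hD
    obtain ⟨a, ha⟩ := h.2 _ hD'
    rw [closure_sub_iff, himg, hy] at ha
    rw [t0_eq ha]
    exact a.2
  · intro h
    refine ⟨inferInstance, fun D hD => ?_⟩
    have hD' := hD.image (f := (Subtype.val : A → Y)) continuous_subtype_val
    obtain ⟨y, hy⟩ := hY _ hD'
    have hyA : y ∈ A := h _ (by rintro _ ⟨d, _, rfl⟩; exact d.2) hD' y hy
    exact ⟨⟨y, hyA⟩, closure_sub_iff.mpr hy⟩

end general

theorem reflect {R : Type} [TopologicalSpace R] (X : Set R)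
    (hgen : ∀ A : Set R, X ⊆ A →
      (∀ D ⊆ A, CDir D → ∀ a, closure D = closure {a} → a ∈ A) → ∀ r, r ∈ A)
    (Z : Type) [TopologicalSpace Z] (hZ : KK Z) (g : X → Z) (hg : Continuous g) :
    ∃! h : R → Z, Continuous h ∧ h ∘ (Subtype.val : X → R) = g := by
  haveI : T0Space Z := hZ.1
  have hdense : ∀ r : R, r ∈ closure (X ∩ closure {r}) := by
    refine hgen {r | r ∈ closure (X ∩ closure {r})} ?_ ?_
    · intro x hx
      exact subset_closure ⟨hx, subset_closure rfl⟩
    · intro D hDA _ a ha
      have h1 : D ⊆ closure (X ∩ closure {a}) := by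
        intro d hd
        have hd' : d ∈ closure {a} := by rw [← ha]; exact subset_closure hd
        exact closure_mono (Set.inter_subset_inter_right X (cl_mono hd')) (hDA hd)
      have h2 : a ∈ closure D := by rw [ha]; exact subset_closure rfl
      exact closure_minimal h1 isClosed_closure h2
  set G : R → Set Z := fun r => g '' (Subtype.val ⁻¹' closure {r}) with hG
  have Gmono : ∀ {r s : R}, r ∈ closure {s} → G r ⊆ G s := by
    intro r s h
    exact Set.image_mono (Set.preimage_mono (cl_mono h))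
  have hGx : ∀ x : X, closure (G x) = closure {g x} := by
    intro x
    apply Set.Subset.antisymm
    · refine closure_minimal ?_ isClosed_closure
      rintro _ ⟨x', hx', rfl⟩
      exact cl_map hg (mem_cl_sub1.mpr hx')
    · refine closure_minimal ?_ isClosed_closure
      rw [Set.singleton_subset_iff]
      exact subset_closure ⟨x, subset_closure rfl, rfl⟩
  have key : ∀ r : R, ∃ z, closure (G r) = closure {z} := by
    refine hgen {r | ∃ z, closure (G r) = closure {z}} ?_ ?_
    · intro x hx
      exact ⟨g ⟨x, hx⟩, hGx ⟨x, hx⟩⟩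
    · intro D hDA hD a ha
      classical
      have hz : ∀ r : R, ∃ z, r ∈ D → closure (G r) = closure {z} := by
        intro r
        by_cases hr : r ∈ D
        · obtain ⟨z, hz⟩ := hDA hr
          exact ⟨z, fun _ => hz⟩
        · obtain ⟨d, hd⟩ := hD.1
          obtain ⟨z, _⟩ := hDA hd
          exact ⟨z, fun h => absurd h hr⟩
      choose ζ hζ using hz
      have hE : CDir (ζ '' D) := by
        refine ⟨hD.1.image ζ, fun s hs => ?_⟩
        choose t ht ht' using hs
        obtain ⟨d, hd, hd'⟩ := hD.2 t ht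
        refine ⟨ζ d, ⟨d, hd, rfl⟩, fun n => ?_⟩
        rw [← ht' n, ← hζ d hd]
        have h1 : ζ (t n) ∈ closure (G (t n)) := by
          rw [hζ _ (ht n)]; exact subset_closure rfl
        exact closure_mono (Gmono (hd' n)) h1
      obtain ⟨z, hz⟩ := hZ.2 _ hE
      refine ⟨z, ?_⟩
      rw [← hz]
      apply Set.Subset.antisymm
      · refine closure_minimal ?_ isClosed_closure
        rintro _ ⟨x, hx, rfl⟩
        rw [Set.mem_preimage, ← ha] at hx
        rw [mem_closure_iff]
        intro V hV hgV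
        obtain ⟨U, hU, hUV⟩ := isOpen_induced_iff.mp (hV.preimage hg)
        have hxU : (x : R) ∈ U := by
          have : x ∈ Subtype.val ⁻¹' U := by rw [hUV]; exact hgV
          exact this
        obtain ⟨d, hdU, hdD⟩ := mem_closure_iff.mp hx U hU hxU
        obtain ⟨x', hx'U, hx'X, hx'd⟩ := mem_closure_iff.mp (hdense d) U hU hdU
        have h1 : g ⟨x', hx'X⟩ ∈ V := by
          have : (⟨x', hx'X⟩ : X) ∈ g ⁻¹' V := by rw [← hUV]; exact hx'U
          exact this
        have h2 : g ⟨x', hx'X⟩ ∈ closure {ζ d} := by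
          rw [← hζ d hdD]
          exact subset_closure ⟨⟨x', hx'X⟩, hx'd, rfl⟩
        exact ⟨ζ d, open_up h2 hV h1, ⟨d, hdD, rfl⟩⟩
      · refine closure_minimal ?_ isClosed_closure
        rintro _ ⟨d, hd, rfl⟩
        have hda : d ∈ closure {a} := by rw [← ha]; exact subset_closure hd
        have h1 : ζ d ∈ closure (G d) := by
          rw [hζ _ hd]; exact subset_closure rfl
        exact closure_mono (Gmono hda) h1
  choose h hh using key
  refine ⟨h, ⟨?_, ?_⟩, ?_⟩
  · refine ⟨fun V hV => ?_⟩
    obtain ⟨U, hU, hUV⟩ := isOpen_induced_iff.mp (hV.preimage hg)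
    have : h ⁻¹' V = U := by
      ext r
      constructor
      · intro hr
        have h1 : h r ∈ closure (G r) := by rw [hh r]; exact subset_closure rfl
        obtain ⟨_, h2, ⟨x, hx, rfl⟩⟩ := mem_closure_iff.mp h1 V hV hr
        have hxU : (x : R) ∈ U := by
          have : x ∈ Subtype.val ⁻¹' U := by rw [hUV]; exact h2
          exact this
        exact open_up hx hU hxU
      · intro hr
        obtain ⟨x, hxU, hxX, hxr⟩ := mem_closure_iff.mp (hdense r) U hU hr
        have h1 : g ⟨x, hxX⟩ ∈ V := by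
          have : (⟨x, hxX⟩ : X) ∈ g ⁻¹' V := by rw [← hUV]; exact hxU
          exact this
        have h2 : g ⟨x, hxX⟩ ∈ closure {h r} := by
          rw [← hh r]
          exact subset_closure ⟨⟨x, hxX⟩, hxr, rfl⟩
        exact open_up h2 hV h1
    rw [this]; exact hU
  · funext x
    apply t0_eq
    show closure {h (x : R)} = closure {g x}
    rw [← hh, hGx]
  · rintro h' ⟨hc, hcomp⟩
    funext r
    apply t0_eq
    rw [← hh r]
    apply Set.Subset.antisymm
    · refine closure_minimal ?_ isClosed_closure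
      rw [Set.singleton_subset_iff]
      have h1 := image_closure_subset_closure_image hc ⟨r, hdense r, rfl⟩
      refine closure_mono ?_ h1
      rintro _ ⟨x, ⟨hxX, hxr⟩, rfl⟩
      refine ⟨⟨x, hxX⟩, hxr, ?_⟩
      rw [← hcomp]; rfl
    · refine closure_minimal ?_ isClosed_closure
      rintro _ ⟨x, hx, rfl⟩
      rw [← hcomp]
      exact cl_map hc hx

/-! ### the concrete space -/

structure RR : Type where
  rk : ℕ
  ls : List Om

instance : TopologicalSpace RR where
  IsOpen U := ∀ (k : ℕ) (l : List Om),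
    (∀ a b : Om, a ≤ b → RR.mk k (a :: l) ∈ U → RR.mk k (b :: l) ∈ U) ∧
    (∀ a : Om, RR.mk k (a :: l) ∈ U → RR.mk (k+1) l ∈ U) ∧
    (RR.mk (k+1) l ∈ U → ∃ a : Om, RR.mk k (a :: l) ∈ U)
  isOpen_univ := fun _ _ => ⟨fun _ _ _ _ => trivial, fun _ _ => trivial,
    fun _ => ⟨Om_nonempty.some, trivial⟩⟩
  isOpen_inter := by
    intro U V hU hV k l
    refine ⟨fun a b hab h => ⟨(hU k l).1 a b hab h.1, (hV k l).1 a b hab h.2⟩,
      fun a h => ⟨(hU k l).2.1 a h.1, (hV k l).2.1 a h.2⟩, fun h => ?_⟩
    obtain ⟨a, ha⟩ := (hU k l).2.2 h.1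
    obtain ⟨b, hb⟩ := (hV k l).2.2 h.2
    exact ⟨max a b, (hU k l).1 a _ (le_max_left _ _) ha, (hV k l).1 b _ (le_max_right _ _) hb⟩
  isOpen_sUnion := by
    intro S hS k l
    refine ⟨fun a b hab h => ?_, fun a h => ?_, fun h => ?_⟩
    · obtain ⟨U, hU, hU'⟩ := h
      exact ⟨U, hU, (hS U hU k l).1 a b hab hU'⟩
    · obtain ⟨U, hU, hU'⟩ := h
      exact ⟨U, hU, (hS U hU k l).2.1 a hU'⟩
    · obtain ⟨U, hU, hU'⟩ := h
      obtain ⟨a, ha⟩ := (hS U hU k l).2.2 hU'
      exact ⟨a, U, hU, ha⟩

theorem isOpen_RR {U : Set RR} : IsOpen U ↔ ∀ (k : ℕ) (l : List Om),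
    (∀ a b : Om, a ≤ b → RR.mk k (a :: l) ∈ U → RR.mk k (b :: l) ∈ U) ∧
    (∀ a : Om, RR.mk k (a :: l) ∈ U → RR.mk (k+1) l ∈ U) ∧
    (RR.mk (k+1) l ∈ U → ∃ a : Om, RR.mk k (a :: l) ∈ U) := Iff.rfl

/-- the explicit order -/
def le' (x y : RR) : Prop :=
  x.rk + x.ls.length = y.rk + y.ls.length ∧
    ∀ b q, y.ls = b :: q → ∃ a ≤ b, (a :: q) <:+ x.ls

theorem le'_of_cl {x y : RR} (h : x ∈ closure {y}) : le' x y := by
  have hopen : IsOpen {x | ¬ le' x y} := by
    rw [isOpen_RR]
    intro k l
    refine ⟨fun a b hab h1 h2 => h1 ?_, fun a h1 h2 => h1 ?_, fun h1 => ?_⟩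
    · refine ⟨by simpa using h2.1, fun c q hq => ?_⟩
      obtain ⟨d, hd, hs⟩ := h2.2 c q hq
      rcases List.suffix_cons_iff.mp hs with hs | hs
      · simp only [List.cons.injEq] at hs
        obtain ⟨h3, h4⟩ := hs
        refine ⟨a, ?_, ?_⟩
        · rw [h3] at hd; exact hab.trans hd
        · rw [h4]
      · exact ⟨d, hd, hs.trans (List.suffix_cons _ _)⟩
    · refine ⟨?_, fun c q hq => ?_⟩
      · have := h2.1
        simp only [List.length_cons] at this ⊢
        omega
      · obtain ⟨d, hd, hs⟩ := h2.2 c q hq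
        exact ⟨d, hd, hs.trans (List.suffix_cons _ _)⟩
    · by_contra hcon
      push Not at hcon
      have hcon' : ∀ a : Om, le' (RR.mk k (a :: l)) y := by
        intro a
        by_contra h
        exact hcon a h
      apply h1
      obtain ⟨a0⟩ := Om_nonempty
      refine ⟨?_, fun b q hq => ?_⟩
      · have := (hcon' a0).1
        simp only [List.length_cons] at this ⊢
        omega
      · obtain ⟨c, hc⟩ := Om_bound (fun _ => b)
        obtain ⟨d, hd, hs⟩ := (hcon' c).2 b q hq
        rcases List.suffix_cons_iff.mp hs with hs | hs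
        · simp only [List.cons.injEq] at hs
          obtain ⟨h3, h4⟩ := hs
          rw [h3] at hd
          exact absurd (hc 0) (not_lt.mpr hd)
        · exact ⟨d, hd, hs⟩
  by_contra hcon
  have := open_up h hopen hcon
  apply this
  refine ⟨rfl, fun b q hq => ⟨b, le_rfl, ?_⟩⟩
  rw [hq]

theorem cl_step1 {k : ℕ} {l : List Om} {a b : Om} (h : a ≤ b) :
    RR.mk k (a :: l) ∈ closure {RR.mk k (b :: l)} := by
  rw [mem_closure_iff]
  intro U hU hx
  exact ⟨_, (isOpen_RR.mp hU k l).1 a b h hx, rfl⟩

theorem cl_step2 {k : ℕ} {l : List Om} {a : Om} :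
    RR.mk k (a :: l) ∈ closure {RR.mk (k+1) l} := by
  rw [mem_closure_iff]
  intro U hU hx
  exact ⟨_, (isOpen_RR.mp hU k l).2.1 a hx, rfl⟩

instance : T0Space RR := by
  refine ⟨fun x y hxy => ?_⟩
  rw [inseparable_iff_closure_eq] at hxy
  have h1 : le' x y := le'_of_cl (by rw [← hxy]; exact subset_closure rfl)
  have h2 : le' y x := le'_of_cl (by rw [hxy]; exact subset_closure rfl)
  obtain ⟨k, l⟩ := x
  obtain ⟨k', l'⟩ := y
  simp only [le'] at h1 h2
  obtain ⟨h1a, h1b⟩ := h1
  obtain ⟨h2a, h2b⟩ := h2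
  cases l' with
  | nil =>
    cases l with
    | nil => simp at h1a; rw [h1a]
    | cons a q =>
      obtain ⟨c, _, hs⟩ := h2b a q rfl
      simp at hs
  | cons b q =>
    obtain ⟨c, hc, hs⟩ := h1b b q rfl
    cases l with
    | nil => simp at hs
    | cons a p =>
      obtain ⟨d, hd, ht⟩ := h2b a p rfl
      have hl1 := hs.length_le
      have hl2 := ht.length_le
      simp only [List.length_cons] at hl1 hl2
      have e1 := hs.eq_of_length (by simp only [List.length_cons]; omega)
      have e2 := ht.eq_of_length (by simp only [List.length_cons]; omega)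
      simp only [List.cons.injEq] at e1 e2
      obtain ⟨e3, e4⟩ := e1
      obtain ⟨e5, e6⟩ := e2
      have hab : a = b := le_antisymm (e3 ▸ hc) (e5 ▸ hd)
      subst hab
      subst e4
      simp only [List.length_cons] at h1a
      have : k = k' := by omega
      rw [this]

/-- Every countably directed subset of `RR` has a limit, and its rank goes up by at most one. -/
theorem limit_RR {D : Set RR} (hD : CDir D) :
    ∃ a, closure D = closure {a} ∧ ∀ m, (∀ d ∈ D, d.rk ≤ m) → a.rk ≤ m + 1 := by
  classical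
  -- an element of minimal length
  obtain ⟨d0, hd0, hmin⟩ : ∃ d0 ∈ D, ∀ d ∈ D, d0.ls.length ≤ d.ls.length := by
    have hne : ∃ n, ∃ d ∈ D, d.ls.length = n := by
      obtain ⟨d, hd⟩ := hD.1
      exact ⟨_, d, hd, rfl⟩
    obtain ⟨d, hd, hd'⟩ := Nat.find_spec hne
    refine ⟨d, hd, fun e he => ?_⟩
    rw [hd']
    exact Nat.find_min' hne ⟨e, he, rfl⟩
  obtain ⟨k, l⟩ := d0
  cases l with
  | nil =>
    refine ⟨RR.mk k [], ?_, fun m hm => (hm _ hd0).trans (Nat.le_succ _)⟩
    apply Set.Subset.antisymm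
    · refine closure_minimal ?_ isClosed_closure
      intro d hd
      obtain ⟨e, he, h1, h2⟩ := hD.two hd hd0
      have h3 := le'_of_cl h2
      obtain ⟨k', l'⟩ := e
      cases l' with
      | nil =>
        have : k = k' := by simpa using h3.1
        rw [this]; exact h1
      | cons b q =>
        obtain ⟨c, _, hs⟩ := h3.2 b q rfl
        simp at hs
    · exact closure_mono (Set.singleton_subset_iff.mpr hd0)
  | cons b q =>
    -- elements of D above d0
    have habove : ∀ e ∈ D, RR.mk k (b :: q) ∈ closure {e} →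
        ∃ a', e = RR.mk k (a' :: q) := by
      intro e he h
      have h3 := le'_of_cl h
      obtain ⟨k', l'⟩ := e
      have hl := hmin _ he
      cases l' with
      | nil => simp at hl
      | cons a' q' =>
        obtain ⟨c, hc, hs⟩ := h3.2 a' q' rfl
        simp only [List.length_cons] at hl
        have hl2 := hs.length_le
        simp only [List.length_cons] at hl2
        have e1 := hs.eq_of_length (by simp only [List.length_cons]; omega)
        simp only [List.cons.injEq] at e1
        obtain ⟨_, e4⟩ := e1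
        have h4 := h3.1
        simp only [List.length_cons] at h4
        refine ⟨a', ?_⟩
        have : k' = k := by omega
        rw [this, e4]
    have hall : ∀ d ∈ D, ∃ a', RR.mk k (a' :: q) ∈ D ∧ d ∈ closure {RR.mk k (a' :: q)} := by
      intro d hd
      obtain ⟨e, he, h1, h2⟩ := hD.two hd hd0
      obtain ⟨a', ha'⟩ := habove e he h2
      subst ha'
      exact ⟨a', he, h1⟩
    by_cases hB : ∃ c : Om, ∀ a', RR.mk k (a' :: q) ∈ D → a' ≤ c
    · -- bounded case: a maximum exists
      obtain ⟨c, hc⟩ := hB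
      have hcount : {a' : Om | RR.mk k (a' :: q) ∈ D}.Countable :=
        (Om_Iic_countable c).mono (fun a' ha' => hc a' ha')
      obtain ⟨s, hs⟩ := hcount.exists_eq_range ⟨b, hd0⟩
      obtain ⟨e, he, he'⟩ := hD.2 (fun n => RR.mk k (s n :: q)) (fun n => by
        have : s n ∈ {a' : Om | RR.mk k (a' :: q) ∈ D} := by rw [hs]; exact ⟨n, rfl⟩
        exact this)
      obtain ⟨n0, hn0⟩ : b ∈ Set.range s := by rw [← hs]; exact hd0
      obtain ⟨a', ha'⟩ := habove e he (by
        have := he' n0
        rwa [hn0] at this)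
      subst ha'
      have hmax : ∀ a'', RR.mk k (a'' :: q) ∈ D → a'' ≤ a' := by
        intro a'' h
        obtain ⟨n, hn⟩ : a'' ∈ Set.range s := by rw [← hs]; exact h
        have h5 := (le'_of_cl (he' n)).2 a' q rfl
        obtain ⟨c', hc', hs'⟩ := h5
        have e1 := hs'.eq_of_length (by simp)
        simp only [List.cons.injEq] at e1
        rw [← hn, ← e1.1]; exact hc'
      refine ⟨RR.mk k (a' :: q), ?_, fun m hm => (hm _ he).trans (Nat.le_succ _)⟩
      apply Set.Subset.antisymm
      · refine closure_minimal ?_ isClosed_closure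
        intro d hd
        obtain ⟨a'', h1, h2⟩ := hall d hd
        exact cl_mono (cl_step1 (hmax a'' h1)) h2
      · exact closure_mono (Set.singleton_subset_iff.mpr he)
    · -- unbounded case
      push Not at hB
      refine ⟨RR.mk (k+1) q, ?_, fun m hm => Nat.succ_le_succ (hm _ hd0)⟩
      apply Set.Subset.antisymm
      · refine closure_minimal ?_ isClosed_closure
        intro d hd
        obtain ⟨a'', h1, h2⟩ := hall d hd
        exact cl_mono cl_step2 h2
      · refine closure_minimal ?_ isClosed_closure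
        rw [Set.singleton_subset_iff, mem_closure_iff]
        intro U hU hx
        obtain ⟨a, ha⟩ := (isOpen_RR.mp hU k q).2.2 hx
        obtain ⟨a', ha', hlt⟩ := hB a
        exact ⟨_, (isOpen_RR.mp hU k q).1 a a' hlt.le ha, ha'⟩

theorem kk_RR : KK RR := ⟨inferInstance, fun D hD => by
  obtain ⟨a, ha, _⟩ := limit_RR hD
  exact ⟨a, ha⟩⟩

/-- rank zero points -/
def X0 : Set RR := {r | r.rk = 0}

theorem gen_RR (A : Set RR) (hX : X0 ⊆ A)
    (hA : ∀ D ⊆ A, CDir D → ∀ a, closure D = closure {a} → a ∈ A) : ∀ r, r ∈ A := by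
  have main : ∀ (k : ℕ) (l : List Om), RR.mk k l ∈ A := by
    intro k
    induction k with
    | zero => intro l; exact hX rfl
    | succ k ih =>
      intro l
      refine hA (Set.range (fun a : Om => RR.mk k (a :: l))) ?_ ?_ (RR.mk (k+1) l) ?_
      · rintro _ ⟨a, rfl⟩; exact ih _
      · refine ⟨⟨_, Om_nonempty.some, rfl⟩, fun s hs => ?_⟩
        choose t ht using hs
        obtain ⟨a, ha⟩ := Om_bound t
        refine ⟨_, ⟨a, rfl⟩, fun n => ?_⟩
        rw [← ht n]
        exact cl_step1 (ha n).le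
      · apply Set.Subset.antisymm
        · refine closure_minimal ?_ isClosed_closure
          rintro _ ⟨a, rfl⟩
          exact cl_step2
        · refine closure_minimal ?_ isClosed_closure
          rw [Set.singleton_subset_iff, mem_closure_iff]
          intro U hU hx
          obtain ⟨a, ha⟩ := (isOpen_RR.mp hU k l).2.2 hx
          exact ⟨_, ha, ⟨a, rfl⟩⟩
  rintro ⟨k, l⟩
  exact main k l

/-- the sequences of bounded rank -/
def CC : Set (ℕ → RR) := {r | ∃ m, ∀ i, (r i).rk ≤ m}

theorem kk_CC (hprod : KK (ℕ → RR)) : KK ↥CC := by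
  haveI : T0Space (ℕ → RR) := hprod.1
  rw [kk_sub hprod.2]
  intro D hDC hD a ha
  -- some piece of bounded rank is cofinal
  obtain ⟨m, hm⟩ : ∃ m : ℕ, ∀ d ∈ D, ∃ e ∈ D, (∀ i, (e i).rk ≤ m) ∧ d ∈ closure {e} := by
    by_contra hcon
    push Not at hcon
    choose t ht ht' using hcon
    obtain ⟨d, hd, hd'⟩ := hD.2 t ht
    obtain ⟨m, hm⟩ := hDC hd
    exact ht' m d hd hm (hd' m)
  set E : Set (ℕ → RR) := {e | e ∈ D ∧ ∀ i, (e i).rk ≤ m} with hE
  have hED : CDir E := by
    refine ⟨?_, fun s hs => ?_⟩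
    · obtain ⟨d, hd⟩ := hD.1
      obtain ⟨e, he, he', _⟩ := hm d hd
      exact ⟨e, he, he'⟩
    · obtain ⟨d, hd, hd'⟩ := hD.2 s (fun n => (hs n).1)
      obtain ⟨e, he, he', hde⟩ := hm d hd
      exact ⟨e, ⟨he, he'⟩, fun n => cl_mono hde (hd' n)⟩
  have hcl : closure E = closure {a} := by
    rw [← ha]
    apply Set.Subset.antisymm
    · exact closure_mono (fun e he => he.1)
    · refine closure_minimal ?_ isClosed_closure
      intro d hd
      obtain ⟨e, he, he', hde⟩ := hm d hd
      exact closure_mono (Set.singleton_subset_iff.mpr (show e ∈ E from ⟨he, he'⟩)) hde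
  refine ⟨m + 1, fun i => ?_⟩
  have hc : Continuous (fun r : ℕ → RR => r i) := continuous_apply i
  obtain ⟨b, hb, hb'⟩ := limit_RR (hED.image hc)
  have hcli : closure ((fun r : ℕ → RR => r i) '' E) = closure {a i} := by
    apply Set.Subset.antisymm
    · refine closure_minimal ?_ isClosed_closure
      rintro _ ⟨e, he, rfl⟩
      refine cl_map hc ?_
      rw [← hcl]; exact subset_closure he
    · refine closure_minimal ?_ isClosed_closure
      rw [Set.singleton_subset_iff]
      refine image_closure_subset_closure_image hc ⟨a, ?_, rfl⟩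
      rw [hcl]; exact subset_closure rfl
  have : a i = b := t0_eq (by rw [← hb, hcli])
  rw [this]
  refine hb' m ?_
  rintro _ ⟨e, he, rfl⟩
  exact he.2 i

/-- The negation of the preceding statement: For every Keimel–Lawson category K and every family of T0 spaces with K-reflections ηᵢ, the product of the ηᵢ is a K-reflection of the product space, so the K-reflection preserves arbitrary products. -/
theorem result :
    ¬ (∀ (K : (X : Type) → [TopologicalSpace X] → Prop),
    (∀ (X : Type) [TopologicalSpace X], K X → T0Space X) →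
    (∀ (X : Type) [TopologicalSpace X] [T0Space X] [QuasiSober X], K X) →
    (∀ (X Y : Type) [TopologicalSpace X] [TopologicalSpace Y],
        Nonempty (X ≃ₜ Y) → K X → K Y) →
    (∀ (Y : Type) [TopologicalSpace Y] [T0Space Y] [QuasiSober Y] (S : Set (Set Y)),
        (∀ A ∈ S, K ↥A) → K ↥(⋂₀ S)) →
    (∀ (X Y : Type) [TopologicalSpace X] [TopologicalSpace Y] [T0Space X] [QuasiSober X]
        [T0Space Y] [QuasiSober Y] (f : X → Y), Continuous f →
        ∀ B : Set Y, K ↥B → K ↥(f ⁻¹' B)) →
    ∀ (I : Type) (X R : I → Type) [∀ i, TopologicalSpace (X i)] [∀ i, T0Space (X i)]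
      [∀ i, TopologicalSpace (R i)] (η : ∀ i, X i → R i),
      (∀ i, Continuous (η i) ∧ K (R i) ∧
        ∀ (Z : Type) [TopologicalSpace Z], K Z → ∀ g : X i → Z, Continuous g →
          ∃! h : R i → Z, Continuous h ∧ h ∘ η i = g) →
      (Continuous (fun (x : ∀ i, X i) (i : I) => η i (x i)) ∧ K (∀ i, R i) ∧
        ∀ (Z : Type) [TopologicalSpace Z], K Z → ∀ g : (∀ i, X i) → Z, Continuous g →
          ∃! h : (∀ i, R i) → Z, Continuous h ∧
            (h ∘ fun (x : ∀ i, X i) (i : I) => η i (x i)) = g)) := by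
  intro H
  have H1 := H (fun X _ => KK X) (fun X _ h => h.1)
    (fun X _ _ _ => ⟨inferInstance, fun D hD => sober_limit hD⟩)
    (by
      rintro X Y _ _ ⟨e⟩ hX
      haveI : T0Space X := hX.1
      refine ⟨e.symm.isEmbedding.t0Space, fun D hD => ?_⟩
      obtain ⟨a, ha⟩ := hX.2 _ (hD.image e.symm.continuous)
      refine ⟨e a, ?_⟩
      have h1 : closure D = e '' closure (e.symm '' D) := by
        rw [e.image_closure, Set.image_image]
        simp
      rw [h1, ha, e.image_closure, Set.image_singleton])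
    (by
      intro Y _ _ _ S hS
      rw [kk_sub (fun D hD => sober_limit hD)]
      intro D hDS hD y hy A hA
      have := hS A hA
      rw [kk_sub (fun D hD => sober_limit hD)] at this
      exact this D (fun d hd => hDS hd A hA) hD y hy)
    (by
      intro X Y _ _ _ _ _ _ f hf B hB
      rw [kk_sub (fun D hD => sober_limit hD)] at hB ⊢
      intro D hDB hD y hy
      refine hB (f '' D) (by rintro _ ⟨d, hd, rfl⟩; exact hDB hd) (hD.image hf) (f y) ?_
      apply Set.Subset.antisymm
      · refine closure_minimal ?_ isClosed_closure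
        rintro _ ⟨d, hd, rfl⟩
        refine cl_map hf ?_
        rw [← hy]; exact subset_closure hd
      · refine closure_minimal ?_ isClosed_closure
        rw [Set.singleton_subset_iff]
        refine image_closure_subset_closure_image hf ⟨y, ?_, rfl⟩
        rw [hy]; exact subset_closure rfl)
    ℕ (fun _ => ↥X0) (fun _ => RR) (fun _ => Subtype.val)
    (fun _ => ⟨continuous_subtype_val, kk_RR, fun Z _ hZ g hg => reflect X0 gen_RR Z hZ g hg⟩)
  obtain ⟨hcont, hK, huniv⟩ := H1
  have hCC := kk_CC hK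
  obtain ⟨h, ⟨hh, hcomp⟩, _⟩ := huniv ↥CC hCC
    (fun x => ⟨fun i => (x i).1, 0, fun i => le_of_eq (x i).2⟩)
    (Continuous.subtype_mk hcont _)
  obtain ⟨_, _, huniq⟩ := huniv (ℕ → RR) hK (fun x i => (x i).1) hcont
  have e1 := huniq (fun r => ((h r : CC) : ℕ → RR)) ⟨continuous_subtype_val.comp hh, by
    funext x
    have := congrFun hcomp x
    show ((h (fun i => (x i).1) : CC) : ℕ → RR) = _
    have h2 : h (fun i => ((x i : X0) : RR)) = ⟨fun i => (x i).1, 0, fun i => le_of_eq (x i).2⟩ := this
    rw [h2]⟩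
  have e2 := huniq id ⟨continuous_id, rfl⟩
  have e3 : ((h (fun i => RR.mk i []) : CC) : ℕ → RR) = fun i => RR.mk i [] := by
    have := congrFun (e1.trans e2.symm) (fun i => RR.mk i [])
    exact this
  obtain ⟨m, hm⟩ := (h (fun i => RR.mk i [])).2
  rw [e3] at hm
  have := hm (m+1)
  simp at this

end Pool.Agent.S12810
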