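import Pool.Statements.S13012
import Pool.Agent.H67.VR.Cube

set_option autoImplicit false
open Pool Pool.MP_360f22_gt

namespace Pool.Agent.S13012

/-- The negation of the preceding statement: For r ≥ 2 with a Hadamard matrix of order 2r and n ≥ 2r−1, the realization of the Vietoris–Rips complex of the n-cube at scale r has trivial homotopy groups up to degree 2r−2 and a nontrivial one in degree 2r−1. -/
theorem result :
    ¬ (∀ r : ℕ, 2 ≤ r →
      (∃ H : Matrix (Fin (2 * r)) (Fin (2 * r)) ℤ,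
          (∀ i j, H i j = 1 ∨ H i j = -1) ∧
          H * H.transpose = (2 * (r : ℤ)) • (1 : Matrix (Fin (2 * r)) (Fin (2 * r)) ℤ)) →
      ∀ n : ℕ, 2 * r - 1 ≤ n →
        ∀ X : Set ((Fin n → Bool) → ℝ),
          X = ⋃ (σ : Finset (Fin n → Bool))
                (_ : ∀ v ∈ σ, ∀ w ∈ σ, hammingDist v w ≤ r),
                convexHull ℝ ((fun v : Fin n → Bool => (Pi.single v (1 : ℝ) : (Fin n → Bool) → ℝ)) ''
                  (σ : Set (Fin n → Bool))) →
          (∀ k : ℕ, k ≤ 2 * r - 2 → ∀ x : X, Subsingleton (HomotopyGroup.Pi k X x)) ∧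
          (∃ x : X, ¬ Subsingleton (HomotopyGroup.Pi (2 * r - 1) X x))) := by
  intro h
  have h1 := (h 14 (by norm_num) ⟨Pool.Agent.H67.VR.hadM, Pool.Agent.H67.VR.had_ok⟩ 27 (by norm_num)
    (Pool.Agent.H67.VR.Cx Pool.Agent.H67.VR.Rel) rfl).1 26 (by norm_num)
  have hmem : (Pi.single Pool.Agent.H67.VR.ym (1 : ℝ) : (Fin 27 → Bool) → ℝ)
      ∈ Pool.Agent.H67.VR.Cx Pool.Agent.H67.VR.Rel := by
    unfold Pool.Agent.H67.VR.Cx
    simp only [Set.mem_iUnion]
    refine ⟨{Pool.Agent.H67.VR.ym}, ?_, ?_⟩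
    · intro v hv w hw
      rw [Finset.mem_singleton] at hv hw
      subst hv; subst hw
      unfold Pool.Agent.H67.VR.Rel
      rw [hammingDist_self]; norm_num
    · exact subset_convexHull ℝ _ ⟨Pool.Agent.H67.VR.ym, by simp, rfl⟩
  exact Pool.Agent.H67.VR.pi26 ⟨_, hmem⟩ rfl (h1 ⟨_, hmem⟩)

end Pool.Agent.S13012
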