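import Pool.Statements.S13122
import Pool.Agent.H61.Valdivia

set_option autoImplicit false
open Pool Pool.MP_49a423_gt

namespace Pool.Agent.S13122

/-- The negation of the preceding statement: Let K be a compact Hausdorff space with a dense Σ-subset, i.e. a Valdivia compactum, and let h be a continuous involution of K. Then K has a dense Σ-subset A that is invariant under h. -/
theorem result :
    ¬ (∀ (K : Type) [TopologicalSpace K] [CompactSpace K] [T2Space K],
      (∃ A : Set K, Dense A ∧ ∃ (Γ : Type) (φ : K → (Γ → ℝ)),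
          Topology.IsEmbedding φ ∧ A = φ ⁻¹' {x : Γ → ℝ | {γ : Γ | x γ ≠ 0}.Countable}) →
      ∀ h : K → K, Continuous h → (∀ x, h (h x) = x) →
        ∃ A : Set K, Dense A ∧ (∀ x, h x ∈ A ↔ x ∈ A) ∧
          ∃ (Γ : Type) (φ : K → (Γ → ℝ)),
            Topology.IsEmbedding φ ∧ A = φ ⁻¹' {x : Γ → ℝ | {γ : Γ | x γ ≠ 0}.Countable}) := by
  intro H
  obtain ⟨A, hA, hinv, Γ, φ, hφ, hAφ⟩ := H Pool.Agent.H61.Valdivia.KK
    ⟨_, Pool.Agent.H61.Valdivia.dense_A₀, _, Pool.Agent.H61.Valdivia.φ₀,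
      Pool.Agent.H61.Valdivia.isEmbedding_φ₀, rfl⟩
    Pool.Agent.H61.Valdivia.hh Pool.Agent.H61.Valdivia.continuous_hh
    Pool.Agent.H61.Valdivia.hh_hh
  exact Pool.Agent.H61.Valdivia.no_invariant A hA hinv Γ φ hφ hAφ

end Pool.Agent.S13122
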