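import Pool.Statements.S13161
import Pool.Agent.H61.SpFinal

set_option autoImplicit false
open Pool Pool.MP_51c861_gt

namespace Pool.Agent.S13161

/-- Let X be a pseudocompact Tychonoff space such that every subset A is exactly the full preimage of its image under some continuous map into a compact subset of c0(Γ) with the pointwise topology. Then X is compact and embeds in such a c0(Γ), i.e. X is Eberlein compact. -/
theorem result :
    ∀ (X : Type) [TopologicalSpace X] [T35Space X],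
      (∀ f : X → ℝ, Continuous f → ∃ M : ℝ, ∀ x, |f x| ≤ M) →
      (∀ A : Set X, ∃ (Γ : Type) (K : Set (Γ → ℝ)) (f : X → (Γ → ℝ)),
          IsCompact K ∧
          (∀ y ∈ K, ∀ ε : ℝ, 0 < ε → Set.Finite {γ : Γ | ε ≤ |y γ|}) ∧
          Continuous f ∧ (∀ x, f x ∈ K) ∧ f ⁻¹' (f '' A) = A) →
      CompactSpace X ∧
        ∃ (Γ : Type) (e : X → (Γ → ℝ)), Topology.IsEmbedding e ∧
          ∀ x, ∀ ε : ℝ, 0 < ε → Set.Finite {γ : Γ | ε ≤ |e x γ|} := by
  intro X _ _ hp hs
  have hs' : Pool.Agent.H61.Sp.Splt X := by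
    intro A
    obtain ⟨Γ, K, f, hK, h0, hf, hfK, hA⟩ := hs A
    refine ⟨⟨Γ, K, f, hK, h0, hf, hfK⟩, fun x y hxy => ?_⟩
    change f x = f y at hxy
    constructor
    · intro hx
      rw [← hA]
      exact ⟨x, hx, hxy⟩
    · intro hy
      rw [← hA]
      exact ⟨y, hy, hxy.symm⟩
  obtain ⟨hX, F, hF⟩ := Pool.Agent.H61.Sp.main X hp hs'
  exact ⟨hX, F.Γ, F.f, hF, fun x ε hε => F.fin x hε⟩

end Pool.Agent.S13161
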