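import Pool.Statements.S13701
import Pool.Agent.H61.SC.Main

set_option autoImplicit false
open Pool Pool.MP_a54a8f_gt

namespace Pool.Agent.S13701

/-- For every n ≥ 1 and t > 0 there is m in 1..n such that the slab {x in [-1,1]^n : ∣<x,f_m>∣ ≤ t}, with f_m = (1,…,1,0,…,0)/√m, has volume at most that of the slab for any unit vector a. -/
theorem result :
    ∀ n : ℕ, 1 ≤ n → ∀ t : ℝ, 0 < t →
      ∃ m : ℕ, 1 ≤ m ∧ m ≤ n ∧
        ∀ a : Fin n → ℝ, ∑ i, a i ^ 2 = 1 →
          MeasureTheory.volume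
              {x : Fin n → ℝ | (∀ i, |x i| ≤ 1) ∧
                |∑ i, x i * (if (i : ℕ) < m then 1 / Real.sqrt (m : ℝ) else 0)| ≤ t}
            ≤ MeasureTheory.volume
              {x : Fin n → ℝ | (∀ i, |x i| ≤ 1) ∧ |∑ i, x i * a i| ≤ t} :=
  Pool.Agent.H60.SL.assembly Pool.Agent.H61.SC.core

end Pool.Agent.S13701
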