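import Pool.Statements.S13912
-- import your own Pool.Agent.* helpers here
import Pool.Agent.H77.UEq.Map

set_option autoImplicit false
open Pool Pool.MP_c610d5_gt

namespace Pool.Agent.S13912

open Pool.Agent.H77.UEq Set Filter Topology

/-! ### the function spaces -/

/-- Values off the point at infinity, relative to the value at infinity. -/
def rel {J : Idl T3} (f : Sp J → ℝ) : T3 → ℝ := fun x => f (Sp.pt x) - f Sp.inf

/-- Rebuild a function. -/
def mk (J : Idl T3) (c : ℝ) (g : T3 → ℝ) : Sp J → ℝ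
  | Sp.inf => c
  | Sp.pt x => g x + c

theorem rel_mk {J : Idl T3} (c : ℝ) (g : T3 → ℝ) : rel (mk J c g) = g := by
  funext x
  change (g x + c) - c = g x
  ring

theorem mk_rel {J : Idl T3} (f : Sp J → ℝ) : mk J (f Sp.inf) (rel f) = f := by
  funext x
  rcases x with _ | x
  · rfl
  · change (f (Sp.pt x) - f Sp.inf) + f Sp.inf = f (Sp.pt x)
    ring

/-- Transport along a map of relative parts. -/
def trans (J K : Idl T3) (F : (T3 → ℝ) → (T3 → ℝ)) (f : Sp J → ℝ) : Sp K → ℝ :=
  mk K (f Sp.inf) (F (rel f))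

theorem trans_trans {J K : Idl T3} {F G : (T3 → ℝ) → (T3 → ℝ)} (h : ∀ g, G (F g) = g)
    (f : Sp J → ℝ) : trans K J G (trans J K F f) = f := by
  unfold trans
  rw [rel_mk, h]
  exact mk_rel f

theorem uc_trans {J K : Idl T3} {F : (T3 → ℝ) → (T3 → ℝ)} (hF : UniformContinuous F) :
    UniformContinuous (trans J K F) := by
  have h0 : UniformContinuous (fun f : Sp J → ℝ => f Sp.inf) := Pi.uniformContinuous_proj _ _
  have h1 : UniformContinuous (fun f : Sp J → ℝ => rel f) := by
    refine uniformContinuous_pi.2 (fun x => ?_)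
    exact (Pi.uniformContinuous_proj (fun _ : Sp J => ℝ) (Sp.pt x)).sub h0
  refine uniformContinuous_pi.2 (fun x => ?_)
  rcases x with _ | x
  · exact h0
  · exact ((Pi.uniformContinuous_proj (fun _ : T3 => ℝ) x).comp (hF.comp h1)).add h0

theorem continuous_trans {J K : Idl T3} {F : (T3 → ℝ) → (T3 → ℝ)}
    (hF : ∀ g : T3 → ℝ, (∀ ε > 0, J.small {x | ε ≤ |g x|}) → ∀ ε > 0, K.small {x | ε ≤ |F g x|})
    {f : Sp J → ℝ} (hf : Continuous f) : Continuous (trans J K F f) := by
  rw [continuous_iff] at hf ⊢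
  have h1 : ∀ x, trans J K F f (Sp.pt x) - trans J K F f Sp.inf = F (rel f) x := by
    intro x
    change (F (rel f) x + f Sp.inf) - f Sp.inf = F (rel f) x
    ring
  simp_rw [h1]
  exact hF (rel f) hf

/-- The uniform homeomorphism `C_p(X) → C_p(Y)`. -/
noncomputable def equiv :
    UniformEquiv {f : Sp JX → ℝ // Continuous f} {g : Sp JY → ℝ // Continuous g} where
  toFun f := ⟨trans JX JY bwd f.1, continuous_trans (fun _ h => bwd_c0 h) f.2⟩
  invFun g := ⟨trans JY JX fwd g.1, continuous_trans (fun _ h => fwd_c0 h) g.2⟩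
  left_inv f := Subtype.ext (trans_trans fwd_bwd f.1)
  right_inv g := Subtype.ext (trans_trans bwd_fwd g.1)
  uniformContinuous_toFun :=
    ((uc_trans uc_bwd).comp uniformContinuous_subtype_val).subtype_mk _
  uniformContinuous_invFun :=
    ((uc_trans uc_fwd).comp uniformContinuous_subtype_val).subtype_mk _

/-! ### `X` is a `k_ω`-space -/

/-- The index part of the exhausting compact sets of `X`. -/
def KI (m : ℕ) : Set T3 := {x | x.2.1 ≤ m ∧ x.2.2 < x.1} ∪ {x | x.1 ≤ m ∧ x.2.1 ≤ m ∧ x.2.2 ≤ m}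

/-- The exhausting compact sets of `X`. -/
def KX (m : ℕ) : Set (Sp JX) := {y | y = Sp.inf ∨ ∃ x ∈ KI m, y = Sp.pt x}

theorem pt_mem_KX {m : ℕ} {x : T3} : Sp.pt x ∈ KX m ↔ x ∈ KI m := by
  constructor
  · rintro (h | ⟨y, hy, h⟩)
    · exact absurd h (by simp)
    · rw [pt_inj JX h]; exact hy
  · intro h; exact Or.inr ⟨x, h, rfl⟩

theorem KI_mono {m n : ℕ} (h : m ≤ n) : KI m ⊆ KI n := by
  rintro x (hx | hx)
  · exact Or.inl ⟨hx.1.trans h, hx.2⟩
  · exact Or.inr ⟨hx.1.trans h, hx.2.1.trans h, hx.2.2.trans h⟩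

theorem mem_KI (x : T3) : x ∈ KI (x.1 + x.2.1 + x.2.2) := by
  right
  refine ⟨?_, ?_, ?_⟩ <;> omega

theorem isCompact_KX (m : ℕ) : IsCompact (KX m) := by
  refine isCompact_of JX _ (Or.inl rfl) ?_
  intro A hA hAC
  -- bound for the block index
  have h1 : ∃ N, ∀ n ≤ m, ∀ j ≥ N, ∀ i < j, (j, n, i) ∉ A := by
    have h2 : ∀ᶠ j in atTop, ∀ n ∈ Finset.range (m + 1), ∀ i < j, (j, n, i) ∉ A := by
      rw [Filter.eventually_all_finset]
      intro n _
      exact hA n
    obtain ⟨N, hN⟩ := eventually_atTop.1 h2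
    exact ⟨N, fun n hn j hj => hN j hj n (Finset.mem_range.2 (by omega))⟩
  obtain ⟨N, hN⟩ := h1
  have hfin : (Set.Iic (N + m, m, N + m) : Set T3).Finite := Set.finite_Iic _
  refine hfin.subset ?_
  rintro ⟨j, n, i⟩ hx
  have hK := pt_mem_KX.1 (hAC _ hx)
  rw [Set.mem_Iic, Prod.mk_le_mk, Prod.mk_le_mk]
  rcases hK with hK | hK
  · have h3 : n ≤ m := hK.1
    have h4 : i < j := hK.2
    have h5 : j < N := by
      by_contra h6
      exact hN n h3 j (by omega) i h4 hx
    refine ⟨by omega, h3, by omega⟩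
  · have h3 : j ≤ m := hK.1
    have h4 : n ≤ m := hK.2.1
    have h5 : i ≤ m := hK.2.2
    refine ⟨by omega, h4, by omega⟩

theorem hemicompact_X (C : Set (Sp JX)) (hC : IsCompact C) : ∃ n, C ⊆ KX n := by
  by_contra hcon
  push Not at hcon
  have h1 : ∀ m, ∃ x : T3, Sp.pt x ∈ C ∧ x ∉ KI m := by
    intro m
    obtain ⟨y, hy, hyn⟩ := Set.not_subset.1 (hcon m)
    rcases y with _ | x
    · exact (hyn (Or.inl rfl)).elim
    · exact ⟨x, hy, fun h => hyn (pt_mem_KX.2 h)⟩
  choose c hc hcn using h1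
  have hsmall : JX.small (Set.range c) := by
    intro n
    -- only the finitely many `c m`, `m < n`, matter
    have h2 : ∀ᶠ j in atTop, ∀ m ∈ Finset.range n, (c m).1 < j := by
      rw [Filter.eventually_all_finset]
      intro m _
      exact eventually_gt_atTop _
    filter_upwards [h2] with j hj i hi
    rintro ⟨m, hm⟩
    by_cases hmn : m < n
    · have := hj m (Finset.mem_range.2 hmn)
      rw [hm] at this
      exact absurd this (lt_irrefl _)
    · apply hcn m
      rw [hm]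
      left
      exact ⟨by simpa using (not_lt.1 hmn), hi⟩
  have hfin : (Set.range c).Finite := by
    refine finite_of_small JX hC hsmall ?_
    rintro _ ⟨m, rfl⟩
    exact hc m
  -- a finite set is contained in some `KI m`
  have h3 : ∃ m, Set.range c ⊆ KI m := by
    obtain ⟨B, hB⟩ := (hfin.image (fun x : T3 => x.1 + x.2.1 + x.2.2)).bddAbove
    refine ⟨B, fun x hx => ?_⟩
    exact KI_mono (hB (Set.mem_image_of_mem _ hx)) (mem_KI x)
  obtain ⟨m, hm⟩ := h3
  exact hcn m (hm (Set.mem_range_self m))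

theorem k_X (A : Set (Sp JX)) (hA : ∀ C : Set (Sp JX), IsCompact C → IsClosed (A ∩ C)) :
    IsClosed A := by
  by_cases hn : Sp.inf ∈ A
  · exact isClosed_of_mem JX hn
  · rw [isClosed_iff JX A hn]
    intro n
    have h1 := hA (KX n) (isCompact_KX n)
    rw [isClosed_iff JX _ (fun h => hn h.1)] at h1
    filter_upwards [h1 n] with j hj i hi hx
    exact hj i hi ⟨hx, pt_mem_KX.2 (Or.inl ⟨le_rfl, hi⟩)⟩

/-! ### `Y` is not a `k`-space -/

/-- The bottom layer of `Y`. -/
def D : Set (Sp JY) := {y | ∃ j i : ℕ, i < j ∧ y = Sp.pt (j, 0, i)}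

theorem inf_not_mem_D : Sp.inf ∉ D := by
  rintro ⟨j, i, _, h⟩
  exact absurd h (by simp)

theorem pt_mem_D {x : T3} (h : Sp.pt x ∈ D) : x.2.1 = 0 ∧ x.2.2 < x.1 := by
  obtain ⟨j, i, hij, h'⟩ := h
  rw [pt_inj JY h']
  exact ⟨rfl, hij⟩

theorem D_inter_compact (C : Set (Sp JY)) (hC : IsCompact C) : IsClosed (D ∩ C) := by
  rw [isClosed_iff JY _ (fun h => inf_not_mem_D h.1)]
  -- only finitely many blocks meet `D ∩ C`
  have hfin : {j : ℕ | ∃ i, i < j ∧ Sp.pt (j, 0, i) ∈ C}.Finite := by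
    have h1 : ∀ j : ℕ, ∃ i, (∃ i, i < j ∧ Sp.pt (j, 0, i) ∈ C) → i < j ∧ Sp.pt (j, 0, i) ∈ C := by
      intro j
      by_cases h : ∃ i, i < j ∧ Sp.pt (j, 0, i) ∈ C
      · obtain ⟨i, hi⟩ := h
        exact ⟨i, fun _ => hi⟩
      · exact ⟨0, fun h' => (h h').elim⟩
    choose s hs using h1
    set A : Set T3 := {x | (∃ i, i < x.1 ∧ Sp.pt (x.1, 0, i) ∈ C) ∧ x.2.1 = 0 ∧ x.2.2 = s x.1}
      with hA
    have hsmall : JY.small A := by
      refine ⟨fun n => Eventually.of_forall ?_, fun m => ?_⟩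
      · rintro j i _ ⟨_, h, _⟩
        exact absurd h (Nat.succ_ne_zero n)
      · filter_upwards [eventually_ge_atTop (2 ^ m)] with j hj
        have h2 : cnt A j ≤ 1 := by
          unfold cnt
          rw [Finset.card_le_one]
          intro a ha b hb
          rw [mem_cset] at ha hb
          have h3 : a = s j := ha.2.2.2
          have h4 : b = s j := hb.2.2.2
          rw [h3, h4]
        calc 2 ^ m * cnt A j ≤ 2 ^ m * 1 := Nat.mul_le_mul_left _ h2
          _ ≤ j := by rw [mul_one]; exact hj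
    have hAfin : A.Finite := by
      refine finite_of_small JY hC hsmall ?_
      rintro ⟨j, n, i⟩ ⟨h1, h2, h3⟩
      have h2' : n = 0 := h2
      have h3' : i = s j := h3
      subst h2' h3'
      exact (hs j h1).2
    refine (hAfin.image (fun x : T3 => x.1)).subset ?_
    intro j hj
    exact ⟨(j, 0, s j), ⟨hj, rfl, rfl⟩, rfl⟩
  obtain ⟨B, hB⟩ := hfin.bddAbove
  have hno : ∀ j, B < j → ∀ n i, (j, n, i) ∉ {x : T3 | Sp.pt x ∈ D ∩ C} := by
    rintro j hj n i ⟨h1, h2⟩
    obtain ⟨h3, h4⟩ := pt_mem_D h1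
    have h3' : n = 0 := h3
    subst h3'
    have := hB (show j ∈ {j : ℕ | ∃ i, i < j ∧ Sp.pt (j, 0, i) ∈ C} from ⟨i, h4, h2⟩)
    omega
  refine ⟨fun n => ?_, fun m => ?_⟩
  · filter_upwards [eventually_gt_atTop B] with j hj i _
    exact hno j hj _ _
  · filter_upwards [eventually_gt_atTop B] with j hj
    have : cnt {x : T3 | Sp.pt x ∈ D ∩ C} j = 0 := by
      unfold cnt
      rw [Finset.card_eq_zero, Finset.eq_empty_iff_forall_notMem]
      intro i h'
      rw [mem_cset] at h'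
      exact hno j hj _ _ h'.2
    rw [this]; simp

theorem D_not_closed : ¬ IsClosed D := by
  rw [isClosed_iff JY _ inf_not_mem_D]
  rintro ⟨_, h⟩
  obtain ⟨N, hN⟩ := eventually_atTop.1 (h 1)
  have h1 := hN (N + 1) (by omega)
  have h2 : cnt {x : T3 | Sp.pt x ∈ D} (N + 1) = N + 1 := by
    unfold cnt
    have : cset {x : T3 | Sp.pt x ∈ D} (N + 1) = Finset.range (N + 1) := by
      ext i
      rw [mem_cset, Finset.mem_range]
      constructor
      · exact fun h => h.1
      · exact fun h => ⟨h, ⟨N + 1, i, h, rfl⟩⟩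
    rw [this, Finset.card_range]
  rw [h2] at h1
  omega

/-- The negation of the preceding statement: For Tychonoff spaces X, Y whose spaces of continuous real functions with the pointwise uniformity are uniformly homeomorphic, if X is hemicompact and a k-space then so is Y. -/
theorem result :
    ¬ (∀ (X Y : Type) [TopologicalSpace X] [TopologicalSpace Y] [T35Space X] [T35Space Y],
      Nonempty (UniformEquiv {f : X → ℝ // Continuous f} {g : Y → ℝ // Continuous g}) →
      ((∃ K : ℕ → Set X, (∀ n, IsCompact (K n)) ∧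
          ∀ C : Set X, IsCompact C → ∃ n, C ⊆ K n) ∧
        (∀ A : Set X, (∀ C : Set X, IsCompact C → IsClosed (A ∩ C)) → IsClosed A)) →
      ((∃ K : ℕ → Set Y, (∀ n, IsCompact (K n)) ∧
          ∀ C : Set Y, IsCompact C → ∃ n, C ⊆ K n) ∧
        (∀ A : Set Y, (∀ C : Set Y, IsCompact C → IsClosed (A ∩ C)) → IsClosed A))) := by
  intro h
  have h1 := h (Sp JX) (Sp JY) ⟨equiv⟩ ⟨⟨KX, isCompact_KX, hemicompact_X⟩, k_X⟩
  exact D_not_closed (h1.2 D D_inter_compact)

end Pool.Agent.S13912
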