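import Pool.Statements.S13965
import Pool.Agent.H63.Cee.NonSumm
import Pool.Agent.H63.Cee.InjRad

set_option autoImplicit false
open Matrix
open Pool Pool.MP_cee277_gt

namespace Pool.Agent.S13965

open Pool.Agent.H63.Cee

/-- what is required of the number `δ` and of a group realising it -/
def Good (δ : ℝ) : Prop := ∃ N : Subgroup (Matrix.GeneralLinearGroup (Fin 4) ℝ),
        (∀ g ∈ N,
          ((g : Matrix (Fin 4) (Fin 4) ℝ)ᵀ * Matrix.diagonal (![-1, 1, 1, 1] : Fin 4 → ℝ) *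
              (g : Matrix (Fin 4) (Fin 4) ℝ) = Matrix.diagonal (![-1, 1, 1, 1] : Fin 4 → ℝ)) ∧
            0 < (g : Matrix (Fin 4) (Fin 4) ℝ) 0 0) ∧
        DiscreteTopology N ∧
        (∃ R : ℝ, ∀ x : Fin 4 → ℝ,
          x ⬝ᵥ (Matrix.diagonal (![-1, 1, 1, 1] : Fin 4 → ℝ) *ᵥ x) = -1 → 0 < x 0 →
            ∃ g ∈ N, g ≠ 1 ∧
              -(x ⬝ᵥ (Matrix.diagonal (![-1, 1, 1, 1] : Fin 4 → ℝ) *ᵥ
                  ((g : Matrix (Fin 4) (Fin 4) ℝ) *ᵥ x))) ≤ R) ∧
        (∀ s : ℝ, δ < s →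
          Summable (fun g : N =>
            (((g : Matrix.GeneralLinearGroup (Fin 4) ℝ) : Matrix (Fin 4) (Fin 4) ℝ) 0 0) ^ (-s))) ∧
        (∀ s : ℝ, s < δ →
          ¬ Summable (fun g : N =>
            (((g : Matrix.GeneralLinearGroup (Fin 4) ℝ) : Matrix (Fin 4) (Fin 4) ℝ) 0 0) ^ (-s)))

lemma exists_kappa (ε : ℝ) (hε : 0 < ε) : ∃ κ : ℝ, 0 < κ ∧ κ ≤ 1 / 2 ∧
    2 * CC ε * (2 * κ) ^ ε ≤ 1 / 2 := by
  have hC := CC_nonneg ε
  set a : ℝ := (1 / (4 * (CC ε + 1))) ^ (1 / ε) with ha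
  have ha0 : 0 < a := by positivity
  refine ⟨min 1 a / 2, by positivity, ?_, ?_⟩
  · have := min_le_left (1:ℝ) a
    linarith
  · have h1 : (2 * (min 1 a / 2)) ^ ε ≤ 1 / (4 * (CC ε + 1)) := by
      calc (2 * (min 1 a / 2)) ^ ε ≤ a ^ ε := by
            apply Real.rpow_le_rpow (by positivity) _ hε.le
            have := min_le_right (1:ℝ) a
            linarith
        _ = 1 / (4 * (CC ε + 1)) := by
            rw [ha, ← Real.rpow_mul (by positivity), one_div_mul_cancel hε.ne', Real.rpow_one]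
    calc 2 * CC ε * (2 * (min 1 a / 2)) ^ ε ≤ 2 * CC ε * (1 / (4 * (CC ε + 1))) := by gcongr
      _ ≤ 1 / 2 := by
          rw [mul_one_div, div_le_div_iff₀ (by positivity) (by norm_num)]
          linarith

lemma exists_good (ε : ℝ) (hε : 0 < ε) : ∃ δ : ℝ, 1 < δ ∧ δ ≤ 1 + ε ∧ Good δ := by
  obtain ⟨κ, hκ, hκ2, hκ3⟩ := exists_kappa ε hε
  have hsum := NN_summable ε κ hε hκ hκ2 hκ3
  obtain ⟨s0, hs0, hns⟩ := exists_not_summable κ hκ hκ2
  let A : Set ℝ := {s | Summable (fun g : NN κ => ((g : G4) : Matrix (Fin 4) (Fin 4) ℝ) 0 0 ^ (-s))}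
  have hmono : ∀ s s' : ℝ, s ≤ s' → s ∈ A → s' ∈ A := by
    intro s s' hss hs
    refine Summable.of_nonneg_of_le ?_ ?_ hs
    · intro g
      exact Real.rpow_nonneg (NN_pos κ hκ g.1 g.2).le _
    · intro g
      exact Real.rpow_le_rpow_of_exponent_le (NN_ge_one κ hκ g.1 g.2) (by linarith)
  have hlow : ∀ s ∈ A, s0 ≤ s := by
    intro s hs
    by_contra hcon
    exact hns (hmono s s0 (not_le.1 hcon).le hs)
  have hbdd : BddBelow A := ⟨s0, hlow⟩
  have hne : A.Nonempty := ⟨1 + ε, hsum⟩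
  refine ⟨sInf A, lt_of_lt_of_le hs0 (le_csInf hne hlow), csInf_le hbdd hsum, NN κ, ?_, ?_, ?_, ?_, ?_⟩
  · intro g hg
    exact ⟨NN_form κ hκ g hg, NN_pos κ hκ g hg⟩
  · exact NN_discrete ε κ hε hκ hκ2 hκ3
  · exact inj_radius κ hκ hκ2
  · intro s hs
    obtain ⟨s', hs', hlt⟩ := exists_lt_of_csInf_lt hne hs
    exact hmono s' s hlt.le hs'
  · intro s hs hcon
    exact absurd (csInf_le hbdd hcon) (not_le.2 hs)

/-- the sequence -/
noncomputable def seq : ℕ → {δ : ℝ // 1 < δ ∧ Good δ}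
  | 0 => ⟨(exists_good 1 one_pos).choose, (exists_good 1 one_pos).choose_spec.1,
      (exists_good 1 one_pos).choose_spec.2.2⟩
  | (n + 1) =>
    have h : 0 < ((seq n).1 - 1) / 2 := by
      have := (seq n).2.1
      linarith
    ⟨(exists_good _ h).choose, (exists_good _ h).choose_spec.1, (exists_good _ h).choose_spec.2.2⟩

lemma seq_succ_le (n : ℕ) : (seq (n + 1)).1 ≤ 1 + ((seq n).1 - 1) / 2 := by
  have h : 0 < ((seq n).1 - 1) / 2 := by
    have := (seq n).2.1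
    linarith
  rw [seq]
  exact (exists_good _ h).choose_spec.2.1

lemma seq_bound (n : ℕ) : (seq n).1 - 1 ≤ ((seq 0).1 - 1) * (1 / 2) ^ n := by
  induction n with
  | zero => simp
  | succ n ih =>
    have h1 := seq_succ_le n
    rw [pow_succ]
    linarith

/-- There is a strictly decreasing sequence of reals tending to 1, each the critical exponent of a discrete group of isometries of hyperbolic 3-space whose quotient has injectivity radius bounded above. -/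
theorem result :
    ∃ δ : ℕ → ℝ, StrictAnti δ ∧ Filter.Tendsto δ Filter.atTop (nhds 1) ∧
      ∀ i : ℕ, ∃ N : Subgroup (Matrix.GeneralLinearGroup (Fin 4) ℝ),
        (∀ g ∈ N,
          ((g : Matrix (Fin 4) (Fin 4) ℝ)ᵀ * Matrix.diagonal (![-1, 1, 1, 1] : Fin 4 → ℝ) *
              (g : Matrix (Fin 4) (Fin 4) ℝ) = Matrix.diagonal (![-1, 1, 1, 1] : Fin 4 → ℝ)) ∧
            0 < (g : Matrix (Fin 4) (Fin 4) ℝ) 0 0) ∧
        DiscreteTopology N ∧
        (∃ R : ℝ, ∀ x : Fin 4 → ℝ,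
          x ⬝ᵥ (Matrix.diagonal (![-1, 1, 1, 1] : Fin 4 → ℝ) *ᵥ x) = -1 → 0 < x 0 →
            ∃ g ∈ N, g ≠ 1 ∧
              -(x ⬝ᵥ (Matrix.diagonal (![-1, 1, 1, 1] : Fin 4 → ℝ) *ᵥ
                  ((g : Matrix (Fin 4) (Fin 4) ℝ) *ᵥ x))) ≤ R) ∧
        (∀ s : ℝ, δ i < s →
          Summable (fun g : N =>
            (((g : Matrix.GeneralLinearGroup (Fin 4) ℝ) : Matrix (Fin 4) (Fin 4) ℝ) 0 0) ^ (-s))) ∧
        (∀ s : ℝ, s < δ i →
          ¬ Summable (fun g : N =>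
            (((g : Matrix.GeneralLinearGroup (Fin 4) ℝ) : Matrix (Fin 4) (Fin 4) ℝ) 0 0) ^ (-s))) := by
  refine ⟨fun n => (seq n).1, ?_, ?_, ?_⟩
  · apply strictAnti_nat_of_succ_lt
    intro n
    have h1 := seq_succ_le n
    have h2 := (seq n).2.1
    linarith
  · have h1 : Filter.Tendsto (fun n : ℕ => 1 + ((seq 0).1 - 1) * (1 / 2 : ℝ) ^ n) Filter.atTop
        (nhds (1 + ((seq 0).1 - 1) * 0)) := by
      apply Filter.Tendsto.const_add
      apply Filter.Tendsto.const_mul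
      exact tendsto_pow_atTop_nhds_zero_of_lt_one (by norm_num) (by norm_num)
    rw [mul_zero, add_zero] at h1
    apply tendsto_of_tendsto_of_tendsto_of_le_of_le tendsto_const_nhds h1
    · intro n
      exact (seq n).2.1.le
    · intro n
      have := seq_bound n
      simp only
      linarith
  · intro i
    exact (seq i).2.2

end Pool.Agent.S13965
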