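import Pool.Statements.S14407
import Pool.Agent.H77.Fresh.CaseOne

set_option autoImplicit false
open Pool Pool.MP_14b149_lc

namespace Pool.Agent.S14407

/-- If U is a normal measure on a measurable δ, κ is singular of cofinality δ with λ^δ<κ for λ<κ, and a square_κ sequence exists, then some unbounded A ⊆ κ⁺ is not in Ult(V,U) while every proper initial segment of A is in Ult(V,U). -/
theorem result :
  ∀ (δ κ : Cardinal.{0}) (U : Ultrafilter Ordinal.{0}),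
    Cardinal.aleph0 < δ →
    Set.Iio δ.ord ∈ U →
    (∀ β : Ordinal.{0}, ({β} : Set Ordinal.{0}) ∉ U) →
    (∀ (ι : Type) (s : ι → Set Ordinal.{0}), Cardinal.mk ι < δ → (∀ i, s i ∈ U) → (⋂ i, s i) ∈ U) →
    (∀ f : Ordinal.{0} → Ordinal.{0}, {β | f β < β} ∈ U → ∃ γ, {β | f β = γ} ∈ U) →
    δ < κ →
    κ.ord.cof = δ →
    (∀ μ : Cardinal.{0}, μ < κ → μ ^ δ < κ) →
    (∃ C : Ordinal.{0} → Set Ordinal.{0}, ∀ α < (Order.succ κ).ord, Order.IsSuccLimit α →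
        C α ⊆ Set.Iio α ∧
        (∀ β < α, ∃ γ ∈ C α, β < γ) ∧
        (∀ β < α, Order.IsSuccLimit β → (∀ γ < β, ∃ ξ ∈ C α, γ < ξ ∧ ξ < β) → β ∈ C α) ∧
        Nonempty (C α ↪o Set.Iio κ.ord) ∧
        (∀ β < α, Order.IsSuccLimit β → (∀ γ < β, ∃ ξ ∈ C α, γ < ξ ∧ ξ < β) →
          C β = C α ∩ Set.Iio β)) →
    ∀ ρ : (Ordinal.{0} → Ordinal.{0}) → Ordinal.{0},
      (∀ h h' : Ordinal.{0} → Ordinal.{0},
          ρ h < ρ h' ↔ ∀ᶠ i in (U : Filter Ordinal.{0}), h i < h' i) →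
      (∀ h : Ordinal.{0} → Ordinal.{0}, ∀ β < ρ h, ∃ h' : Ordinal.{0} → Ordinal.{0}, ρ h' = β) →
      ∃ A : Set Ordinal.{0},
        A ⊆ Set.Iio (Order.succ κ).ord ∧
        (∀ β < (Order.succ κ).ord, ∃ γ ∈ A, β < γ) ∧
        (¬ ∃ g : Ordinal.{0} → Set Ordinal.{0}, ∀ η : Ordinal.{0},
            η ∈ A ↔ ∃ f : Ordinal.{0} → Ordinal.{0},
              ρ f = η ∧ ∀ᶠ i in (U : Filter Ordinal.{0}), f i ∈ g i) ∧
        (∀ α < (Order.succ κ).ord, ∃ g : Ordinal.{0} → Set Ordinal.{0}, ∀ η : Ordinal.{0},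
            η ∈ A ∩ Set.Iio α ↔ ∃ f : Ordinal.{0} → Ordinal.{0},
              ρ f = η ∧ ∀ᶠ i in (U : Filter Ordinal.{0}), f i ∈ g i) := by
  intro δ κ U h1 h2 h3 h4 h5 h6 h7 h8 h9 ρ h10 h11
  obtain ⟨C, hC⟩ := h9
  exact Pool.Agent.H77.Fresh.main (C := C) ⟨h1, h2, h3, h4, h5, h10, h11⟩ h6 h7 h8 hC

end Pool.Agent.S14407
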