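import Pool.Statements.S14658
import Pool.Agent.H74.SibCount

set_option autoImplicit false
open Cardinal
open Pool Pool.MP_47bb53_lc

namespace Pool.Agent.S14658

/-- The negation of the preceding statement: For a countable mutually algebraic structure M in a countable relational language, the number of isomorphism types of structures bi-embeddable with M (counted as substructures of M into which M embeds) is 1, aleph-null, or continuum. -/
theorem result :
    ¬ (∀ (L : FirstOrder.Language.{0, 0}) [L.IsRelational] [Countable L.Symbols]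
    (M : Type) [L.Structure M] [Countable M],
    (∀ (n : ℕ) (s : Set (Fin n → M)), (Set.univ : Set M).Definable L s →
      ∀ F : Set (Set (Fin n → M)),
        ∅ ∈ F →
        (∀ u ∈ F, uᶜ ∈ F) →
        (∀ u ∈ F, ∀ v ∈ F, u ∪ v ∈ F) →
        (∀ (m : ℕ) (f : Fin m → Fin n) (t : Set (Fin m → M)), Function.Injective f →
           (Set.univ : Set M).Definable L t →
           (m = 1 ∨ (2 ≤ m ∧ ∃ K : ℕ, ∀ (i : Fin m) (a : M),
              ({b ∈ t | b i = a}).encard ≤ (K : ℕ∞))) →
           {x : Fin n → M | x ∘ f ∈ t} ∈ F) →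
        s ∈ F) →
    (Cardinal.mk (Quot (fun N N' : {N : L.Substructure M // Nonempty (L.Embedding M ↥N)} =>
        Nonempty (L.Equiv ↥N.1 ↥N'.1))) = 1 ∨
     Cardinal.mk (Quot (fun N N' : {N : L.Substructure M // Nonempty (L.Embedding M ↥N)} =>
        Nonempty (L.Equiv ↥N.1 ↥N'.1))) = ℵ₀ ∨
     Cardinal.mk (Quot (fun N N' : {N : L.Substructure M // Nonempty (L.Embedding M ↥N)} =>
        Nonempty (L.Equiv ↥N.1 ↥N'.1))) = 𝔠)) := by
  intro H
  obtain ⟨A, hinf, hpar, hpair, htrans⟩ := Pool.Agent.H74.Sib.exists_main_set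
  have h := H (Pool.Agent.H74.Sib.LG (FreeGroup ℕ)) A (Pool.Agent.H74.Sib.mutAlg A)
  rw [Pool.Agent.H74.Sib.card_siblings A hinf hpar hpair htrans] at h
  rcases h with h | h | h
  · norm_num at h
  · exact (Cardinal.natCast_lt_aleph0 (n := 2)).ne (by exact_mod_cast h)
  · exact (Cardinal.nat_lt_continuum 2).ne (by exact_mod_cast h)

end Pool.Agent.S14658
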