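import Pool.Statements.S14877
import Pool.Agent.H21.HS.Fin
import Pool.Agent.H14.HS.AVG
import Pool.Agent.H14.HS.CNT
import Pool.Agent.H14.HS.DET
import Pool.Agent.H14.HS.MEAN
import Pool.Agent.H14.HS.STEP
import Pool.Agent.H54.HS.Dist
import Pool.Agent.H54.HS.For
import Pool.Agent.H54.HS.Iter
import Pool.Agent.H54.HS.Var
import Pool.Agent.H70.HS.CODE
import Pool.Agent.H70.HS.DUAL

set_option autoImplicit false
open Pool Pool.MP_7023e6_lc

namespace Pool.Agent.S14877

/-- There is a constant C so that every nonnegatively weighted hypergraph on n vertices, for every ε in (0,1/2), has a reweighted hypergraph with at most C·n/ε² edges whose every cut value is within a factor 1±ε of the original. -/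
theorem result :
    ∃ C : ℝ, 0 < C ∧
      ∀ (V : Type) [Fintype V] [DecidableEq V] (w : Finset V → ℝ),
        (∀ e, 0 ≤ w e) →
        ∀ ε : ℝ, 0 < ε → ε < 1 / 2 →
          ∃ w' : Finset V → ℝ,
            (∀ e, 0 ≤ w' e) ∧
            (((Finset.univ : Finset (Finset V)).filter (fun e => w' e ≠ 0)).card : ℝ)
                ≤ C * (Fintype.card V : ℝ) / ε ^ 2 ∧
            ∀ S : Finset V,
              (1 - ε) * (∑ e ∈ (Finset.univ : Finset (Finset V)).filter
                  (fun e => (e ∩ S).Nonempty ∧ (e \ S).Nonempty), w e)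
                ≤ (∑ e ∈ (Finset.univ : Finset (Finset V)).filter
                  (fun e => (e ∩ S).Nonempty ∧ (e \ S).Nonempty), w' e) ∧
              (∑ e ∈ (Finset.univ : Finset (Finset V)).filter
                  (fun e => (e ∩ S).Nonempty ∧ (e \ S).Nonempty), w' e)
                ≤ (1 + ε) * (∑ e ∈ (Finset.univ : Finset (Finset V)).filter
                  (fun e => (e ∩ S).Nonempty ∧ (e \ S).Nonempty), w e) := by
  exact Pool.Agent.H21.HS.final
    (Pool.Agent.H54.HS.iter (Pool.Agent.H14.HS.step
      (Pool.Agent.H21.HS.pc Pool.Agent.H54.HS.for_ Pool.Agent.H14.HS.cnt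
        Pool.Agent.H70.HS.DUAL.dual
        (Pool.Agent.H70.HS.CODE.code Pool.Agent.H14.HS.avg Pool.Agent.H54.HS.dist
          Pool.Agent.H54.HS.var Pool.Agent.H14.HS.mean)
        Pool.Agent.H14.HS.det)))

end Pool.Agent.S14877
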