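import Pool.Statements.S14952
import Pool.Agent.H69.Main

set_option autoImplicit false
open Pool Pool.MP_7eacc3_lc

namespace Pool.Agent.S14952

/-- The negation of the preceding statement: Every Turing degree above the halting problem 0′ has a complemented lower cone, and any degree x such that every degree above x has a complemented lower cone must itself compute 0′. -/
theorem result :
    ¬ ((∀ d : ℕ → ℕ,
      TuringReducible
        (Set.indicator {n : ℕ | (Nat.Partrec.Code.eval (Denumerable.ofNat Nat.Partrec.Code n) n).Dom}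
          (fun _ => (1 : ℕ)) : ℕ →. ℕ) (d : ℕ →. ℕ) →
      ∀ a : ℕ → ℕ, TuringReducible (a : ℕ →. ℕ) (d : ℕ →. ℕ) →
        ∃ b : ℕ → ℕ, TuringReducible (b : ℕ →. ℕ) (d : ℕ →. ℕ) ∧
          (∀ c : ℕ → ℕ, TuringReducible (a : ℕ →. ℕ) (c : ℕ →. ℕ) →
              TuringReducible (b : ℕ →. ℕ) (c : ℕ →. ℕ) →
              TuringReducible (d : ℕ →. ℕ) (c : ℕ →. ℕ)) ∧
          (∀ c : ℕ → ℕ, TuringReducible (c : ℕ →. ℕ) (a : ℕ →. ℕ) →
              TuringReducible (c : ℕ →. ℕ) (b : ℕ →. ℕ) → Computable c)) ∧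
    (∀ x : ℕ → ℕ,
      (∀ d : ℕ → ℕ, TuringReducible (x : ℕ →. ℕ) (d : ℕ →. ℕ) →
        ∀ a : ℕ → ℕ, TuringReducible (a : ℕ →. ℕ) (d : ℕ →. ℕ) →
          ∃ b : ℕ → ℕ, TuringReducible (b : ℕ →. ℕ) (d : ℕ →. ℕ) ∧
            (∀ c : ℕ → ℕ, TuringReducible (a : ℕ →. ℕ) (c : ℕ →. ℕ) →
                TuringReducible (b : ℕ →. ℕ) (c : ℕ →. ℕ) →
                TuringReducible (d : ℕ →. ℕ) (c : ℕ →. ℕ)) ∧
            (∀ c : ℕ → ℕ, TuringReducible (c : ℕ →. ℕ) (a : ℕ →. ℕ) →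
                TuringReducible (c : ℕ →. ℕ) (b : ℕ →. ℕ) → Computable c)) →
      TuringReducible
        (Set.indicator {n : ℕ | (Nat.Partrec.Code.eval (Denumerable.ofNat Nat.Partrec.Code n) n).Dom}
          (fun _ => (1 : ℕ)) : ℕ →. ℕ) (x : ℕ →. ℕ))) := by
  rintro ⟨-, h2⟩
  obtain ⟨f, hf, hall⟩ := Pool.Agent.H69.main
  exact hf (h2 f hall)

end Pool.Agent.S14952
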