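import Pool.Statements.S15675
import Pool.Agent.H22.TF.Final
import Pool.Agent.H82.TF.Sandwich

set_option autoImplicit false
open MeasureTheory
open Pool Pool.MP_0f7e37_mp

namespace Pool.Agent.S15675

/-- For any positive nuclear charges at distinct points in 3-space, the Thomas–Fermi energy plus the kinetic energy 3/5∫ρ^{5/3} of the minimizing density does not increase as the electron number grows from 0 up to the total nuclear charge. -/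
theorem result :
  ∀ (k : ℕ) (z : Fin k → ℝ) (R : Fin k → EuclideanSpace ℝ (Fin 3)),
    (∀ i, 0 < z i) → Function.Injective R →
    ∀ (A : (EuclideanSpace ℝ (Fin 3) → ℝ) → Prop)
      (E : (EuclideanSpace ℝ (Fin 3) → ℝ) → ℝ),
    (∀ ρ, A ρ ↔ ((∀ x, 0 ≤ ρ x) ∧ Integrable ρ ∧
        Integrable (fun x => ρ x ^ ((5 : ℝ) / 3)))) →
    (∀ ρ, E ρ =
        (3 / 5 : ℝ) * (∫ x, ρ x ^ ((5 : ℝ) / 3))
        - (∫ x, (∑ i, z i / ‖x - R i‖) * ρ x)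
        + (1 / 2 : ℝ) * (∫ x, (∫ y, ρ x * ρ y / ‖x - y‖))
        + ∑ i, ∑ j, (if i < j then z i * z j / ‖R i - R j‖ else 0)) →
    ∀ (l₁ l₂ : ℝ) (ρ₁ ρ₂ : EuclideanSpace ℝ (Fin 3) → ℝ),
      0 ≤ l₁ → l₁ ≤ l₂ → l₂ ≤ ∑ i, z i →
      A ρ₁ → (∫ x, ρ₁ x) = l₁ →
      (∀ σ, A σ → (∫ x, σ x) = l₁ → E ρ₁ ≤ E σ) →
      A ρ₂ → (∫ x, ρ₂ x) = l₂ →
      (∀ σ, A σ → (∫ x, σ x) = l₂ → E ρ₂ ≤ E σ) →
      E ρ₂ + (3 / 5 : ℝ) * (∫ x, ρ₂ x ^ ((5 : ℝ) / 3))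
        ≤ E ρ₁ + (3 / 5 : ℝ) * (∫ x, ρ₁ x ^ ((5 : ℝ) / 3)) := by
  intro k z R hz _ A E hA hE l₁ l₂ ρ₁ ρ₂ h0 h12 _ hA1 hm1 hmin1 hA2 hm2 hmin2
  exact Pool.Agent.H29.TF.final_of_DD z R hz
    (Pool.Agent.H29.TF.DDprop_of_sandwich
      (fun h hh s hs => Pool.Agent.H82.TF.Ch_form_le hh hs.1)
      (fun h hh s hs => by
        rw [Pool.Agent.H82.TF.integral_integral_Ch]
        exact Pool.Agent.H82.TF.Coul_le_Ch hh hs) z hz R)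
    A E hA hE l₁ l₂ ρ₁ ρ₂ h0 h12 hA1 hm1 hmin1 hA2 hm2 hmin2

end Pool.Agent.S15675
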