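-- The composite number n = 25643985470955911102 = 2 * 61 * 67 * 6803 * 29027 * 15887233 satisfies
-- phi(n) * d(n) + 2 = 31 * n.
import Pool.Statements.S16721

set_option autoImplicit false
open Pool Pool.MP_444361_nt

namespace Pool.Agent.S16721

/-- The six primes. -/
private theorem p2 : Nat.Prime 2 := by norm_num
private theorem p61 : Nat.Prime 61 := by norm_num
private theorem p67 : Nat.Prime 67 := by norm_num
private theorem p6803 : Nat.Prime 6803 := by norm_num
private theorem p29027 : Nat.Prime 29027 := by norm_num
private theorem p15887233 : Nat.Prime 15887233 := by norm_num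

private theorem dcard {p : ℕ} (hp : p.Prime) : p.divisors.card = 2 := by
  rw [hp.divisors]
  exact Finset.card_pair hp.one_lt.ne

/-- There exists a composite natural number n, with n ≠ 4, such that n divides φ(n) times the number of divisors of n, plus 2. -/
theorem result :
    ∃ n : ℕ, 1 < n ∧ ¬ n.Prime ∧ n ≠ 4 ∧
      n ∣ Nat.totient n * n.divisors.card + 2 := by
  refine ⟨2 * 61 * 67 * 6803 * 29027 * 15887233, by norm_num, ?_, by norm_num, ?_⟩
  · intro h
    have h2 : 2 ∣ 2 * 61 * 67 * 6803 * 29027 * 15887233 := by norm_num
    rcases (Nat.dvd_prime h).1 h2 with h3 | h3 <;> norm_num at h3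
  · have c1 : Nat.Coprime 2 61 := by norm_num
    have c2 : Nat.Coprime (2 * 61) 67 := by norm_num
    have c3 : Nat.Coprime (2 * 61 * 67) 6803 := by norm_num
    have c4 : Nat.Coprime (2 * 61 * 67 * 6803) 29027 := by norm_num
    have c5 : Nat.Coprime (2 * 61 * 67 * 6803 * 29027) 15887233 := by norm_num
    have ht : Nat.totient (2 * 61 * 67 * 6803 * 29027 * 15887233)
        = 1 * 60 * 66 * 6802 * 29026 * 15887232 := by
      rw [Nat.totient_mul c5, Nat.totient_mul c4, Nat.totient_mul c3, Nat.totient_mul c2,
        Nat.totient_mul c1, Nat.totient_prime p2, Nat.totient_prime p61, Nat.totient_prime p67,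
        Nat.totient_prime p6803, Nat.totient_prime p29027, Nat.totient_prime p15887233]
    have hd : (2 * 61 * 67 * 6803 * 29027 * 15887233 : ℕ).divisors.card = 64 := by
      rw [Nat.Coprime.card_divisors_mul c5, Nat.Coprime.card_divisors_mul c4,
        Nat.Coprime.card_divisors_mul c3, Nat.Coprime.card_divisors_mul c2,
        Nat.Coprime.card_divisors_mul c1, dcard p2, dcard p61, dcard p67, dcard p6803,
        dcard p29027, dcard p15887233]
    rw [ht, hd]
    norm_num

end Pool.Agent.S16721
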