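import Pool.Statements.S18831
import Pool.Agent.H32.S36.All

set_option autoImplicit false
open Pool Pool.MP_e90fb2_nt

namespace Pool.Agent.S18831

/-- With S_n = sum of 36^i·C(n,i)^4: for odd primes p, the sum of S_j over j<p satisfies the five stated congruences mod p^2; the sum of (8j+7)S_j over j<p is (p/15)(3+4(-6/p))p mod p^2; and m divides the sum of (8j+7)S_j over j<m for all m≥1. -/
theorem result :
  ∀ S : ℕ → ℤ,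
    (∀ n : ℕ, S n = ∑ i ∈ Finset.range (n + 1), (36 : ℤ) ^ i * ((n.choose i : ℕ) : ℤ) ^ 4) →
    ((∀ p : ℕ, p.Prime → p ≠ 2 →
        ((jacobiSym 2 p = 1 ∧ jacobiSym (p : ℤ) 3 = 1 ∧ jacobiSym (p : ℤ) 5 = 1 →
            ∀ a b : ℤ, (p : ℤ) = a ^ 2 + 30 * b ^ 2 →
              Int.ModEq ((p : ℤ) ^ 2) (∑ j ∈ Finset.range p, S j) (4 * a ^ 2 - 2 * (p : ℤ))) ∧
         (jacobiSym (p : ℤ) 3 = 1 ∧ jacobiSym 2 p = -1 ∧ jacobiSym (p : ℤ) 5 = -1 →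
            ∀ a b : ℤ, (p : ℤ) = 3 * a ^ 2 + 10 * b ^ 2 →
              Int.ModEq ((p : ℤ) ^ 2) (∑ j ∈ Finset.range p, S j) (12 * a ^ 2 - 2 * (p : ℤ))) ∧
         (jacobiSym 2 p = 1 ∧ jacobiSym (p : ℤ) 3 = -1 ∧ jacobiSym (p : ℤ) 5 = -1 →
            ∀ a b : ℤ, (p : ℤ) = 2 * a ^ 2 + 15 * b ^ 2 →
              Int.ModEq ((p : ℤ) ^ 2) (∑ j ∈ Finset.range p, S j) (8 * a ^ 2 - 2 * (p : ℤ))) ∧
         (jacobiSym (p : ℤ) 5 = 1 ∧ jacobiSym 2 p = -1 ∧ jacobiSym (p : ℤ) 3 = -1 →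
            ∀ a b : ℤ, (p : ℤ) = 5 * a ^ 2 + 6 * b ^ 2 →
              Int.ModEq ((p : ℤ) ^ 2) (∑ j ∈ Finset.range p, S j) (2 * (p : ℤ) - 20 * a ^ 2)) ∧
         (jacobiSym (-30) p = -1 →
              Int.ModEq ((p : ℤ) ^ 2) (∑ j ∈ Finset.range p, S j) 0))) ∧
     (∀ p : ℕ, p.Prime → p ≠ 2 →
        Int.ModEq ((p : ℤ) ^ 2)
          (∑ j ∈ Finset.range p, (8 * (j : ℤ) + 7) * S j)
          (jacobiSym (p : ℤ) 15 * (3 + 4 * jacobiSym (-6) p) * (p : ℤ))) ∧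
     (∀ m : ℕ, 1 ≤ m →
        (m : ℤ) ∣ ∑ j ∈ Finset.range m, (8 * (j : ℤ) + 7) * S j)) := by
  intro S hS
  exact ⟨fun p hp hp2 => Pool.Agent.H32.S36.part_a Pool.Agent.H32.S36.all_SUM
      Pool.Agent.H32.S36.all_SPF Pool.Agent.H32.S36.all_INF S hS p hp hp2,
    fun p hp hp2 => Pool.Agent.H32.S36.part_b Pool.Agent.H32.S36.all_SUM
      Pool.Agent.H32.S36.all_A1P Pool.Agent.H32.S36.all_BPP S hS p hp hp2,
    fun m hm => Pool.Agent.H32.S36.part_c Pool.Agent.H32.S36.all_SUM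
      Pool.Agent.H32.S36.all_A6 Pool.Agent.H32.S36.all_A23 Pool.Agent.H32.S36.all_BID S hS m hm⟩

end Pool.Agent.S18831
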