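-- Frozen statement S19085 (problem MP_fde3da_nt), proved from its template.
import Pool.Statements.S19085
import Pool.Agent.H31.QuotH

set_option autoImplicit false
open Pool Pool.MP_fde3da_nt

namespace Pool.Agent.S19085

open Polynomial Pool.Agent.H31.Quot in
lemma card_eq_index (m M : ℕ) (hm : 1 ≤ m) (hM : 1 ≤ M) :
    ∃ I : Ideal ℤ[X], (C (m : ℤ)) ∈ I ∧ (X ^ M - 1 : ℤ[X]) ∈ I ∧ ((X + 1) ^ M - 1 : ℤ[X]) ∈ I ∧
      Nat.card (Polynomial (ZMod m) ⧸
            Ideal.span ({Polynomial.X ^ M - 1, (Polynomial.X + 1) ^ M - 1} :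
              Set (Polynomial (ZMod m)))) = I.toAddSubgroup.index := by
  set π : ℤ[X] →+* (ZMod m)[X] := mapRingHom (Int.castRingHom (ZMod m)) with hπ
  have hsurj : Function.Surjective π := by
    rw [hπ]
    exact map_surjective _ (ZMod.ringHom_surjective _)
  set S : Ideal (ZMod m)[X] := Ideal.span {X ^ M - 1, (X + 1) ^ M - 1} with hS
  refine ⟨Ideal.comap π S, ?_, ?_, ?_, ?_⟩
  · rw [Ideal.mem_comap]
    have : π (C (m : ℤ)) = 0 := by
      rw [hπ]; simp
    rw [this]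
    exact S.zero_mem
  · rw [Ideal.mem_comap]
    have : π (X ^ M - 1) = X ^ M - 1 := by rw [hπ]; simp
    rw [this]
    exact Ideal.subset_span (by simp)
  · rw [Ideal.mem_comap]
    have : π ((X + 1) ^ M - 1) = (X + 1) ^ M - 1 := by rw [hπ]; simp
    rw [this]
    exact Ideal.subset_span (by simp)
  · have e1 : (Ideal.comap π S).toAddSubgroup = S.toAddSubgroup.comap π.toAddMonoidHom := by
      ext x; simp
    rw [e1, AddSubgroup.index_comap_of_surjective _ (by exact hsurj)]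
    rw [AddSubgroup.index]
    rfl

/-- For every integer a other than 0, 1, -1 and every ε>0 there is c such that for all M,N ≥ 1, the log of the size of (Z/(a^N-1))[T]/(T^M-1,(T+1)^M-1) is at most ε·max(M,N)^2 + c. -/
theorem result :
    ∀ a : ℤ, a ≠ 0 → a ≠ 1 → a ≠ -1 →
      ∀ ε : ℝ, 0 < ε → ∃ c : ℝ, ∀ M N : ℕ, 1 ≤ M → 1 ≤ N →
        Real.log ((Nat.card (Polynomial (ZMod (a ^ N - 1).natAbs) ⧸
            Ideal.span ({Polynomial.X ^ M - 1, (Polynomial.X + 1) ^ M - 1} :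
              Set (Polynomial (ZMod (a ^ N - 1).natAbs))))) : ℝ)
          ≤ ε * ((max M N : ℕ) : ℝ) ^ 2 + c := by
  intro a ha0 ha1 ha2 ε hε
  set L : ℝ := Real.log ((a.natAbs : ℝ) + 1) with hL
  have habs : 2 ≤ a.natAbs := by omega
  have habsR : (2 : ℝ) ≤ (a.natAbs : ℝ) := by exact_mod_cast habs
  have hLpos : 0 < L := Real.log_pos (by linarith)
  -- parameter n
  obtain ⟨n0, hn0⟩ := exists_nat_ge (16 * L / ε)
  set n : ℕ := n0 + 1 with hn
  have hn1 : 1 ≤ n := by omega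
  have hnR : 16 * L / ε ≤ (n : ℝ) := by
    rw [hn]; push_cast; linarith
  have hnpos : (0 : ℝ) < n := by exact_mod_cast hn1
  have hnL : 4 * L / n ≤ ε / 4 := by
    rw [div_le_iff₀ hnpos]
    rw [div_le_iff₀ hε] at hnR
    nlinarith
  obtain ⟨c1, hc1⟩ := H31.Quot.log_le (ε / 4) ((n : ℝ) ^ 2 + 8 * (n : ℝ) ^ 7) (2 * n) (by positivity)
    (by positivity) (by
      have : (1 : ℝ) ≤ n := by exact_mod_cast hn1
      linarith)
  obtain ⟨c2, hc2⟩ := H31.Quot.lin_le ε (2 * (n : ℝ) ^ 3 * L) hε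
  refine ⟨max c1 0 + max c2 0, fun M N hM hN => ?_⟩
  set m : ℕ := (a ^ N - 1).natAbs with hm
  -- size of m
  have hpow : 2 ≤ (a ^ N).natAbs := by
    rw [Int.natAbs_pow]
    calc 2 ≤ a.natAbs := habs
      _ = a.natAbs ^ 1 := (pow_one _).symm
      _ ≤ a.natAbs ^ N := Nat.pow_le_pow_right (by omega) hN
  have hm1 : 1 ≤ m := by omega
  have hm2 : m ≤ (a.natAbs + 1) ^ N := by
    have h1 : m ≤ (a ^ N).natAbs + 1 := by omega
    rw [Int.natAbs_pow] at h1
    have h2 : a.natAbs ^ N < (a.natAbs + 1) ^ N :=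
      Nat.pow_lt_pow_left (by omega) (by omega)
    omega
  have hlogm : Real.log m ≤ N * L := by
    have h1 : (m : ℝ) ≤ ((a.natAbs : ℝ) + 1) ^ N := by exact_mod_cast hm2
    have h2 := Real.log_le_log (by exact_mod_cast hm1) h1
    rwa [Real.log_pow] at h2
  have hlogm0 : 0 ≤ Real.log m := Real.log_natCast_nonneg _
  obtain ⟨I, hI1, hI2, hI3, hI4⟩ := card_eq_index m M hm1 hM
  rw [hI4]
  set Z : ℝ := ((max M N : ℕ) : ℝ) with hZ
  have hMZ : (M : ℝ) ≤ Z := by rw [hZ]; exact_mod_cast le_max_left _ _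
  have hNZ : (N : ℝ) ≤ Z := by rw [hZ]; exact_mod_cast le_max_right _ _
  have hM1R : (1 : ℝ) ≤ M := by exact_mod_cast hM
  have hN1R : (1 : ℝ) ≤ N := by exact_mod_cast hN
  have hc10 : c1 ≤ max c1 0 := le_max_left _ _
  have hc20 : c2 ≤ max c2 0 := le_max_left _ _
  have hc11 : 0 ≤ max c1 0 := le_max_right _ _
  have hc21 : 0 ≤ max c2 0 := le_max_right _ _
  rcases le_or_gt (2 * n ^ 3) M with hcase | hcase
  · have h1 := H31.Quot.log_ineq hn1 hcase hm1 hI1 hI2 hI3 hM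
    have h2 := hc1 M hM1R
    have h3 : 4 * (M : ℝ) / n * Real.log m ≤ ε / 4 * Z ^ 2 := by
      calc 4 * (M : ℝ) / n * Real.log m ≤ 4 * (M : ℝ) / n * (N * L) := by gcongr
        _ = (4 * L / n) * (M * N) := by ring
        _ ≤ (ε / 4) * (Z * Z) := by gcongr
        _ = _ := by ring
    have h4 : ε / 4 * (M : ℝ) ^ 2 ≤ ε / 4 * Z ^ 2 := by gcongr
    have h5 : 0 ≤ ε * Z ^ 2 := by positivity
    linarith
  · have h1 := H31.Quot.index_le M (Polynomial.X ^ M - 1)
      (Polynomial.monic_X_pow_sub_C (1 : ℤ) (by omega)).isPrimitive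
      (by
        have := Polynomial.natDegree_X_pow_sub_C (n := M) (r := (1 : ℤ))
        simpa using this.le) m hm1 I hI1 hI2
    have h2 : (I.toAddSubgroup.index : ℝ) ≤ (m : ℝ) ^ M := by exact_mod_cast h1.2
    have h3 : Real.log (I.toAddSubgroup.index : ℝ) ≤ M * Real.log m := by
      have h4 := Real.log_le_log (by exact_mod_cast Nat.pos_of_ne_zero h1.1) h2
      rwa [Real.log_pow] at h4
    have h5 : (M : ℝ) ≤ 2 * (n : ℝ) ^ 3 := by exact_mod_cast hcase.le
    have h6 : (M : ℝ) * Real.log m ≤ 2 * (n : ℝ) ^ 3 * L * Z := by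
      calc (M : ℝ) * Real.log m ≤ (2 * (n : ℝ) ^ 3) * (N * L) := by gcongr
        _ ≤ (2 * (n : ℝ) ^ 3) * (Z * L) := by gcongr
        _ = _ := by ring
    have h7 := hc2 Z
    linarith

end Pool.Agent.S19085
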